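import Mathlib
import Pool.Agent.W396.Il.Basic

set_option autoImplicit false

/-!
Intersections of finitely many slabs `|φ i x - c i| ≤ 1` in a finite dimensional space: a criterion
for illumination, and reduction to the vertices.
-/

open Set Topology
open Pool.Agent.W396.Il (Ill Cov cov_of_ill)

namespace Pool.Agent.TH349.Had

variable {E : Type*} [NormedAddCommGroup E] [NormedSpace ℝ E] [FiniteDimensional ℝ E]
  {ι : Type*} [Finite ι]

/-- intersection of slabs -/
def Sl (φ : ι → (E →ₗ[ℝ] ℝ)) (c : ι → ℝ) : Set E := {x | ∀ i, |φ i x - c i| ≤ 1}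

omit [FiniteDimensional ℝ E] [Finite ι] in
theorem mem_Sl {φ : ι → (E →ₗ[ℝ] ℝ)} {c : ι → ℝ} {x : E} :
    x ∈ Sl φ c ↔ ∀ i, |φ i x - c i| ≤ 1 := Iff.rfl

theorem open_Sl (φ : ι → (E →ₗ[ℝ] ℝ)) (c : ι → ℝ) :
    {x | ∀ i, |φ i x - c i| < 1} ⊆ interior (Sl φ c) := by
  apply interior_maximal
  · intro x hx i
    exact (hx i).le
  · have : {x | ∀ i, |φ i x - c i| < 1} = ⋂ i, {x | |φ i x - c i| < 1} := by
      ext x; simp
    rw [this]
    refine isOpen_iInter_of_finite fun i => ?_
    have hc : Continuous (φ i) := (φ i).continuous_of_finiteDimensional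
    exact isOpen_lt (by fun_prop) continuous_const

omit [Finite ι] in
theorem closed_Sl (φ : ι → (E →ₗ[ℝ] ℝ)) (c : ι → ℝ) : IsClosed (Sl φ c) := by
  have : Sl φ c = ⋂ i, {x | |φ i x - c i| ≤ 1} := by
    ext x; simp [Sl]
  rw [this]
  refine isClosed_iInter fun i => ?_
  have hc : Continuous (φ i) := (φ i).continuous_of_finiteDimensional
  exact isClosed_le (by fun_prop) continuous_const

omit [FiniteDimensional ℝ E] [Finite ι] in
theorem convex_Sl (φ : ι → (E →ₗ[ℝ] ℝ)) (c : ι → ℝ) : Convex ℝ (Sl φ c) := by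
  intro x hx y hy a b ha hb hab i
  have h1 := abs_le.1 (hx i)
  have h2 := abs_le.1 (hy i)
  have e : φ i (a • x + b • y) - c i = a * (φ i x - c i) + b * (φ i y - c i) := by
    rw [map_add, map_smul, map_smul, smul_eq_mul, smul_eq_mul]
    linear_combination (c i) * hab
  rw [e, abs_le]
  constructor <;> nlinarith

/-- A small positive number for finitely many strict inequalities. -/
theorem exists_small {α : Type*} [Finite α] (P : α → ℝ → Prop)
    (h : ∀ a, ∃ ε : ℝ, 0 < ε ∧ ∀ δ, 0 < δ → δ ≤ ε → P a δ) :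
    ∃ ε : ℝ, 0 < ε ∧ ∀ δ, 0 < δ → δ ≤ ε → ∀ a, P a δ := by
  classical
  have := Fintype.ofFinite α
  choose ε hε h2 using h
  rcases isEmpty_or_nonempty α with he | hne
  · exact ⟨1, one_pos, fun δ _ _ a => (he.false a).elim⟩
  · obtain ⟨a₀, -, h3⟩ := Finset.exists_min_image Finset.univ ε ⟨Classical.arbitrary α, by simp⟩
    exact ⟨ε a₀, hε a₀, fun δ hδ hδ2 a => h2 a δ hδ (hδ2.trans (h3 a (by simp)))⟩

/-- Criterion for illumination. -/
theorem ill_of_tight {φ : ι → (E →ₗ[ℝ] ℝ)} {c : ι → ℝ} {x v : E} (hx : x ∈ Sl φ c)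
    (h : ∀ i, |φ i x - c i| = 1 → (φ i x - c i) * φ i v < 0) : Ill (Sl φ c) v x := by
  obtain ⟨ε, hε, h1⟩ := exists_small (fun i δ => |φ i (x + δ • v) - c i| < 1) (fun i => by
    set t := φ i x - c i with ht
    have e : ∀ δ : ℝ, φ i (x + δ • v) - c i = t + δ * φ i v := by
      intro δ
      rw [map_add, map_smul, smul_eq_mul, ht]; ring
    have h0 := hx i
    rw [← ht] at h0
    rcases h0.lt_or_eq with h1 | h1
    · refine ⟨(1 - |t|) / (2 * (|φ i v| + 1)), by
        have := abs_nonneg (φ i v)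
        exact div_pos (by linarith) (by linarith), fun δ hδ hδ2 => ?_⟩
      rw [e]
      have h2 : δ * |φ i v| < 1 - |t| := by
        have h3 := abs_nonneg (φ i v)
        rw [le_div_iff₀ (by linarith)] at hδ2
        nlinarith
      calc |t + δ * φ i v| ≤ |t| + |δ * φ i v| := abs_add_le _ _
        _ = |t| + δ * |φ i v| := by rw [abs_mul, abs_of_pos hδ]
        _ < 1 := by linarith
    · have h2 := h i h1
      rw [← ht] at h2
      refine ⟨1 / (|φ i v| + 1), by positivity, fun δ hδ hδ2 => ?_⟩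
      rw [e]
      have h3 := abs_nonneg (φ i v)
      rw [le_div_iff₀ (by linarith)] at hδ2
      have h4 : δ * |φ i v| < 1 := by nlinarith
      have h5 : |δ * φ i v| < 1 := by rwa [abs_mul, abs_of_pos hδ]
      rw [abs_lt] at h5 ⊢
      rcases (abs_eq one_pos.le).1 h1 with h6 | h6
      · rw [h6] at h2 ⊢
        have : δ * φ i v < 0 := by nlinarith
        constructor <;> linarith [h5.1]
      · rw [h6] at h2 ⊢
        have : 0 < δ * φ i v := by nlinarith
        constructor <;> linarith [h5.2])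
  exact ⟨ε, hε, open_Sl φ c (h1 ε hε le_rfl)⟩

/-- Every point of a compact intersection of slabs lies in a face with a vertex. -/
theorem exists_vertex {φ : ι → (E →ₗ[ℝ] ℝ)} {c : ι → ℝ} (hK : IsCompact (Sl φ c)) {x : E}
    (hx : x ∈ Sl φ c) :
    ∃ y ∈ Sl φ c, (∀ i, |φ i x - c i| = 1 → φ i y = φ i x) ∧
      ∀ w, (∀ i, |φ i y - c i| = 1 → φ i w = 0) → w = 0 := by
  classical
  set F : Set E := {z | z ∈ Sl φ c ∧ ∀ i, |φ i x - c i| = 1 → φ i z = φ i x} with hF
  have hFc : IsCompact F := by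
    have : F = Sl φ c ∩ ⋂ i, ⋂ _ : |φ i x - c i| = 1, {z | φ i z = φ i x} := by
      ext z; simp [hF]
    rw [this]
    refine hK.inter_right (isClosed_iInter fun i => isClosed_iInter fun _ => ?_)
    exact isClosed_eq (φ i).continuous_of_finiteDimensional continuous_const
  obtain ⟨y, hy⟩ := hFc.extremePoints_nonempty ⟨x, hx, fun _ _ => rfl⟩
  have hyF : y ∈ F := hy.1
  refine ⟨y, hyF.1, hyF.2, fun w hw => ?_⟩
  obtain ⟨ε, hε, h1⟩ := exists_small (fun i δ => |φ i (y + δ • w) - c i| ≤ 1 ∧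
      |φ i (y - δ • w) - c i| ≤ 1) (fun i => by
    have h0 := hyF.1 i
    have e : ∀ δ : ℝ, φ i (y + δ • w) - c i = (φ i y - c i) + δ * φ i w := by
      intro δ; rw [map_add, map_smul, smul_eq_mul]; ring
    have e' : ∀ δ : ℝ, φ i (y - δ • w) - c i = (φ i y - c i) - δ * φ i w := by
      intro δ; rw [map_sub, map_smul, smul_eq_mul]; ring
    rcases h0.lt_or_eq with h1 | h1
    · set t := φ i y - c i with ht
      refine ⟨(1 - |t|) / (2 * (|φ i w| + 1)), by
        have := abs_nonneg (φ i w)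
        exact div_pos (by linarith) (by linarith), fun δ hδ hδ2 => ?_⟩
      rw [e, e']
      have h2 : δ * |φ i w| < 1 - |t| := by
        have h3 := abs_nonneg (φ i w)
        rw [le_div_iff₀ (by linarith)] at hδ2
        nlinarith
      have h3 : |δ * φ i w| < 1 - |t| := by rwa [abs_mul, abs_of_pos hδ]
      constructor
      · exact (abs_add_le _ _).trans (by linarith)
      · exact (abs_sub _ _).trans (by linarith)
    · refine ⟨1, one_pos, fun δ _ _ => ?_⟩
      rw [e, e', hw i h1]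
      simpa using h0)
  have h2 := h1 ε hε le_rfl
  have hp : y + ε • w ∈ F := by
    refine ⟨fun i => (h2 i).1, fun i hi => ?_⟩
    have hyi := hyF.2 i hi
    have : |φ i y - c i| = 1 := by rw [hyi]; exact hi
    rw [map_add, map_smul, hw i this, smul_zero, add_zero, hyi]
  have hm : y - ε • w ∈ F := by
    refine ⟨fun i => (h2 i).2, fun i hi => ?_⟩
    have hyi := hyF.2 i hi
    have : |φ i y - c i| = 1 := by rw [hyi]; exact hi
    rw [map_sub, map_smul, hw i this, smul_zero, sub_zero, hyi]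
  have h3 := hy.2 hp hm ⟨1 / 2, 1 / 2, by norm_num, by norm_num, by norm_num, by
    rw [smul_add, smul_sub]
    have : (1 / 2 : ℝ) • y + (1 / 2 : ℝ) • y = y := by rw [← add_smul]; norm_num
    calc (1 / 2 : ℝ) • y + (1 / 2 : ℝ) • ε • w + ((1 / 2 : ℝ) • y - (1 / 2 : ℝ) • ε • w)
        = (1 / 2 : ℝ) • y + (1 / 2 : ℝ) • y := by abel
      _ = y := this⟩
  have h4 : ε • w = 0 := by
    have h5 : y + ε • w = y := h3
    simpa using h5
  exact (smul_eq_zero.1 h4).resolve_left hε.ne'

end Pool.Agent.TH349.Had
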