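import Mathlib

set_option autoImplicit false

/-!
Rounding one or two free coordinates.
-/

namespace Pool.Agent.TH349.Had

/-- sign of a Boolean -/
def sg (b : Bool) : ℝ := if b then 1 else -1

theorem sg_true : sg true = 1 := rfl
theorem sg_false : sg false = -1 := rfl
theorem sg_or (b : Bool) : sg b = 1 ∨ sg b = -1 := by cases b <;> simp [sg]
theorem sg_sq (b : Bool) : sg b * sg b = 1 := by cases b <;> simp [sg]
theorem sg_not (b : Bool) : sg (!b) = -sg b := by cases b <;> simp [sg]

/-- Rounding one coordinate for one functional. -/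
theorem round_one_one (p x : ℝ) (hx : |x| < 1) : ∃ b : Bool, 0 ≤ p * (sg b - x) := by
  rw [abs_lt] at hx
  rcases le_total 0 p with hp | hp
  · exact ⟨true, by rw [sg_true]; nlinarith⟩
  · exact ⟨false, by rw [sg_false]; nlinarith⟩

/-- Rounding one coordinate for two functionals: there is a tie only if the coordinate is `0`
and the coefficients are opposite of absolute value one. -/
theorem round_one_two (p q x : ℝ) (hp : |p| ≤ 1) (hq : |q| ≤ 1) (hx : |x| < 1) :
    (∃ b : Bool, -1 < p * (sg b - x) ∧ -1 < q * (sg b - x)) ∨ (x = 0 ∧ q = -p ∧ |p| = 1) := by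
  rw [abs_lt] at hx
  rw [abs_le] at hp hq
  by_cases h1 : -1 < p * (1 - x) ∧ -1 < q * (1 - x)
  · exact Or.inl ⟨true, by rw [sg_true]; exact h1⟩
  by_cases h2 : -1 < p * (-1 - x) ∧ -1 < q * (-1 - x)
  · exact Or.inl ⟨false, by rw [sg_false]; exact h2⟩
  right
  have h1' : p * (1 - x) ≤ -1 ∨ q * (1 - x) ≤ -1 := by
    by_contra hc; push Not at hc; exact h1 hc
  have h2' : p * (-1 - x) ≤ -1 ∨ q * (-1 - x) ≤ -1 := by
    by_contra hc; push Not at hc; exact h2 hc
  rcases h1' with h1 | h1 <;> rcases h2' with h2 | h2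
  · exfalso; nlinarith
  · -- p (1-x) ≤ -1, q (1+x) ≥ 1
    have hx1 : x ≤ 0 := by nlinarith
    have hx2 : 0 ≤ x := by nlinarith
    have hx0 : x = 0 := le_antisymm hx1 hx2
    subst hx0
    have e1 : p = -1 := by linarith
    have e2 : q = 1 := by linarith
    refine ⟨rfl, by rw [e1, e2]; norm_num, by rw [e1]; norm_num⟩
  · have hx1 : x ≤ 0 := by nlinarith
    have hx2 : 0 ≤ x := by nlinarith
    have hx0 : x = 0 := le_antisymm hx1 hx2
    subst hx0
    have e1 : p = 1 := by linarith
    have e2 : q = -1 := by linarith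
    refine ⟨rfl, by rw [e1, e2], by rw [e1]; norm_num⟩
  · exfalso; nlinarith

theorem round_aux0 (a b c e u v : ℝ) (ha1 : a ≤ 1) (hb1 : b ≤ 1) (hc1 : c ≤ 1) (he1 : e ≤ 1)
    (hu0 : 0 < u) (hu1 : u < 1) (hv0 : 0 < v) (hv1 : v < 1)
    (h1 : 1 ≤ a * u + b * v) (h2 : 1 ≤ c * (1 - u) + e * (1 - v)) : a * e - b * c = 0 := by
  have k1 : u + v = 1 := by nlinarith
  have k2 : v = 1 - u := by linarith
  subst k2
  have ea : a = 1 := by nlinarith
  have eb : b = 1 := by nlinarith
  have ec : c = 1 := by nlinarith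
  have ee : e = 1 := by nlinarith
  rw [ea, eb, ec, ee]; ring

/-- Two coordinates, both functionals have nonnegative resp. nonpositive coefficients. -/
theorem round_aux1 (a b c e x y : ℝ) (ha : 0 ≤ a) (hb : 0 ≤ b) (hc : 0 ≤ c) (he : 0 ≤ e)
    (ha1 : a ≤ 1) (hb1 : b ≤ 1) (hc1 : c ≤ 1) (he1 : e ≤ 1)
    (hx1 : -1 < x) (hx2 : x < 1) (hy1 : -1 < y) (hy2 : y < 1)
    (hdet : a * e - b * c ≠ 0) :
    (-(c * (1 - x)) - e * (1 - y) > -1) ∨ (-(a * (1 + x)) - b * (1 + y) > -1) ∨
    (a * (1 - x) - b * (1 + y) > -1 ∧ -(c * (1 - x)) + e * (1 + y) > -1) ∨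
    (-(a * (1 + x)) + b * (1 - y) > -1 ∧ c * (1 + x) - e * (1 - y) > -1) := by
  by_contra hcon
  push Not at hcon
  obtain ⟨h1, h2, h3, h4⟩ := hcon
  apply hdet
  by_cases k3 : -1 < a * (1 - x) - b * (1 + y)
  · have h3' := h3 k3
    -- c (1-x) ≥ 1 + e (1+y)
    by_cases k4 : -1 < -(a * (1 + x)) + b * (1 - y)
    · have h4' := h4 k4
      -- e (1-y) ≥ 1 + c (1+x)
      -- both f2: sum: c*(-2x)... 
      have hs : c * x + e * y ≤ -1 := by nlinarith
      have hs2 : a * (1 + x) + b * (1 + y) ≥ 1 := by linarith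
      have hx0 : x < 0 := by
        by_contra hx0
        push Not at hx0
        have : 0 ≤ c * x := mul_nonneg hc hx0
        nlinarith
      have hy0 : y < 0 := by
        by_contra hy0
        push Not at hy0
        have : 0 ≤ e * y := mul_nonneg he hy0
        nlinarith
      exact round_aux0 a b c e (1 + x) (1 + y) ha1 hb1 hc1 he1 (by linarith) (by linarith)
        (by linarith) (by linarith) hs2 (by linarith)
    · push Not at k4
      -- a (1+x) ≥ 1 + b (1-y), c (1-x) ≥ 1 + e(1+y)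
      have e1 : e * (1 + y) ≤ 0 := by nlinarith
      have e2 : b * (1 - y) ≤ 0 := by nlinarith
      have e3 : e = 0 := by nlinarith
      have e4 : b = 0 := by nlinarith
      rw [e3, e4]; ring
  · push Not at k3
    -- b (1+y) ≥ 1 + a (1-x)
    by_cases k4 : -1 < -(a * (1 + x)) + b * (1 - y)
    · have h4' := h4 k4
      -- e (1-y) ≥ 1 + c (1+x)
      have e1 : a * (1 - x) ≤ 0 := by nlinarith
      have e2 : c * (1 + x) ≤ 0 := by nlinarith
      have e3 : a = 0 := by nlinarith
      have e4 : c = 0 := by nlinarith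
      rw [e3, e4]; ring
    · push Not at k4
      have hs : a * x + b * y ≥ 1 := by nlinarith
      have hx0 : 0 < x := by
        by_contra hx0
        push Not at hx0
        have : a * x ≤ 0 := mul_nonpos_of_nonneg_of_nonpos ha hx0
        nlinarith
      have hy0 : 0 < y := by
        by_contra hy0
        push Not at hy0
        have : b * y ≤ 0 := mul_nonpos_of_nonneg_of_nonpos hb hy0
        nlinarith
      have h5 := round_aux0 c e a b (1 - x) (1 - y) hc1 he1 ha1 hb1 (by linarith) (by linarith)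
        (by linarith) (by linarith) (by linarith) (by linarith)
      linarith

/-- Two coordinates, the second functional has coefficients of different signs. -/
theorem round_aux2 (a b c e x y : ℝ) (hb : 0 ≤ b) (he : 0 ≤ e)
    (ha1 : a ≤ 1) (hc1 : c ≤ 1)
    (hx1 : -1 < x) (hx2 : x < 1) (hy2 : y < 1)
    (hdet : a * e + b * c ≠ 0) :
    (-(c * (1 - x)) + e * (1 - y) > -1) ∨ (-(a * (1 + x)) + b * (1 - y) > -1) := by
  by_contra hcon
  push Not at hcon
  obtain ⟨h1, h2⟩ := hcon
  apply hdet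
  have e1 : e * (1 - y) ≤ 0 := by nlinarith
  have e2 : b * (1 - y) ≤ 0 := by nlinarith
  have e3 : e = 0 := by nlinarith
  have e4 : b = 0 := by nlinarith
  rw [e3, e4]; ring

theorem round_two_pos (a b c e x y : ℝ) (ha : 0 ≤ a) (hb : 0 ≤ b)
    (ha1 : |a| ≤ 1) (hb1 : |b| ≤ 1) (hc1 : |c| ≤ 1) (he1 : |e| ≤ 1)
    (hx : |x| < 1) (hy : |y| < 1) (hdet : a * e - b * c ≠ 0) :
    ∃ s t : Bool, -1 < a * (sg s - x) + b * (sg t - y) ∧
      -1 < c * (sg s - x) + e * (sg t - y) := by
  rw [abs_lt] at hx hy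
  rw [abs_le] at ha1 hb1 hc1 he1
  have ha2 : 0 ≤ a * (1 - x) := mul_nonneg ha (by linarith)
  have hb2 : 0 ≤ b * (1 - y) := mul_nonneg hb (by linarith)
  rcases le_total 0 c with hc | hc <;> rcases le_total 0 e with he | he
  · have hc2 : 0 ≤ c * (1 - x) := mul_nonneg hc (by linarith)
    have he2 : 0 ≤ e * (1 - y) := mul_nonneg he (by linarith)
    refine ⟨true, true, ?_, ?_⟩ <;> rw [sg_true] <;> linarith
  · -- c ≥ 0, e ≤ 0
    have h := round_aux2 b a (-e) c y x ha hc (by linarith) (by linarith)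
      hy.1 hy.2 hx.2 (by intro h; apply hdet; linarith)
    rcases h with h | h
    · refine ⟨true, true, ?_, ?_⟩ <;> rw [sg_true] <;> linarith
    · refine ⟨true, false, ?_, ?_⟩ <;> rw [sg_true, sg_false]
      · linarith
      · have hc2 : 0 ≤ c * (1 - x) := mul_nonneg hc (by linarith)
        have he2 : 0 ≤ (-e) * (1 + y) := mul_nonneg (by linarith) (by linarith)
        linarith
  · have h := round_aux2 a b (-c) e x y hb he (by linarith) (by linarith)
      hx.1 hx.2 hy.2 (by intro h; apply hdet; linarith)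
    rcases h with h | h
    · refine ⟨true, true, ?_, ?_⟩ <;> rw [sg_true] <;> linarith
    · refine ⟨false, true, ?_, ?_⟩ <;> rw [sg_true, sg_false]
      · linarith
      · have hc2 : 0 ≤ (-c) * (1 + x) := mul_nonneg (by linarith) (by linarith)
        have he2 : 0 ≤ e * (1 - y) := mul_nonneg he (by linarith)
        linarith
  · have h := round_aux1 a b (-c) (-e) x y ha hb (by linarith) (by linarith) (by linarith)
      (by linarith) (by linarith) (by linarith) hx.1 hx.2 hy.1 hy.2
      (by intro h; apply hdet; linarith)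
    rcases h with h | h | ⟨h, h'⟩ | ⟨h, h'⟩
    · refine ⟨true, true, ?_, ?_⟩ <;> rw [sg_true] <;> linarith
    · refine ⟨false, false, ?_, ?_⟩ <;> rw [sg_false]
      · linarith
      · have hc2 : 0 ≤ (-c) * (1 + x) := mul_nonneg (by linarith) (by linarith)
        have he2 : 0 ≤ (-e) * (1 + y) := mul_nonneg (by linarith) (by linarith)
        linarith
    · refine ⟨true, false, ?_, ?_⟩ <;> rw [sg_true, sg_false] <;> linarith
    · refine ⟨false, true, ?_, ?_⟩ <;> rw [sg_true, sg_false] <;> linarith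

/-- Rounding two coordinates for two functionals: no ties. -/
theorem round_two_two (a b c e x y : ℝ)
    (ha1 : |a| ≤ 1) (hb1 : |b| ≤ 1) (hc1 : |c| ≤ 1) (he1 : |e| ≤ 1)
    (hx : |x| < 1) (hy : |y| < 1) (hdet : a * e - b * c ≠ 0) :
    ∃ s t : Bool, -1 < a * (sg s - x) + b * (sg t - y) ∧
      -1 < c * (sg s - x) + e * (sg t - y) := by
  rcases le_total 0 a with ha | ha <;> rcases le_total 0 b with hb | hb
  · exact round_two_pos a b c e x y ha hb ha1 hb1 hc1 he1 hx hy hdet
  · obtain ⟨s, t, h1, h2⟩ := round_two_pos a (-b) c (-e) x (-y) ha (by linarith) ha1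
      (by rwa [abs_neg]) hc1 (by rwa [abs_neg]) hx (by rwa [abs_neg])
      (by intro h; apply hdet; linarith)
    refine ⟨s, !t, ?_, ?_⟩ <;> rw [sg_not] <;> linarith
  · obtain ⟨s, t, h1, h2⟩ := round_two_pos (-a) b (-c) e (-x) y (by linarith) hb
      (by rwa [abs_neg]) hb1 (by rwa [abs_neg]) he1 (by rwa [abs_neg]) hy
      (by intro h; apply hdet; linarith)
    refine ⟨!s, t, ?_, ?_⟩ <;> rw [sg_not] <;> linarith
  · obtain ⟨s, t, h1, h2⟩ := round_two_pos (-a) (-b) (-c) (-e) (-x) (-y) (by linarith)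
      (by linarith) (by rwa [abs_neg]) (by rwa [abs_neg]) (by rwa [abs_neg]) (by rwa [abs_neg])
      (by rwa [abs_neg]) (by rwa [abs_neg]) (by intro h; apply hdet; linarith)
    refine ⟨!s, !t, ?_, ?_⟩ <;> rw [sg_not, sg_not] <;> linarith

end Pool.Agent.TH349.Had
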