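import Mathlib
import Pool.Agent.TH349.Had.Round

set_option autoImplicit false

/-!
The cube cut by two symmetric slabs: one direction in each orthant.
-/

open Matrix

namespace Pool.Agent.TH349.Had

variable {ι : Type*} [Fintype ι]

/-- the vertex of the cube with signs `τ` -/
def sv (τ : ι → Bool) : ι → ℝ := fun i => sg (τ i)

/-- A vector with given products with two independent vectors. -/
theorem exists_dot (a b : ι → ℝ) (hD : (a ⬝ᵥ a) * (b ⬝ᵥ b) - (a ⬝ᵥ b) ^ 2 ≠ 0) (r s : ℝ) :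
    ∃ u : ι → ℝ, a ⬝ᵥ u = r ∧ b ⬝ᵥ u = s := by
  set D := (a ⬝ᵥ a) * (b ⬝ᵥ b) - (a ⬝ᵥ b) ^ 2 with hDd
  refine ⟨((r * (b ⬝ᵥ b) - s * (a ⬝ᵥ b)) / D) • a + ((s * (a ⬝ᵥ a) - r * (a ⬝ᵥ b)) / D) • b,
    ?_, ?_⟩
  · rw [dotProduct_add, dotProduct_smul, dotProduct_smul, smul_eq_mul, smul_eq_mul]
    field_simp
    rw [hDd]; ring
  · rw [dotProduct_add, dotProduct_smul, dotProduct_smul, smul_eq_mul, smul_eq_mul,
      dotProduct_comm b a]
    field_simp
    rw [hDd]; ring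

/-- small multiple does not change the sign -/
theorem small_sign (t u : ℝ) (ht : t ≠ 0) : ∃ ε : ℝ, 0 < ε ∧ ∀ δ, 0 < δ → δ ≤ ε →
    t * (-(t + δ * u)) < 0 := by
  refine ⟨|t| / (2 * (|u| + 1)), by positivity, fun δ hδ hδ2 => ?_⟩
  have h3 := abs_nonneg u
  have ht' : 0 < |t| := abs_pos.2 ht
  rw [le_div_iff₀ (by linarith)] at hδ2
  have h4 : |δ * u| < |t| := by
    rw [abs_mul, abs_of_pos hδ]
    nlinarith
  have h5 : |t * (δ * u)| < |t| * |t| := by
    rw [abs_mul]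
    exact mul_lt_mul_of_pos_left h4 ht'
  have h6 : |t| * |t| = t * t := abs_mul_abs_self t
  have h7 := neg_abs_le (t * (δ * u))
  nlinarith

/-- The direction for a sign vector. -/
theorem exists_dir (g : Fin 2 → ι → ℝ) (q : ι → ℝ) (hq : ∀ i, |q i| < 1) (τ : ι → Bool) :
    ∃ v : ι → ℝ, (∀ i, sg (τ i) * v i < 0) ∧
      (∀ l, g l ⬝ᵥ (sv τ - q) ≠ 0 → (g l ⬝ᵥ (sv τ - q)) * (g l ⬝ᵥ v) < 0) ∧
      ((g 0 ⬝ᵥ g 0) * (g 1 ⬝ᵥ g 1) - (g 0 ⬝ᵥ g 1) ^ 2 ≠ 0 →
        (g 0 ⬝ᵥ (sv τ - q) = 0 → g 1 ⬝ᵥ (sv τ - q) ≠ 0 →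
          0 < (g 1 ⬝ᵥ (sv τ - q)) * (g 0 ⬝ᵥ v)) ∧
        (g 1 ⬝ᵥ (sv τ - q) = 0 → g 0 ⬝ᵥ (sv τ - q) ≠ 0 →
          (g 0 ⬝ᵥ (sv τ - q)) * (g 1 ⬝ᵥ v) < 0)) := by
  classical
  have hne : ∀ i, sg (τ i) - q i ≠ 0 := by
    intro i h
    have h1 := hq i
    have h2 : q i = sg (τ i) := by linarith
    rw [h2] at h1
    rcases sg_or (τ i) with h3 | h3 <;> rw [h3] at h1 <;> norm_num at h1
  have hsgn : ∀ i, 0 < sg (τ i) * (sg (τ i) - q i) := by
    intro i
    have h1 := abs_lt.1 (hq i)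
    rcases sg_or (τ i) with h3 | h3 <;> rw [h3] <;> linarith
  have hconv : ∀ i (z : ℝ), (sg (τ i) - q i) * z < 0 → sg (τ i) * z < 0 := by
    intro i z hz
    by_contra hc
    push Not at hc
    have h1 := mul_nonneg (hsgn i).le hc
    have h2 : sg (τ i) * (sg (τ i) - q i) * (sg (τ i) * z) =
        (sg (τ i) * sg (τ i)) * ((sg (τ i) - q i) * z) := by ring
    rw [h2, sg_sq, one_mul] at h1
    linarith
  by_cases hD : (g 0 ⬝ᵥ g 0) * (g 1 ⬝ᵥ g 1) - (g 0 ⬝ᵥ g 1) ^ 2 ≠ 0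
  · obtain ⟨u, hu0, hu1⟩ := exists_dot (g 0) (g 1) hD (-(g 1 ⬝ᵥ (sv τ - q))) (g 0 ⬝ᵥ (sv τ - q))
    -- finitely many conditions
    have key : ∃ δ : ℝ, 0 < δ ∧
        (∀ i, (sg (τ i) - q i) * (-((sg (τ i) - q i) + δ * u i)) < 0) ∧
        (∀ l, g l ⬝ᵥ (sv τ - q) ≠ 0 →
          (g l ⬝ᵥ (sv τ - q)) * (-(g l ⬝ᵥ (sv τ - q) + δ * (g l ⬝ᵥ u))) < 0) := by
      choose ε hε h1 using fun i => small_sign (sg (τ i) - q i) (u i) (hne i)
      have h2 : ∀ l, ∃ ε : ℝ, 0 < ε ∧ ∀ δ, 0 < δ → δ ≤ ε → (g l ⬝ᵥ (sv τ - q) ≠ 0 →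
          (g l ⬝ᵥ (sv τ - q)) * (-(g l ⬝ᵥ (sv τ - q) + δ * (g l ⬝ᵥ u))) < 0) := by
        intro l
        by_cases hl : g l ⬝ᵥ (sv τ - q) = 0
        · exact ⟨1, one_pos, fun δ _ _ h => absurd hl h⟩
        · obtain ⟨ε, hε, h⟩ := small_sign (g l ⬝ᵥ (sv τ - q)) (g l ⬝ᵥ u) hl
          exact ⟨ε, hε, fun δ hδ hδ2 _ => h δ hδ hδ2⟩
      choose η hη h3 using h2
      obtain ⟨δ, hδ, h4, h5⟩ : ∃ δ : ℝ, 0 < δ ∧ (∀ i, δ ≤ ε i) ∧ ∀ l, δ ≤ η l := by
        rcases isEmpty_or_nonempty ι with he | hne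
        · refine ⟨min (η 0) (η 1), lt_min (hη 0) (hη 1), fun i => (he.false i).elim, ?_⟩
          intro l
          fin_cases l
          · exact min_le_left _ _
          · exact min_le_right _ _
        · obtain ⟨i₀, -, h6⟩ := Finset.exists_min_image Finset.univ ε
            ⟨Classical.arbitrary ι, by simp⟩
          refine ⟨min (ε i₀) (min (η 0) (η 1)), lt_min (hε _) (lt_min (hη 0) (hη 1)),
            fun i => (min_le_left _ _).trans (h6 i (by simp)), ?_⟩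
          intro l
          fin_cases l
          · exact (min_le_right _ _).trans (min_le_left _ _)
          · exact (min_le_right _ _).trans (min_le_right _ _)
      exact ⟨δ, hδ, fun i => h1 i δ hδ (h4 i), fun l hl => h3 l δ hδ (h5 l) hl⟩
    obtain ⟨δ, hδ, h1, h2⟩ := key
    have e : ∀ l, g l ⬝ᵥ (-((sv τ - q) + δ • u)) = -(g l ⬝ᵥ (sv τ - q) + δ * (g l ⬝ᵥ u)) := by
      intro l
      rw [dotProduct_neg, dotProduct_add, dotProduct_smul, smul_eq_mul]
    refine ⟨-((sv τ - q) + δ • u), fun i => ?_, fun l hl => ?_,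
      fun _ => ⟨fun h3 h4 => ?_, fun h3 h4 => ?_⟩⟩
    · apply hconv
      simpa [sv] using h1 i
    · rw [e]; exact h2 l hl
    · rw [e, h3, hu0]
      have : 0 < (g 1 ⬝ᵥ (sv τ - q)) * (g 1 ⬝ᵥ (sv τ - q)) := mul_self_pos.2 h4
      nlinarith
    · rw [e, h3, hu1]
      have : 0 < (g 0 ⬝ᵥ (sv τ - q)) * (g 0 ⬝ᵥ (sv τ - q)) := mul_self_pos.2 h4
      nlinarith
  · refine ⟨-(sv τ - q), fun i => ?_, fun l hl => ?_, fun h => absurd h hD⟩
    · have := hsgn i
      simp only [sv, Pi.neg_apply, Pi.sub_apply]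
      linarith [this]
    · rw [dotProduct_neg]
      have : 0 < (g l ⬝ᵥ (sv τ - q)) * (g l ⬝ᵥ (sv τ - q)) := mul_self_pos.2 hl
      linarith

/-- Independence at a tie. -/
theorem tie_indep (a b y : ι → ℝ) (j : ι) (s t : ℝ) (hs : s ≠ 0)
    (ha : a ⬝ᵥ y = s) (hb : b ⬝ᵥ y = t) (hst : t * t = s * s) (hj : t * b j = -(s * a j))
    (haj : a j ≠ 0) : (a ⬝ᵥ a) * (b ⬝ᵥ b) - (a ⬝ᵥ b) ^ 2 ≠ 0 := by
  intro hD
  set A := a ⬝ᵥ a with hA
  set B := a ⬝ᵥ b with hB
  have hw : (A • b - B • a) ⬝ᵥ (A • b - B • a) = 0 := by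
    have h1 : (A • b - B • a) ⬝ᵥ (A • b - B • a) = A * (A * (b ⬝ᵥ b) - B ^ 2) := by
      rw [dotProduct_sub, sub_dotProduct, sub_dotProduct]
      simp only [dotProduct_smul, smul_dotProduct, smul_eq_mul]
      rw [dotProduct_comm b a, ← hA, ← hB]
      ring
    rw [h1, hD, mul_zero]
  rw [dotProduct_self_eq_zero] at hw
  have hAp : A ≠ 0 := by
    intro h
    rw [hA, dotProduct_self_eq_zero] at h
    exact haj (by rw [h]; rfl)
  have h2 : ∀ i, A * b i = B * a i := by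
    intro i
    have := congrFun hw i
    simp only [Pi.sub_apply, Pi.smul_apply, smul_eq_mul, Pi.zero_apply] at this
    linarith
  have h3 : A * t = B * s := by
    rw [← ha, ← hb, ← smul_eq_mul, ← smul_eq_mul, ← smul_dotProduct, ← smul_dotProduct]
    congr 1
    ext i
    simp only [Pi.smul_apply, smul_eq_mul]
    exact h2 i
  have h4 := h2 j
  -- A b_j = B a_j, A t = B s
  have h5 : A * (t * b j) = B * (t * a j) := by linear_combination t * h4
  rw [hj] at h5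
  have h6 : (A * s) * a j = -(B * t) * a j := by linear_combination -h5
  have h7 : A * s = -(B * t) := mul_right_cancel₀ haj h6
  have h8 : A * (s * s) = -(A * (t * t)) := by
    linear_combination s * h7 + t * h3
  rw [hst] at h8
  have h9 : A * (s * s) = 0 := by linarith
  rcases mul_eq_zero.1 h9 with h | h
  · exact hAp h
  · exact hs (mul_self_eq_zero.1 h)

/-- Change of few coordinates. -/
theorem dot_sub_of_supp (g f h : ι → ℝ) (J : Finset ι) (hJ : ∀ i ∉ J, f i = h i) :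
    g ⬝ᵥ f = g ⬝ᵥ h + ∑ i ∈ J, g i * (f i - h i) := by
  classical
  have h1 : ∑ i ∈ J, g i * (f i - h i) = ∑ i, g i * (f i - h i) :=
    Finset.sum_subset (Finset.subset_univ _) (fun i _ hi => by rw [hJ i hi, sub_self, mul_zero])
  rw [h1]
  simp only [dotProduct]
  rw [← Finset.sum_add_distrib]
  exact Finset.sum_congr rfl fun i _ => by ring

/-- At a vertex at most two coordinates are free. -/
theorem card_free_le [DecidableEq ι] (g : Fin 2 → ι → ℝ) (J : Finset ι)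
    (hJ : ∀ w : ι → ℝ, (∀ i ∉ J, w i = 0) → (∀ l, g l ⬝ᵥ w = 0) → w = 0) : J.card ≤ 2 := by
  classical
  let T : (J → ℝ) →ₗ[ℝ] (Fin 2 → ℝ) :=
    { toFun := fun w l => ∑ i : J, g l i * w i
      map_add' := fun w w' => by
        ext l; simp only [Pi.add_apply, mul_add, Finset.sum_add_distrib]
      map_smul' := fun c w => by
        ext l
        simp only [Pi.smul_apply, smul_eq_mul, RingHom.id_apply, Finset.mul_sum]
        exact Finset.sum_congr rfl fun i _ => by ring }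
  have hT : Function.Injective T := by
    rw [injective_iff_map_eq_zero]
    intro w hw
    set w' : ι → ℝ := fun i => if h : i ∈ J then w ⟨i, h⟩ else 0 with hw'
    have h0 : w' = 0 := by
      refine hJ w' (fun i hi => by simp [hw', hi]) (fun l => ?_)
      have h1 := congrFun hw l
      have h2 : g l ⬝ᵥ w' = ∑ i ∈ J, g l i * w' i := by
        have := dot_sub_of_supp (g l) w' 0 J (fun i hi => by simp [hw', hi])
        simpa using this
      rw [h2, ← Finset.sum_coe_sort J (fun i => g l i * w' i)]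
      have h3 : T w l = ∑ i : J, g l i * w i := rfl
      rw [h3] at h1
      simp only [Pi.zero_apply] at h1
      rw [← h1]
      exact Finset.sum_congr rfl fun i _ => by simp [hw']
    ext i
    have := congrFun h0 i
    simpa [hw'] using this
  have h := LinearMap.finrank_le_finrank_of_injective hT
  simpa using h

end Pool.Agent.TH349.Had
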