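import Mathlib
import Pool.Agent.TH349.Had.Slab
import Pool.Agent.TH349.Had.Two

set_option autoImplicit false

/-!
Polytopes in the cube `[-1,1]^ι` given by finitely many further linear inequalities: illumination by
directions attached to the vertices of the cube.
-/

open Set Topology Matrix
open Pool.Agent.W396.Il (Ill Cov cov_of_ill)

namespace Pool.Agent.TH349.Had

variable {ι M : Type*} [Fintype ι]

/-- the part of the cube where the inequalities `F m ⬝ᵥ x ≤ b m` hold -/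
def Cu (F : M → ι → ℝ) (b : M → ℝ) : Set (ι → ℝ) :=
  {x | (∀ j, |x j| ≤ 1) ∧ ∀ m, F m ⬝ᵥ x ≤ b m}

theorem cont_dot (g : ι → ℝ) : Continuous fun x : ι → ℝ => g ⬝ᵥ x := by
  unfold dotProduct
  fun_prop

theorem convex_Cu (F : M → ι → ℝ) (b : M → ℝ) : Convex ℝ (Cu F b) := by
  intro x hx y hy s t hs ht hst
  refine ⟨fun j => ?_, fun m => ?_⟩
  · have h1 := abs_le.1 (hx.1 j)
    have h2 := abs_le.1 (hy.1 j)
    simp only [Pi.add_apply, Pi.smul_apply, smul_eq_mul]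
    rw [abs_le]
    constructor <;> nlinarith
  · have h1 := hx.2 m
    have h2 := hy.2 m
    rw [dotProduct_add, dotProduct_smul, dotProduct_smul, smul_eq_mul, smul_eq_mul]
    have : b m = s * b m + t * b m := by rw [← add_mul, hst, one_mul]
    rw [this]
    exact add_le_add (mul_le_mul_of_nonneg_left h1 hs) (mul_le_mul_of_nonneg_left h2 ht)

theorem closed_Cu (F : M → ι → ℝ) (b : M → ℝ) : IsClosed (Cu F b) := by
  have : Cu F b = (⋂ j, {x : ι → ℝ | |x j| ≤ 1}) ∩ ⋂ m, {x : ι → ℝ | F m ⬝ᵥ x ≤ b m} := by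
    ext x; simp [Cu]
  rw [this]
  refine (isClosed_iInter fun j => isClosed_le (by fun_prop) continuous_const).inter
    (isClosed_iInter fun m => isClosed_le (cont_dot _) continuous_const)

theorem compact_Cu (F : M → ι → ℝ) (b : M → ℝ) : IsCompact (Cu F b) := by
  refine Metric.isCompact_of_isClosed_isBounded (closed_Cu F b) ?_
  refine (Metric.isBounded_closedBall (x := (0 : ι → ℝ)) (r := 1)).subset fun x hx => ?_
  rw [mem_closedBall_zero_iff, pi_norm_le_iff_of_nonneg zero_le_one]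
  exact fun j => by rw [Real.norm_eq_abs]; exact hx.1 j

theorem open_Cu [Finite M] (F : M → ι → ℝ) (b : M → ℝ) :
    {x : ι → ℝ | (∀ j, |x j| < 1) ∧ ∀ m, F m ⬝ᵥ x < b m} ⊆ interior (Cu F b) := by
  apply interior_maximal
  · exact fun x hx => ⟨fun j => (hx.1 j).le, fun m => (hx.2 m).le⟩
  · have : {x : ι → ℝ | (∀ j, |x j| < 1) ∧ ∀ m, F m ⬝ᵥ x < b m} =
        (⋂ j, {x : ι → ℝ | |x j| < 1}) ∩ ⋂ m, {x : ι → ℝ | F m ⬝ᵥ x < b m} := by
      ext x; simp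
    rw [this]
    refine (isOpen_iInter_of_finite fun j => isOpen_lt (by fun_prop) continuous_const).inter
      (isOpen_iInter_of_finite fun m => isOpen_lt (cont_dot _) continuous_const)

theorem small_lt (t b u : ℝ) (h : t < b ∨ (t ≤ b ∧ u < 0)) :
    ∃ ε : ℝ, 0 < ε ∧ ∀ δ, 0 < δ → δ ≤ ε → t + δ * u < b := by
  rcases h with h | ⟨h, hu⟩
  · refine ⟨(b - t) / (2 * (|u| + 1)), div_pos (by linarith) (by positivity),
      fun δ hδ hδ2 => ?_⟩
    have h3 := abs_nonneg u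
    rw [le_div_iff₀ (by linarith)] at hδ2
    have h4 : δ * u ≤ δ * |u| := mul_le_mul_of_nonneg_left (le_abs_self u) hδ.le
    nlinarith
  · exact ⟨1, one_pos, fun δ hδ _ => by nlinarith⟩

theorem small_abs (t u : ℝ) (ht : |t| ≤ 1) (h : |t| = 1 → t * u < 0) :
    ∃ ε : ℝ, 0 < ε ∧ ∀ δ, 0 < δ → δ ≤ ε → |t + δ * u| < 1 := by
  obtain ⟨h1, h2⟩ := abs_le.1 ht
  obtain ⟨ε, hε, h3⟩ := small_lt t 1 u (by
    rcases h2.lt_or_eq with h4 | h4
    · exact Or.inl h4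
    · right
      have := h (by rw [h4]; norm_num)
      rw [h4] at this
      exact ⟨h2, by linarith⟩)
  obtain ⟨ε', hε', h3'⟩ := small_lt (-t) 1 (-u) (by
    rcases h1.lt_or_eq with h4 | h4
    · exact Or.inl (by linarith)
    · right
      have := h (by rw [← h4]; norm_num)
      rw [← h4] at this
      exact ⟨by linarith, by linarith⟩)
  refine ⟨min ε ε', lt_min hε hε', fun δ hδ hδ2 => ?_⟩
  have k1 := h3 δ hδ (hδ2.trans (min_le_left _ _))
  have k2 := h3' δ hδ (hδ2.trans (min_le_right _ _))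
  rw [abs_lt]
  constructor <;> linarith

theorem ill_Cu [Finite M] {F : M → ι → ℝ} {b : M → ℝ} {x v : ι → ℝ} (hx : x ∈ Cu F b)
    (h1 : ∀ j, |x j| = 1 → x j * v j < 0) (h2 : ∀ m, F m ⬝ᵥ x = b m → F m ⬝ᵥ v < 0) :
    Ill (Cu F b) v x := by
  obtain ⟨ε, hε, h3⟩ := exists_small (fun j δ => |x j + δ * v j| < 1)
    (fun j => small_abs (x j) (v j) (hx.1 j) (h1 j))
  obtain ⟨ε', hε', h4⟩ := exists_small (fun m δ => F m ⬝ᵥ x + δ * (F m ⬝ᵥ v) < b m)
    (fun m => small_lt _ _ _ (by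
      rcases (hx.2 m).lt_or_eq with h | h
      · exact Or.inl h
      · exact Or.inr ⟨hx.2 m, h2 m h⟩))
  refine ⟨min ε ε', lt_min hε hε', open_Cu F b ⟨fun j => ?_, fun m => ?_⟩⟩
  · have := h3 (min ε ε') (lt_min hε hε') (min_le_left _ _) j
    simpa using this
  · have := h4 (min ε ε') (lt_min hε hε') (min_le_right _ _) m
    rw [dotProduct_add, dotProduct_smul, smul_eq_mul]
    exact this

/-- `y` is a vertex -/
def Ver (F : M → ι → ℝ) (b : M → ℝ) (y : ι → ℝ) : Prop :=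
  ∀ w : ι → ℝ, (∀ j, |y j| = 1 → w j = 0) → (∀ m, F m ⬝ᵥ y = b m → F m ⬝ᵥ w = 0) → w = 0

theorem exists_vertex_Cu [Finite M] {F : M → ι → ℝ} {b : M → ℝ} {x : ι → ℝ} (hx : x ∈ Cu F b) :
    ∃ y ∈ Cu F b, (∀ j, |x j| = 1 → y j = x j) ∧ (∀ m, F m ⬝ᵥ x = b m → F m ⬝ᵥ y = b m) ∧
      Ver F b y := by
  classical
  set K : Set (ι → ℝ) := {z | z ∈ Cu F b ∧ (∀ j, |x j| = 1 → z j = x j) ∧
    ∀ m, F m ⬝ᵥ x = b m → F m ⬝ᵥ z = b m} with hK
  have hKc : IsCompact K := by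
    have : K = Cu F b ∩ ((⋂ j, ⋂ _ : |x j| = 1, {z : ι → ℝ | z j = x j}) ∩
        ⋂ m, ⋂ _ : F m ⬝ᵥ x = b m, {z : ι → ℝ | F m ⬝ᵥ z = b m}) := by
      ext z; simp [hK]; tauto
    rw [this]
    refine (compact_Cu F b).inter_right
      ((isClosed_iInter fun j => isClosed_iInter fun _ => ?_).inter
        (isClosed_iInter fun m => isClosed_iInter fun _ => ?_))
    · exact isClosed_eq (by fun_prop) continuous_const
    · exact isClosed_eq (cont_dot _) continuous_const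
  obtain ⟨y, hy⟩ := hKc.extremePoints_nonempty ⟨x, hx, fun _ _ => rfl, fun _ h => h⟩
  have hyK : y ∈ K := hy.1
  refine ⟨y, hyK.1, hyK.2.1, hyK.2.2, fun w hw1 hw2 => ?_⟩
  have hc1 : ∀ j, ∃ ε : ℝ, 0 < ε ∧ ∀ δ, 0 < δ → δ ≤ ε →
      |y j + δ * w j| ≤ 1 ∧ |y j - δ * w j| ≤ 1 := by
    intro j
    by_cases h : |y j| = 1
    · refine ⟨1, one_pos, fun δ _ _ => ?_⟩
      rw [hw1 j h, mul_zero, add_zero, sub_zero]
      exact ⟨h.le, h.le⟩
    · obtain ⟨ε, hε, k1⟩ := small_abs (y j) (w j) (hyK.1.1 j) (fun h' => absurd h' h)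
      obtain ⟨ε', hε', k2⟩ := small_abs (y j) (-w j) (hyK.1.1 j) (fun h' => absurd h' h)
      refine ⟨min ε ε', lt_min hε hε', fun δ hδ hδ2 =>
        ⟨(k1 δ hδ (hδ2.trans (min_le_left _ _))).le, ?_⟩⟩
      have := k2 δ hδ (hδ2.trans (min_le_right _ _))
      rw [mul_neg, ← sub_eq_add_neg] at this
      exact this.le
  have hc2 : ∀ m, ∃ ε : ℝ, 0 < ε ∧ ∀ δ, 0 < δ → δ ≤ ε →
      F m ⬝ᵥ y + δ * (F m ⬝ᵥ w) ≤ b m ∧ F m ⬝ᵥ y - δ * (F m ⬝ᵥ w) ≤ b m := by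
    intro m
    by_cases h : F m ⬝ᵥ y = b m
    · refine ⟨1, one_pos, fun δ _ _ => ?_⟩
      rw [hw2 m h, mul_zero, add_zero, sub_zero]
      exact ⟨h.le, h.le⟩
    · have hlt := lt_of_le_of_ne (hyK.1.2 m) h
      obtain ⟨ε, hε, k1⟩ := small_lt _ _ (F m ⬝ᵥ w) (Or.inl hlt)
      obtain ⟨ε', hε', k2⟩ := small_lt _ _ (-(F m ⬝ᵥ w)) (Or.inl hlt)
      refine ⟨min ε ε', lt_min hε hε', fun δ hδ hδ2 =>
        ⟨(k1 δ hδ (hδ2.trans (min_le_left _ _))).le, ?_⟩⟩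
      have := k2 δ hδ (hδ2.trans (min_le_right _ _))
      rw [mul_neg, ← sub_eq_add_neg] at this
      exact this.le
  obtain ⟨ε₁, hε₁, k1⟩ := exists_small (fun j δ => |y j + δ * w j| ≤ 1 ∧ |y j - δ * w j| ≤ 1) hc1
  obtain ⟨ε₂, hε₂, k2⟩ := exists_small (fun m δ => F m ⬝ᵥ y + δ * (F m ⬝ᵥ w) ≤ b m ∧
    F m ⬝ᵥ y - δ * (F m ⬝ᵥ w) ≤ b m) hc2
  set ε := min ε₁ ε₂ with hε
  have hε0 : 0 < ε := lt_min hε₁ hε₂
  have k1' := k1 ε hε0 (min_le_left _ _)
  have k2' := k2 ε hε0 (min_le_right _ _)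
  have hp : y + ε • w ∈ K := by
    refine ⟨⟨fun j => ?_, fun m => ?_⟩, fun j hj => ?_, fun m hm => ?_⟩
    · simpa using (k1' j).1
    · rw [dotProduct_add, dotProduct_smul, smul_eq_mul]; exact (k2' m).1
    · have := hyK.2.1 j hj
      simp only [Pi.add_apply, Pi.smul_apply, smul_eq_mul]
      rw [hw1 j (by rw [this]; exact hj), this]; ring
    · have := hyK.2.2 m hm
      rw [dotProduct_add, dotProduct_smul, smul_eq_mul, hw2 m this, this]; ring
  have hm : y - ε • w ∈ K := by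
    refine ⟨⟨fun j => ?_, fun m => ?_⟩, fun j hj => ?_, fun m hm => ?_⟩
    · simpa using (k1' j).2
    · rw [dotProduct_sub, dotProduct_smul, smul_eq_mul]; exact (k2' m).2
    · have := hyK.2.1 j hj
      simp only [Pi.sub_apply, Pi.smul_apply, smul_eq_mul]
      rw [hw1 j (by rw [this]; exact hj), this]; ring
    · have := hyK.2.2 m hm
      rw [dotProduct_sub, dotProduct_smul, smul_eq_mul, hw2 m this, this]; ring
  have h3 := hy.2 hp hm ⟨1 / 2, 1 / 2, by norm_num, by norm_num, by norm_num, by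
    rw [smul_add, smul_sub]
    have : (1 / 2 : ℝ) • y + (1 / 2 : ℝ) • y = y := by rw [← add_smul]; norm_num
    calc (1 / 2 : ℝ) • y + (1 / 2 : ℝ) • ε • w + ((1 / 2 : ℝ) • y - (1 / 2 : ℝ) • ε • w)
        = (1 / 2 : ℝ) • y + (1 / 2 : ℝ) • y := by abel
      _ = y := this⟩
  have h4 : ε • w = 0 := by
    have h5 : y + ε • w = y := h3
    simpa using h5
  exact (smul_eq_zero.1 h4).resolve_left hε0.ne'

/-- Directions which illuminate the vertices. -/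
theorem cov_of_vertices [Finite M] [DecidableEq ι] {F : M → ι → ℝ} {b : M → ℝ}
    (S : Finset (ι → Bool))
    (V : (ι → Bool) → ι → ℝ) (h : ∀ y ∈ Cu F b, Ver F b y → ∃ τ ∈ S,
      (∀ j, |y j| = 1 → y j * V τ j < 0) ∧ ∀ m, F m ⬝ᵥ y = b m → F m ⬝ᵥ V τ < 0) :
    Cov S.card (Cu F b) := by
  have := cov_of_ill (convex_Cu F b) (compact_Cu F b) (fun τ : S => V τ) (fun x hx => by
    obtain ⟨y, hy, hxy1, hxy2, hver⟩ := exists_vertex_Cu hx
    obtain ⟨τ, hτ, h1, h2⟩ := h y hy hver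
    refine ⟨⟨τ, hτ⟩, ill_Cu hx (fun j hj => ?_) (fun m hm => h2 m (hxy2 m hm))⟩
    have hyx := hxy1 j hj
    rw [← hyx] at hj ⊢
    exact h1 j hj)
  simpa using this

end Pool.Agent.TH349.Had
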