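import Mathlib
import Pool.Agent.TH349.Had.Poly

set_option autoImplicit false

/-!
The cube cut by a half space `h1 ≤ 1` and a slab `|h2| ≤ 1`, where `h2` has coefficients at
most one: one direction in each orthant.
-/

open Matrix Set

namespace Pool.Agent.TH349.Had

variable {ι : Type*} [Fintype ι]

/-- the vertex `τ` of the cube minimises a nonnegative combination of `g1` and `g2` -/
def LL (g1 g2 : ι → ℝ) (τ : ι → Bool) : Prop :=
  ∃ c1 c2 : ℝ, 0 ≤ c1 ∧ 0 ≤ c2 ∧ (c1 ≠ 0 ∨ c2 ≠ 0) ∧ ∀ j, sg (τ j) * (c1 * g1 j + c2 * g2 j) ≤ 0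

theorem sg_mul_le {b : Bool} {x : ℝ} (hx : |x| ≤ 1) : sg b * (x - sg b) ≤ 0 := by
  have h := abs_le.1 hx
  rcases sg_or b with h1 | h1 <;> rw [h1] <;> linarith

theorem min_aux (b : Bool) (x m : ℝ) (hx : |x| ≤ 1) (hm : sg b * m ≤ 0) : 0 ≤ m * (x - sg b) := by
  have h1 := sg_mul_le (b := b) hx
  have h2 : m * (x - sg b) = (sg b * m) * (sg b * (x - sg b)) := by
    have := sg_sq b
    linear_combination (-(m * (x - sg b))) * this
  rw [h2]
  exact mul_nonneg_of_nonpos_of_nonpos hm h1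

theorem dot_min (g : ι → ℝ) (τ : ι → Bool) (h : ∀ j, sg (τ j) * g j ≤ 0) (z : ι → ℝ)
    (hz : ∀ j, |z j| ≤ 1) : g ⬝ᵥ sv τ ≤ g ⬝ᵥ z := by
  have h1 : 0 ≤ g ⬝ᵥ (z - sv τ) := by
    rw [dotProduct]
    exact Finset.sum_nonneg fun j _ => min_aux (τ j) (z j) (g j) (hz j) (h j)
  rw [dotProduct_sub] at h1
  linarith

theorem comb_min {g1 g2 : ι → ℝ} {τ : ι → Bool} {c1 c2 : ℝ}
    (h : ∀ j, sg (τ j) * (c1 * g1 j + c2 * g2 j) ≤ 0) (z : ι → ℝ) (hz : ∀ j, |z j| ≤ 1) :
    c1 * (g1 ⬝ᵥ sv τ) + c2 * (g2 ⬝ᵥ sv τ) ≤ c1 * (g1 ⬝ᵥ z) + c2 * (g2 ⬝ᵥ z) := by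
  have h1 := dot_min (c1 • g1 + c2 • g2) τ (fun j => by simpa using h j) z hz
  simpa [add_dotProduct, smul_dotProduct] using h1

omit [Fintype ι] in
theorem sv_abs (τ : ι → Bool) (j : ι) : |sv τ j| ≤ 1 := by
  rcases sg_or (τ j) with h | h <;> simp [sv, h]

/-- Gordan's alternative for two functionals. -/
theorem gordan (g1 g2 : ι → ℝ) (τ : ι → Bool) (h : ¬ LL g1 g2 τ) :
    ∃ v : ι → ℝ, (∀ j, sg (τ j) * v j < 0) ∧ g1 ⬝ᵥ v < 0 ∧ g2 ⬝ᵥ v < 0 := by
  classical
  set Q : Set (ℝ × ℝ) := {p | 0 < p.1 ∧ 0 < p.2} with hQ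
  set P : (ι → ℝ) → ℝ × ℝ := fun l =>
    (∑ j, l j * (sg (τ j) * g1 j), ∑ j, l j * (sg (τ j) * g2 j)) with hP
  set C : Set (ℝ × ℝ) := P '' {l | ∀ j, 0 < l j} with hC
  by_cases hd : Disjoint Q C
  · exfalso
    have hQo : IsOpen Q :=
      (isOpen_lt continuous_const continuous_fst).inter (isOpen_lt continuous_const continuous_snd)
    have hQc : Convex ℝ Q := by
      intro x hx y hy a b ha hb hab
      have key : ∀ s t : ℝ, 0 < s → 0 < t → 0 < a * s + b * t := by
        intro s t hs ht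
        rcases ha.lt_or_eq with ha | ha
        · have := mul_pos ha hs
          have := mul_nonneg hb ht.le
          linarith
        · rw [← ha] at hab ⊢
          have : b = 1 := by linarith
          rw [this]; linarith
      exact ⟨key _ _ hx.1 hy.1, key _ _ hx.2 hy.2⟩
    have hCc : Convex ℝ C := by
      rintro _ ⟨l, hl, rfl⟩ _ ⟨l', hl', rfl⟩ a b ha hb hab
      refine ⟨a • l + b • l', fun j => ?_, ?_⟩
      · simp only [Pi.add_apply, Pi.smul_apply, smul_eq_mul]
        rcases ha.lt_or_eq with ha | ha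
        · have := mul_pos ha (hl j)
          have := mul_nonneg hb (hl' j).le
          linarith
        · rw [← ha] at hab ⊢
          have : b = 1 := by linarith
          rw [this]; linarith [hl' j]
      · simp only [hP, Pi.add_apply, Pi.smul_apply, smul_eq_mul, Prod.smul_mk, Prod.mk_add_mk,
          Prod.mk.injEq, Finset.mul_sum, ← Finset.sum_add_distrib]
        constructor <;> exact Finset.sum_congr rfl fun j _ => by ring
    obtain ⟨f, u, hf1, hf2⟩ := geometric_hahn_banach_open hQc hQo hCc hd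
    set α := f (1, 0) with hα
    set β := f (0, 1) with hβ
    have hf : ∀ p : ℝ × ℝ, f p = α * p.1 + β * p.2 := by
      intro p
      have : p = p.1 • ((1 : ℝ), (0 : ℝ)) + p.2 • ((0 : ℝ), (1 : ℝ)) := by
        ext <;> simp
      conv_lhs => rw [this]
      rw [map_add, map_smul, map_smul, smul_eq_mul, smul_eq_mul]
      ring
    have hQ1 : ∀ s t : ℝ, 0 < s → 0 < t → α * s + β * t < u := by
      intro s t hs ht
      have := hf1 (s, t) ⟨hs, ht⟩
      rwa [hf] at this
    have hα0 : α ≤ 0 := by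
      by_contra hc
      push Not at hc
      have := hQ1 ((|u| + |β| + 1) / α) 1 (by positivity) one_pos
      rw [mul_div_cancel₀ _ hc.ne', mul_one] at this
      linarith [le_abs_self u, neg_abs_le β]
    have hβ0 : β ≤ 0 := by
      by_contra hc
      push Not at hc
      have := hQ1 1 ((|u| + |α| + 1) / β) one_pos (by positivity)
      rw [mul_div_cancel₀ _ hc.ne', mul_one] at this
      linarith [le_abs_self u, neg_abs_le α]
    have hu0 : 0 ≤ u := by
      by_contra hc
      push Not at hc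
      have hpos : 0 < -u / (2 * (-(α + β) + 1)) := div_pos (by linarith) (by linarith)
      have := hQ1 _ _ hpos hpos
      have h0 : 2 * (-(α + β) + 1) ≠ 0 := by
        have : 0 < 2 * (-(α + β) + 1) := by linarith
        exact this.ne'
      have h1 : -u / (2 * (-(α + β) + 1)) * (2 * (-(α + β) + 1)) = -u := div_mul_cancel₀ _ h0
      nlinarith
    have hm : ∀ j, 0 ≤ sg (τ j) * (α * g1 j + β * g2 j) := by
      intro j
      by_contra hc
      push Not at hc
      set m : ι → ℝ := fun i => sg (τ i) * (α * g1 i + β * g2 i) with hmd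
      have hval : ∀ l : ι → ℝ, (∀ i, 0 < l i) → 0 ≤ ∑ i, l i * m i := by
        intro l hl
        have h1 := hf2 (P l) ⟨l, hl, rfl⟩
        rw [hf] at h1
        have h2 : α * (P l).1 + β * (P l).2 = ∑ i, l i * m i := by
          simp only [hP, hmd, Finset.mul_sum, ← Finset.sum_add_distrib]
          exact Finset.sum_congr rfl fun i _ => by ring
        rw [h2] at h1
        linarith
      set R := ∑ i, |m i| with hR
      have hR0 : 0 ≤ R := Finset.sum_nonneg fun i _ => abs_nonneg _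
      have hcm : m j < 0 := hc
      have h3 := hval (fun i => if i = j then (R + 1) / (-m j) else 1) (fun i => by
        by_cases hi : i = j
        · simp only [hi, if_true]
          exact div_pos (by linarith) (by linarith)
        · simp only [hi, if_false]; exact one_pos)
      rw [← Finset.add_sum_erase Finset.univ _ (Finset.mem_univ j)] at h3
      simp only [if_true] at h3
      have h4 : (R + 1) / (-m j) * m j = -(R + 1) := by
        have : m j ≠ 0 := hcm.ne
        field_simp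
      have h5 : ∑ x ∈ Finset.univ.erase j, (if x = j then (R + 1) / (-m j) else 1) * m x ≤ R := by
        calc ∑ x ∈ Finset.univ.erase j, (if x = j then (R + 1) / (-m j) else 1) * m x
            = ∑ x ∈ Finset.univ.erase j, m x := by
              refine Finset.sum_congr rfl fun x hx => ?_
              rw [if_neg (Finset.ne_of_mem_erase hx), one_mul]
          _ ≤ ∑ x ∈ Finset.univ.erase j, |m x| := Finset.sum_le_sum fun x _ => le_abs_self _
          _ ≤ R := Finset.sum_le_sum_of_subset_of_nonneg (Finset.erase_subset _ _)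
              (fun x _ _ => abs_nonneg _)
      rw [h4] at h3
      linarith
    apply h
    refine ⟨-α, -β, by linarith, by linarith, ?_, fun j => ?_⟩
    · by_contra hc
      push Not at hc
      have hα' : α = 0 := by linarith [hc.1]
      have hβ' : β = 0 := by linarith [hc.2]
      have h1 := hQ1 1 1 one_pos one_pos
      have h2 := hf2 (P fun _ => 1) ⟨fun _ => 1, fun _ => one_pos, rfl⟩
      rw [hf, hα', hβ'] at h2
      rw [hα', hβ'] at h1
      linarith
    · have := hm j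
      have e : sg (τ j) * (-α * g1 j + -β * g2 j) = -(sg (τ j) * (α * g1 j + β * g2 j)) := by ring
      rw [e]; linarith
  · rw [Set.not_disjoint_iff] at hd
    obtain ⟨_, ⟨h1, h2⟩, l, hl, rfl⟩ := hd
    have e : ∀ g : ι → ℝ, g ⬝ᵥ (fun j => -(sg (τ j) * l j)) = -∑ j, l j * (sg (τ j) * g j) := by
      intro g
      rw [dotProduct, ← Finset.sum_neg_distrib]
      exact Finset.sum_congr rfl fun j _ => by ring
    refine ⟨fun j => -(sg (τ j) * l j), fun j => ?_, ?_, ?_⟩
    · have := sg_sq (τ j)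
      have := hl j
      nlinarith
    · rw [e]; exact neg_lt_zero.2 h1
    · rw [e]; exact neg_lt_zero.2 h2

/-- One functional. -/
theorem single (g z : ι → ℝ) (τ : ι → Bool) (hz : ∀ j, |z j| ≤ 1) (h : g ⬝ᵥ z < g ⬝ᵥ sv τ) :
    ∃ v : ι → ℝ, (∀ j, sg (τ j) * v j < 0) ∧ g ⬝ᵥ v < 0 := by
  obtain ⟨v, h1, h2, -⟩ := gordan g g τ (by
    rintro ⟨c1, c2, hc1, hc2, hc, h3⟩
    have h4 := comb_min h3 z hz
    have h5 : 0 < c1 + c2 := by
      rcases hc with hc | hc
      · have := lt_of_le_of_ne hc1 (Ne.symm hc); linarith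
      · have := lt_of_le_of_ne hc2 (Ne.symm hc); linarith
    nlinarith)
  exact ⟨v, h1, h2⟩

omit [Fintype ι] in
theorem neg_sv (τ : ι → Bool) (j : ι) : sg (τ j) * (-(sv τ)) j < 0 := by
  have := sg_sq (τ j)
  simp only [sv, Pi.neg_apply]
  linarith

/-- flip one sign -/
def flip [DecidableEq ι] (j : ι) (τ : ι → Bool) : ι → Bool := Function.update τ j (!τ j)

omit [Fintype ι] in
theorem flip_self [DecidableEq ι] (j : ι) (τ : ι → Bool) : flip j τ j = !τ j := by simp [flip]

omit [Fintype ι] in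
theorem flip_ne [DecidableEq ι] {i j : ι} (h : i ≠ j) (τ : ι → Bool) : flip j τ i = τ i := by
  simp [flip, Function.update_of_ne h]

omit [Fintype ι] in
theorem flip_flip [DecidableEq ι] (j : ι) (τ : ι → Bool) : flip j (flip j τ) = τ := by
  ext i
  by_cases h : i = j
  · subst h; simp [flip]
  · rw [flip_ne h, flip_ne h]

omit [Fintype ι] in
/-- If two adjacent vertices of the cube minimise nonnegative combinations then some nonnegative
combination is minimised by the edge between them. -/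
theorem edge_of_two [DecidableEq ι] {g1 g2 : ι → ℝ} {a : ι → Bool} {j : ι} (h1 : LL g1 g2 a)
    (h2 : LL g1 g2 (flip j a)) :
    ∃ c1 c2 : ℝ, 0 ≤ c1 ∧ 0 ≤ c2 ∧ (c1 ≠ 0 ∨ c2 ≠ 0) ∧ c1 * g1 j + c2 * g2 j = 0 ∧
      ∀ i, sg (a i) * (c1 * g1 i + c2 * g2 i) ≤ 0 := by
  obtain ⟨c1, c2, hc1, hc2, hc, h3⟩ := h1
  obtain ⟨e1, e2, he1, he2, he, h4⟩ := h2
  have h3j := h3 j
  have h4j := h4 j
  rw [flip_self, sg_not] at h4j
  set x := -(sg (a j) * (c1 * g1 j + c2 * g2 j)) with hx
  set y := sg (a j) * (e1 * g1 j + e2 * g2 j) with hy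
  have hx0 : 0 ≤ x := by linarith
  have hy0 : 0 ≤ y := by linarith
  have hne : sg (a j) ≠ 0 := by rcases sg_or (a j) with h | h <;> rw [h] <;> norm_num
  rcases hx0.lt_or_eq with hxp | hxz
  · refine ⟨y * c1 + x * e1, y * c2 + x * e2, by positivity, by positivity, ?_, ?_, fun i => ?_⟩
    · rcases he with h | h
      · left
        have : 0 < e1 := lt_of_le_of_ne he1 (Ne.symm h)
        have := mul_pos hxp this
        have := mul_nonneg hy0 hc1
        linarith
      · right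
        have : 0 < e2 := lt_of_le_of_ne he2 (Ne.symm h)
        have := mul_pos hxp this
        have := mul_nonneg hy0 hc2
        linarith
    · have : sg (a j) * ((y * c1 + x * e1) * g1 j + (y * c2 + x * e2) * g2 j) = 0 := by
        rw [hx, hy]; ring
      exact (mul_eq_zero.1 this).resolve_left hne
    · by_cases hij : i = j
      · subst hij
        have : sg (a i) * ((y * c1 + x * e1) * g1 i + (y * c2 + x * e2) * g2 i) = 0 := by
          rw [hx, hy]; ring
        exact this.le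
      · have h5 := h3 i
        have h6 := h4 i
        rw [flip_ne hij] at h6
        have h7 := mul_nonpos_of_nonneg_of_nonpos hy0 h5
        have h8 := mul_nonpos_of_nonneg_of_nonpos hx0 h6
        have : sg (a i) * ((y * c1 + x * e1) * g1 i + (y * c2 + x * e2) * g2 i) =
            y * (sg (a i) * (c1 * g1 i + c2 * g2 i)) + x * (sg (a i) * (e1 * g1 i + e2 * g2 i)) := by
          ring
        rw [this]; linarith
  · refine ⟨c1, c2, hc1, hc2, hc, ?_, h3⟩
    have : sg (a j) * (c1 * g1 j + c2 * g2 j) = 0 := by linarith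
    exact (mul_eq_zero.1 this).resolve_left hne

/-- A vertex `a` above the point `y`, with `h1 = h2 = 1` in `y`: the vertex `a` or a neighbour does
not minimise a nonnegative combination. -/
theorem top_or_neighbour [DecidableEq ι] {g1 g2 y y0 : ι → ℝ} {b1 b2 : ℝ} {a : ι → Bool}
    {J : Finset ι} (hJ : ∀ i ∉ J, sg (a i) = y i) (hJlt : ∀ i ∈ J, |y i| < 1)
    (hy1 : g1 ⬝ᵥ y + b1 = 1) (hy2 : g2 ⬝ᵥ y + b2 = 1)
    (hy01 : g1 ⬝ᵥ y0 + b1 < 1) (hy02 : g2 ⬝ᵥ y0 + b2 < 1) (hy0 : ∀ i, |y0 i| ≤ 1)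
    (hg2 : ∀ i, |g2 i| ≤ 1) (hup : ∀ i ∈ J, 0 ≤ g2 i * (sg (a i) - y i)) (hcard : J.card ≤ 2)
    (hdet : ∀ j k, j ≠ k → J = {j, k} → g1 j * g2 k - g1 k * g2 j ≠ 0) :
    ¬ LL g1 g2 a ∨ ∃ j ∈ J, ¬ LL g1 g2 (flip j a) ∧ -1 < g2 ⬝ᵥ sv (flip j a) + b2 := by
  by_cases ha : LL g1 g2 a
  swap
  · exact Or.inl ha
  right
  -- the values at `y0` are smaller than at `y`
  have hint : ∀ c1 c2 : ℝ, 0 ≤ c1 → 0 ≤ c2 → (c1 ≠ 0 ∨ c2 ≠ 0) →
      c1 * (g1 ⬝ᵥ y0) + c2 * (g2 ⬝ᵥ y0) < c1 * (g1 ⬝ᵥ y) + c2 * (g2 ⬝ᵥ y) := by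
    intro c1 c2 h1 h2 h3
    have k1 : g1 ⬝ᵥ y0 < g1 ⬝ᵥ y := by linarith
    have k2 : g2 ⬝ᵥ y0 < g2 ⬝ᵥ y := by linarith
    rcases h3 with h | h
    · have := mul_lt_mul_of_pos_left k1 (lt_of_le_of_ne h1 (Ne.symm h))
      have := mul_le_mul_of_nonneg_left k2.le h2
      linarith
    · have := mul_lt_mul_of_pos_left k2 (lt_of_le_of_ne h2 (Ne.symm h))
      have := mul_le_mul_of_nonneg_left k1.le h1
      linarith
  -- change of a combination
  have hch : ∀ c1 c2 : ℝ, c1 * (g1 ⬝ᵥ y) + c2 * (g2 ⬝ᵥ y) =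
      c1 * (g1 ⬝ᵥ sv a) + c2 * (g2 ⬝ᵥ sv a) + ∑ i ∈ J, (c1 * g1 i + c2 * g2 i) * (y i - sg (a i)) := by
    intro c1 c2
    rw [dot_sub_of_supp g1 y (sv a) J (fun i hi => (hJ i hi).symm),
      dot_sub_of_supp g2 y (sv a) J (fun i hi => (hJ i hi).symm), mul_add, mul_add,
      Finset.mul_sum, Finset.mul_sum]
    have : ∑ i ∈ J, (c1 * g1 i + c2 * g2 i) * (y i - sg (a i)) =
        ∑ i ∈ J, c1 * (g1 i * (y i - sv a i)) + ∑ i ∈ J, c2 * (g2 i * (y i - sv a i)) := by
      rw [← Finset.sum_add_distrib]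
      exact Finset.sum_congr rfl fun i _ => by simp only [sv]; ring
    rw [this]; ring
  -- lower bound of the heights of the neighbours
  have hheight : ∀ j ∈ J, -1 < g2 ⬝ᵥ sv (flip j a) + b2 := by
    intro j hj
    have h1 : g2 ⬝ᵥ sv (flip j a) = g2 ⬝ᵥ y + ∑ i ∈ J, g2 i * (sv (flip j a) i - y i) :=
      dot_sub_of_supp g2 (sv (flip j a)) y J (fun i hi => by
        have hij : i ≠ j := fun h => hi (h ▸ hj)
        simp only [sv]
        rw [flip_ne hij]; exact hJ i hi)
    have h2 : ∑ i ∈ J, g2 i * (sv (flip j a) i - y i) =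
        g2 j * (-sg (a j) - y j) + ∑ i ∈ J.erase j, g2 i * (sg (a i) - y i) := by
      rw [← Finset.add_sum_erase J _ hj]
      congr 1
      · simp only [sv]; rw [flip_self, sg_not]
      · refine Finset.sum_congr rfl fun i hi => ?_
        simp only [sv]
        rw [flip_ne (Finset.ne_of_mem_erase hi)]
    have h3 : 0 ≤ ∑ i ∈ J.erase j, g2 i * (sg (a i) - y i) :=
      Finset.sum_nonneg fun i hi => hup i (Finset.mem_of_mem_erase hi)
    have h4 := abs_lt.1 (hJlt j hj)
    have h5 := abs_le.1 (hg2 j)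
    have h6 : -2 < g2 j * (-sg (a j) - y j) := by
      rcases sg_or (a j) with h | h <;> rw [h] <;> nlinarith
    rw [h1, h2]
    linarith
  have hJ3 : J.card = 0 ∨ J.card = 1 ∨ J.card = 2 := by omega
  rcases hJ3 with h0 | h1 | h2
  · exfalso
    have hJe : J = ∅ := Finset.card_eq_zero.1 h0
    obtain ⟨c1, c2, hc1, hc2, hc, h3⟩ := ha
    have k1 := comb_min h3 y0 hy0
    have k2 := hint c1 c2 hc1 hc2 hc
    have k3 := hch c1 c2
    rw [hJe, Finset.sum_empty] at k3
    linarith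
  · obtain ⟨j, hj⟩ := Finset.card_eq_one.1 h1
    have hjJ : j ∈ J := by rw [hj]; simp
    refine ⟨j, hjJ, fun hb => ?_, hheight j hjJ⟩
    obtain ⟨c1, c2, hc1, hc2, hc, hz, h3⟩ := edge_of_two ha hb
    have k1 := comb_min h3 y0 hy0
    have k2 := hint c1 c2 hc1 hc2 hc
    have k3 := hch c1 c2
    rw [hj, Finset.sum_singleton, hz, zero_mul] at k3
    linarith
  · obtain ⟨j, k, hjk, hjkJ⟩ := Finset.card_eq_two.1 h2
    have hjJ : j ∈ J := by rw [hjkJ]; simp
    have hkJ : k ∈ J := by rw [hjkJ]; simp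
    by_cases hb : LL g1 g2 (flip j a)
    swap
    · exact ⟨j, hjJ, hb, hheight j hjJ⟩
    by_cases hb' : LL g1 g2 (flip k a)
    swap
    · exact ⟨k, hkJ, hb', hheight k hkJ⟩
    exfalso
    obtain ⟨c1, c2, hc1, hc2, hc, hz, h3⟩ := edge_of_two ha hb
    obtain ⟨e1, e2, he1, he2, he, hz', h4⟩ := edge_of_two ha hb'
    have k1 := comb_min h3 y0 hy0
    have k2 := hint c1 c2 hc1 hc2 hc
    have k3 := hch c1 c2
    rw [hjkJ, Finset.sum_pair hjk, hz, zero_mul, zero_add] at k3
    have l1 := comb_min h4 y0 hy0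
    have l2 := hint e1 e2 he1 he2 he
    have l3 := hch e1 e2
    rw [hjkJ, Finset.sum_pair hjk, hz', zero_mul, add_zero] at l3
    set P := c1 * g1 k + c2 * g2 k with hP
    set Q := e1 * g1 j + e2 * g2 j with hQ
    have hPp : 0 < P * (y k - sg (a k)) := by linarith
    have hQp : 0 < Q * (y j - sg (a j)) := by linarith
    have hu1 : g2 j * (y j - sg (a j)) ≤ 0 := by
      have := hup j hjJ
      linarith
    have hu2 : g2 k * (y k - sg (a k)) ≤ 0 := by
      have := hup k hkJ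
      linarith
    have hP0 : P ≠ 0 := by intro h; rw [h, zero_mul] at hPp; exact lt_irrefl _ hPp
    have hQ0 : Q ≠ 0 := by intro h; rw [h, zero_mul] at hQp; exact lt_irrefl _ hQp
    have hl : g2 k / P ≤ 0 := by
      by_contra hcon
      push Not at hcon
      have h5 := mul_pos hcon hPp
      have h6 : g2 k / P * (P * (y k - sg (a k))) = g2 k * (y k - sg (a k)) := by field_simp
      linarith
    have hm : g2 j / Q ≤ 0 := by
      by_contra hcon
      push Not at hcon
      have h5 := mul_pos hcon hQp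
      have h6 : g2 j / Q * (Q * (y j - sg (a j))) = g2 j * (y j - sg (a j)) := by field_simp
      linarith
    -- the vector `u = (0,1) - (g2 k / P) c - (g2 j / Q) e` is zero
    set u1 := -(g2 k / P) * c1 - (g2 j / Q) * e1 with hu1d
    set u2 := 1 - (g2 k / P) * c2 - (g2 j / Q) * e2 with hu2d
    have m1 : u1 * g1 j + u2 * g2 j = 0 := by
      have e1' : u1 * g1 j + u2 * g2 j = g2 j - (g2 k / P) * (c1 * g1 j + c2 * g2 j) -
          (g2 j / Q) * (e1 * g1 j + e2 * g2 j) := by rw [hu1d, hu2d]; ring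
      rw [e1', hz, ← hQ, div_mul_cancel₀ _ hQ0]; ring
    have m2 : u1 * g1 k + u2 * g2 k = 0 := by
      have e1' : u1 * g1 k + u2 * g2 k = g2 k - (g2 k / P) * (c1 * g1 k + c2 * g2 k) -
          (g2 j / Q) * (e1 * g1 k + e2 * g2 k) := by rw [hu1d, hu2d]; ring
      rw [e1', hz', ← hP, div_mul_cancel₀ _ hP0]; ring
    have m3 : u2 * (g1 j * g2 k - g1 k * g2 j) = 0 := by linear_combination g1 j * m2 - g1 k * m1
    have m4 : u2 = 0 := (mul_eq_zero.1 m3).resolve_right (hdet j k hjk hjkJ)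
    have m5 : 0 ≤ -(g2 k / P) * c2 := mul_nonneg (by linarith) hc2
    have m6 : 0 ≤ -(g2 j / Q) * e2 := mul_nonneg (by linarith) he2
    rw [hu2d] at m4
    linarith

end Pool.Agent.TH349.Had
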