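import Mathlib
import Pool.Agent.TH349.Had.Asym

set_option autoImplicit false

/-!
The cube cut by a half space `h1 ≤ 1` and a slab `|h2| ≤ 1`, continued: the directions.
-/

open Matrix Set
open Pool.Agent.W396.Il (Ill Cov cov_of_ill)

namespace Pool.Agent.TH349.Had

variable {ι : Type*} [Fintype ι] [DecidableEq ι]

/-- Two neighbours of `τ`, one low and minimal on the upper side, one high and minimal on the lower
side. -/
theorem no_both {g1 g2 : ι → ℝ} {b2 : ℝ} {τ : ι → Bool} {j k : ι}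
    (hτ : ¬ LL g1 g2 τ) (ha : LL g1 g2 (flip j τ)) (ha2 : 1 ≤ g2 ⬝ᵥ sv (flip j τ) + b2)
    (hb : LL g1 (-g2) (flip k τ)) (hb2 : g2 ⬝ᵥ sv (flip k τ) + b2 ≤ -1) : False := by
  obtain ⟨c1, c2, hc1, hc2, hc, h3⟩ := ha
  obtain ⟨e1, e2, he1, he2, he, h4⟩ := hb
  have k1 := comb_min h3 (sv (flip k τ)) (sv_abs _)
  have k2 := comb_min h4 (sv (flip j τ)) (sv_abs _)
  rw [neg_dotProduct, neg_dotProduct] at k2
  set A1 := g1 ⬝ᵥ sv (flip j τ)
  set A2 := g2 ⬝ᵥ sv (flip j τ)
  set B1 := g1 ⬝ᵥ sv (flip k τ)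
  set B2 := g2 ⬝ᵥ sv (flip k τ)
  have hH : 0 < A2 - B2 := by linarith
  -- c1 (B1 - A1) ≥ c2 (A2 - B2), e1 (A1 - B1) ≥ e2 (A2 - B2)
  have m1 : c2 * (A2 - B2) ≤ c1 * (B1 - A1) := by linarith
  have m2 : e2 * (A2 - B2) ≤ e1 * (A1 - B1) := by linarith
  have hD : B1 = A1 := by
    rcases lt_trichotomy A1 B1 with h | h | h
    · exfalso
      have n1 : e1 * (A1 - B1) ≤ 0 := mul_nonpos_of_nonneg_of_nonpos he1 (by linarith)
      have n2 : 0 ≤ e2 * (A2 - B2) := mul_nonneg he2 hH.le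
      have n3 : e2 = 0 := by
        have : e2 * (A2 - B2) = 0 := le_antisymm (m2.trans n1) n2
        exact (mul_eq_zero.1 this).resolve_right hH.ne'
      have n4 : e1 = 0 := by
        have : e1 * (A1 - B1) = 0 := le_antisymm n1 (n2.trans m2)
        exact (mul_eq_zero.1 this).resolve_right (by linarith [h] : A1 - B1 ≠ 0)
      rcases he with h | h
      · exact h n4
      · exact h n3
    · exact h.symm
    · exfalso
      have n1 : c1 * (B1 - A1) ≤ 0 := mul_nonpos_of_nonneg_of_nonpos hc1 (by linarith)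
      have n2 : 0 ≤ c2 * (A2 - B2) := mul_nonneg hc2 hH.le
      have n3 : c2 = 0 := by
        have : c2 * (A2 - B2) = 0 := le_antisymm (m1.trans n1) n2
        exact (mul_eq_zero.1 this).resolve_right hH.ne'
      have n4 : c1 = 0 := by
        have : c1 * (B1 - A1) = 0 := le_antisymm n1 (n2.trans m1)
        exact (mul_eq_zero.1 this).resolve_right (by linarith [h] : B1 - A1 ≠ 0)
      rcases hc with h | h
      · exact h n4
      · exact h n3
  rw [hD, sub_self, mul_zero] at m1 m2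
  have hc20 : c2 = 0 := by
    by_contra h
    have : 0 < c2 := lt_of_le_of_ne hc2 (Ne.symm h)
    have := mul_pos this hH
    linarith
  have he20 : e2 = 0 := by
    by_contra h
    have : 0 < e2 := lt_of_le_of_ne he2 (Ne.symm h)
    have := mul_pos this hH
    linarith
  have hc1p : 0 < c1 := lt_of_le_of_ne hc1 (Ne.symm (by
    rcases hc with h | h
    · exact h
    · exact absurd hc20 h))
  have he1p : 0 < e1 := lt_of_le_of_ne he1 (Ne.symm (by
    rcases he with h | h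
    · exact h
    · exact absurd he20 h))
  have p1 : ∀ i, sg (flip j τ i) * g1 i ≤ 0 := by
    intro i
    have := h3 i
    rw [hc20, zero_mul, add_zero] at this
    by_contra hcon
    push Not at hcon
    have := mul_pos hc1p hcon
    nlinarith
  have p2 : ∀ i, sg (flip k τ i) * g1 i ≤ 0 := by
    intro i
    have := h4 i
    rw [he20, zero_mul, add_zero] at this
    by_contra hcon
    push Not at hcon
    have := mul_pos he1p hcon
    nlinarith
  by_cases hjk : j = k
  · have : A2 = B2 := by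
      show g2 ⬝ᵥ sv (flip j τ) = g2 ⬝ᵥ sv (flip k τ)
      rw [hjk]
    linarith
  · apply hτ
    refine ⟨1, 0, zero_le_one, le_rfl, Or.inl one_ne_zero, fun i => ?_⟩
    rw [one_mul, zero_mul, add_zero]
    by_cases hi : i = j
    · have := p2 i
      rwa [flip_ne (by rw [hi]; exact hjk)] at this
    · have := p1 i
      rwa [flip_ne hi] at this

/-- the vertices of the cube whose direction should point up, not because they are low -/
def TT (g1 g2 : ι → ℝ) (b2 : ℝ) (τ : ι → Bool) : Prop :=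
  ¬ LL g1 (-g2) τ ∧ g2 ⬝ᵥ sv τ + b2 < 1 ∧
    ∃ k, LL g1 (-g2) (flip k τ) ∧ g2 ⬝ᵥ sv (flip k τ) + b2 ≤ -1

/-- the vertices of the cube whose direction should point up -/
def NN (g1 g2 : ι → ℝ) (b2 : ℝ) (τ : ι → Bool) : Prop :=
  g2 ⬝ᵥ sv τ + b2 ≤ -1 ∨ TT g1 g2 b2 τ

/-- The directions. -/
theorem exists_dirII {g1 g2 y0 : ι → ℝ} {b1 b2 : ℝ} (hy0 : ∀ i, |y0 i| ≤ 1)
    (hy01 : g1 ⬝ᵥ y0 + b1 < 1) (hy02 : |g2 ⬝ᵥ y0 + b2| < 1) (τ : ι → Bool) :
    ∃ v : ι → ℝ, (∀ j, sg (τ j) * v j < 0) ∧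
      (NN g1 g2 b2 τ → ¬ LL g1 (-g2) τ → g1 ⬝ᵥ v < 0 ∧ 0 < g2 ⬝ᵥ v) ∧
      (NN g1 g2 b2 τ → LL g1 (-g2) τ → 0 < g2 ⬝ᵥ v) ∧
      (¬ NN g1 g2 b2 τ → ¬ LL g1 g2 τ → g1 ⬝ᵥ v < 0 ∧ g2 ⬝ᵥ v < 0) ∧
      (¬ NN g1 g2 b2 τ → LL g1 g2 τ → 1 ≤ g2 ⬝ᵥ sv τ + b2 → g2 ⬝ᵥ v < 0) ∧
      (¬ NN g1 g2 b2 τ → LL g1 g2 τ → g2 ⬝ᵥ sv τ + b2 < 1 → 1 ≤ g1 ⬝ᵥ sv τ + b1 → g1 ⬝ᵥ v < 0) := by
  have h02 := abs_lt.1 hy02
  by_cases hN : NN g1 g2 b2 τ
  · by_cases hU : LL g1 (-g2) τ
    · have hlow : g2 ⬝ᵥ sv τ + b2 ≤ -1 := by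
        rcases hN with h | h
        · exact h
        · exact absurd hU h.1
      obtain ⟨v, h1, h2⟩ := single (-g2) y0 τ hy0 (by
        rw [neg_dotProduct, neg_dotProduct]; linarith)
      rw [neg_dotProduct] at h2
      exact ⟨v, h1, fun _ h => absurd hU h, fun _ _ => by linarith, fun h => absurd hN h,
        fun h => absurd hN h, fun h => absurd hN h⟩
    · obtain ⟨v, h1, h2, h3⟩ := gordan g1 (-g2) τ hU
      rw [neg_dotProduct] at h3
      exact ⟨v, h1, fun _ _ => ⟨h2, by linarith⟩, fun _ h => absurd h hU, fun h => absurd hN h,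
        fun h => absurd hN h, fun h => absurd hN h⟩
  · by_cases hL : LL g1 g2 τ
    · by_cases hhigh : 1 ≤ g2 ⬝ᵥ sv τ + b2
      · obtain ⟨v, h1, h2⟩ := single g2 y0 τ hy0 (by linarith)
        exact ⟨v, h1, fun h => absurd h hN, fun h => absurd h hN, fun _ h => absurd hL h,
          fun _ _ _ => h2, fun _ _ h => absurd hhigh (by linarith)⟩
      · by_cases hr : 1 ≤ g1 ⬝ᵥ sv τ + b1
        · obtain ⟨v, h1, h2⟩ := single g1 y0 τ hy0 (by linarith)
          exact ⟨v, h1, fun h => absurd h hN, fun h => absurd h hN, fun _ h => absurd hL h,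
            fun _ _ h => absurd h hhigh, fun _ _ _ _ => h2⟩
        · exact ⟨-(sv τ), neg_sv τ, fun h => absurd h hN, fun h => absurd h hN,
            fun _ h => absurd hL h, fun _ _ h => absurd h hhigh, fun _ _ _ h => absurd h hr⟩
    · obtain ⟨v, h1, h2, h3⟩ := gordan g1 g2 τ hL
      exact ⟨v, h1, fun h => absurd h hN, fun h => absurd h hN, fun _ _ => ⟨h2, h3⟩,
        fun _ h => absurd h hL, fun _ h => absurd h hL⟩

/-- rounding in the direction of `s` -/
noncomputable def rnd (y s : ι → ℝ) : ι → Bool := fun j =>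
  if |y j| = 1 then decide (0 < y j) else decide (0 ≤ s j)

omit [Fintype ι] [DecidableEq ι] in
theorem rnd_tight {y s : ι → ℝ} {j : ι} (h : |y j| = 1) : sg (rnd y s j) = y j := by
  rw [rnd, if_pos h]
  rcases (abs_eq one_pos.le).1 h with h1 | h1 <;> rw [h1] <;> norm_num [sg]

omit [Fintype ι] [DecidableEq ι] in
theorem rnd_up {y s : ι → ℝ} (hy : ∀ j, |y j| ≤ 1) (j : ι) :
    0 ≤ s j * (sg (rnd y s j) - y j) := by
  by_cases h : |y j| = 1
  · rw [rnd_tight h, sub_self, mul_zero]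
  · have h1 := abs_le.1 (hy j)
    rw [rnd, if_neg h]
    by_cases hs : 0 ≤ s j
    · rw [decide_eq_true hs, sg_true]
      exact mul_nonneg hs (by linarith)
    · rw [decide_eq_false hs, sg_false]
      exact mul_nonneg_of_nonpos_of_nonpos (by linarith) (by linarith)

omit [DecidableEq ι] in
theorem rnd_dot {y s : ι → ℝ} (hy : ∀ j, |y j| ≤ 1) : s ⬝ᵥ y ≤ s ⬝ᵥ sv (rnd y s) := by
  have h : 0 ≤ s ⬝ᵥ (sv (rnd y s) - y) := by
    rw [dotProduct]
    exact Finset.sum_nonneg fun j _ => rnd_up hy j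
  rw [dotProduct_sub] at h
  linarith

/-- The directions illuminate the vertices. -/
theorem vertexII {g1 g2 y0 : ι → ℝ} {b1 b2 : ℝ} (hg2 : ∀ i, |g2 i| ≤ 1)
    (hy0 : ∀ i, |y0 i| ≤ 1) (hy01 : g1 ⬝ᵥ y0 + b1 < 1) (hy02 : |g2 ⬝ᵥ y0 + b2| < 1)
    (V : (ι → Bool) → ι → ℝ)
    (hV0 : ∀ τ j, sg (τ j) * V τ j < 0)
    (hVB : ∀ τ, NN g1 g2 b2 τ → ¬ LL g1 (-g2) τ → g1 ⬝ᵥ V τ < 0 ∧ 0 < g2 ⬝ᵥ V τ)
    (hVC : ∀ τ, NN g1 g2 b2 τ → LL g1 (-g2) τ → 0 < g2 ⬝ᵥ V τ)
    (hVD : ∀ τ, ¬ NN g1 g2 b2 τ → ¬ LL g1 g2 τ → g1 ⬝ᵥ V τ < 0 ∧ g2 ⬝ᵥ V τ < 0)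
    (hVE : ∀ τ, ¬ NN g1 g2 b2 τ → LL g1 g2 τ → 1 ≤ g2 ⬝ᵥ sv τ + b2 → g2 ⬝ᵥ V τ < 0)
    (hVF : ∀ τ, ¬ NN g1 g2 b2 τ → LL g1 g2 τ → g2 ⬝ᵥ sv τ + b2 < 1 →
      1 ≤ g1 ⬝ᵥ sv τ + b1 → g1 ⬝ᵥ V τ < 0)
    (y : ι → ℝ) (hy : ∀ i, |y i| ≤ 1)
    (hver : ∀ w : ι → ℝ, (∀ j, |y j| = 1 → w j = 0) → (g1 ⬝ᵥ y + b1 = 1 → g1 ⬝ᵥ w = 0) →
      (|g2 ⬝ᵥ y + b2| = 1 → g2 ⬝ᵥ w = 0) → w = 0) :
    ∃ τ, (∀ j, |y j| = 1 → y j * V τ j < 0) ∧ (g1 ⬝ᵥ y + b1 = 1 → g1 ⬝ᵥ V τ < 0) ∧
      (|g2 ⬝ᵥ y + b2| = 1 → (g2 ⬝ᵥ y + b2) * (g2 ⬝ᵥ V τ) < 0) := by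
  have h02 := abs_lt.1 hy02
  -- a vertex with both values at least one is not minimal
  have hnotLL : ∀ τ, LL g1 g2 τ → 1 ≤ g1 ⬝ᵥ sv τ + b1 → 1 ≤ g2 ⬝ᵥ sv τ + b2 → False := by
    rintro τ ⟨c1, c2, hc1, hc2, hc, h3⟩ h4 h5
    have k1 := comb_min h3 y0 hy0
    have k2 : g1 ⬝ᵥ y0 < g1 ⬝ᵥ sv τ := by linarith
    have k3 : g2 ⬝ᵥ y0 < g2 ⬝ᵥ sv τ := by linarith
    rcases hc with h | h
    · have := mul_lt_mul_of_pos_left k2 (lt_of_le_of_ne hc1 (Ne.symm h))
      have := mul_le_mul_of_nonneg_left k3.le hc2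
      linarith
    · have := mul_lt_mul_of_pos_left k3 (lt_of_le_of_ne hc2 (Ne.symm h))
      have := mul_le_mul_of_nonneg_left k2.le hc1
      linarith
  have hnotUL : ∀ τ, LL g1 (-g2) τ → 1 ≤ g1 ⬝ᵥ sv τ + b1 → g2 ⬝ᵥ sv τ + b2 ≤ -1 → False := by
    rintro τ ⟨c1, c2, hc1, hc2, hc, h3⟩ h4 h5
    have k1 := comb_min h3 y0 hy0
    rw [neg_dotProduct, neg_dotProduct] at k1
    have k2 : g1 ⬝ᵥ y0 < g1 ⬝ᵥ sv τ := by linarith
    have k3 : -(g2 ⬝ᵥ y0) < -(g2 ⬝ᵥ sv τ) := by linarith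
    rcases hc with h | h
    · have := mul_lt_mul_of_pos_left k2 (lt_of_le_of_ne hc1 (Ne.symm h))
      have := mul_le_mul_of_nonneg_left k3.le hc2
      linarith
    · have := mul_lt_mul_of_pos_left k3 (lt_of_le_of_ne hc2 (Ne.symm h))
      have := mul_le_mul_of_nonneg_left k2.le hc1
      linarith
  have hNhigh : ∀ τ, 1 ≤ g2 ⬝ᵥ sv τ + b2 → ¬ NN g1 g2 b2 τ := by
    rintro τ h (h1 | h1)
    · linarith
    · have := h1.2.1
      linarith
  -- sign conditions
  have sgn : ∀ τ : ι → Bool, (∀ j, |y j| = 1 → sg (τ j) = y j) →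
      ∀ j, |y j| = 1 → y j * V τ j < 0 := by
    intro τ h j hj
    rw [← h j hj]; exact hV0 τ j
  by_cases t1 : g1 ⬝ᵥ y + b1 = 1
  · by_cases t2 : |g2 ⬝ᵥ y + b2| = 1
    · -- both are tight
      set J : Finset ι := Finset.univ.filter (fun i => |y i| ≠ 1) with hJ
      have hJm : ∀ i, i ∈ J ↔ |y i| ≠ 1 := fun i => by simp [hJ]
      have hJc : ∀ i, i ∉ J → |y i| = 1 := fun i hi => by
        by_contra h; exact hi ((hJm i).2 h)
      have hJlt : ∀ i ∈ J, |y i| < 1 := fun i hi => lt_of_le_of_ne (hy i) ((hJm i).1 hi)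
      have hcard : J.card ≤ 2 := by
        refine card_free_le (fun l => if l = 0 then g1 else g2) J (fun w hw hw2 => hver w
          (fun i hi => hw i (fun h => (hJm i).1 h hi)) (fun _ => by simpa using hw2 0)
          (fun _ => by simpa using hw2 1))
      have hdet : ∀ j k, j ≠ k → J = {j, k} → g1 j * g2 k - g1 k * g2 j ≠ 0 := by
        intro j k hjk hjkJ hd
        let M : Matrix (Fin 2) (Fin 2) ℝ := fun l a =>
          if l = 0 then (if a = 0 then g1 j else g1 k) else (if a = 0 then g2 j else g2 k)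
        have hM : M.det = 0 := by
          rw [Matrix.det_fin_two]
          simpa [M] using hd
        obtain ⟨v, hv, hMv⟩ := Matrix.exists_mulVec_eq_zero_iff.2 hM
        set w : ι → ℝ := Function.update (Function.update 0 j (v 0)) k (v 1) with hw
        have hwj : w j = v 0 := by rw [hw, Function.update_of_ne hjk, Function.update_self]
        have hwk : w k = v 1 := by rw [hw, Function.update_self]
        have hjJ : j ∈ J := by rw [hjkJ]; simp
        have hkJ : k ∈ J := by rw [hjkJ]; simp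
        have hw0 : ∀ i ∉ J, w i = 0 := by
          intro i hi
          have h1 : i ≠ j := fun h => hi (h ▸ hjJ)
          have h2 : i ≠ k := fun h => hi (h ▸ hkJ)
          rw [hw, Function.update_of_ne h2, Function.update_of_ne h1]; rfl
        have hval : ∀ g : ι → ℝ, g ⬝ᵥ w = g j * v 0 + g k * v 1 := by
          intro g
          have h3 := dot_sub_of_supp g w 0 J (fun i hi => by rw [hw0 i hi]; rfl)
          rw [h3, hjkJ, Finset.sum_pair hjk]
          simp only [dotProduct_zero, Pi.zero_apply, sub_zero, zero_add, hwj, hwk]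
        have hz : w = 0 := by
          refine hver w (fun i hi => hw0 i (fun h => (hJm i).1 h hi)) (fun _ => ?_) (fun _ => ?_)
          · have h5 := congrFun hMv 0
            rw [Matrix.mulVec, dotProduct, Fin.sum_univ_two] at h5
            rw [hval]; simpa [M] using h5
          · have h5 := congrFun hMv 1
            rw [Matrix.mulVec, dotProduct, Fin.sum_univ_two] at h5
            rw [hval]; simpa [M] using h5
        apply hv
        ext a
        fin_cases a
        · show v 0 = 0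
          rw [← hwj, hz]; rfl
        · show v 1 = 0
          rw [← hwk, hz]; rfl
      rcases (abs_eq one_pos.le).1 t2 with h2 | h2
      · -- upper corner
        have hup := rnd_dot (s := g2) hy
        set a := rnd y g2 with ha
        have hat : ∀ j, |y j| = 1 → sg (a j) = y j := fun j hj => rnd_tight hj
        have key : ∃ τ, (∀ j, |y j| = 1 → sg (τ j) = y j) ∧ ¬ LL g1 g2 τ ∧ ¬ NN g1 g2 b2 τ := by
          rcases top_or_neighbour (a := a) (J := J) (fun i hi => hat i (hJc i hi)) hJlt t1 h2 hy01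
            h02.2 hy0 hg2 (fun i _ => rnd_up hy i) hcard hdet with h | ⟨j, hj, h, h'⟩
          · exact ⟨a, hat, h, hNhigh a (by linarith)⟩
          · by_cases hLa : LL g1 g2 a
            · refine ⟨flip j a, fun i hi => ?_, h, ?_⟩
              · have hij : i ≠ j := by
                  rintro rfl
                  exact (hJm i).1 hj hi
                rw [flip_ne hij]; exact hat i hi
              · rintro (h3 | ⟨h3, h4, k, h5, h6⟩)
                · linarith
                · refine no_both (b2 := b2) (τ := flip j a) (j := j) (k := k) h ?_ ?_ h5 h6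
                  · rw [flip_flip]; exact hLa
                  · rw [flip_flip]; linarith
            · exact ⟨a, hat, hLa, hNhigh a (by linarith)⟩
        obtain ⟨τ, hτ1, hτ2, hτ3⟩ := key
        obtain ⟨k1, k2⟩ := hVD τ hτ3 hτ2
        exact ⟨τ, sgn τ hτ1, fun _ => k1, fun _ => by rw [h2]; linarith⟩
      · -- lower corner
        have hup := rnd_dot (s := -g2) hy
        rw [neg_dotProduct, neg_dotProduct] at hup
        set a := rnd y (-g2) with ha
        have hat : ∀ j, |y j| = 1 → sg (a j) = y j := fun j hj => rnd_tight hj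
        have key : ∃ τ, (∀ j, |y j| = 1 → sg (τ j) = y j) ∧ ¬ LL g1 (-g2) τ ∧ NN g1 g2 b2 τ := by
          rcases top_or_neighbour (a := a) (J := J) (g2 := -g2) (b2 := -b2)
            (fun i hi => hat i (hJc i hi)) hJlt t1
            (by rw [neg_dotProduct]; linarith) hy01
            (by rw [neg_dotProduct]; linarith) hy0 (fun i => by simpa using hg2 i)
            (fun i _ => rnd_up hy i) hcard
            (fun j k hjk hjkJ h => hdet j k hjk hjkJ (by
              simp only [Pi.neg_apply] at h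
              linarith)) with h | ⟨j, hj, h, h'⟩
          · exact ⟨a, hat, h, Or.inl (by linarith)⟩
          · by_cases hLa : LL g1 (-g2) a
            · rw [neg_dotProduct] at h'
              refine ⟨flip j a, fun i hi => ?_, h, ?_⟩
              · have hij : i ≠ j := by
                  rintro rfl
                  exact (hJm i).1 hj hi
                rw [flip_ne hij]; exact hat i hi
              · exact Or.inr ⟨h, by linarith, j, by rw [flip_flip]; exact hLa,
                  by rw [flip_flip]; linarith⟩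
            · exact ⟨a, hat, hLa, Or.inl (by linarith)⟩
        obtain ⟨τ, hτ1, hτ2, hτ3⟩ := key
        obtain ⟨k1, k2⟩ := hVB τ hτ3 hτ2
        exact ⟨τ, sgn τ hτ1, fun _ => k1, fun _ => by rw [h2]; linarith⟩
    · -- only `h1` is tight
      have hup := rnd_dot (s := g1) hy
      have hr : 1 ≤ g1 ⬝ᵥ sv (rnd y g1) + b1 := by linarith
      refine ⟨rnd y g1, sgn _ (fun j hj => rnd_tight hj), fun _ => ?_, fun h => absurd h t2⟩
      by_cases hN : NN g1 g2 b2 (rnd y g1)
      · by_cases hU : LL g1 (-g2) (rnd y g1)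
        · exfalso
          rcases hN with h | h
          · exact hnotUL _ hU hr h
          · exact h.1 hU
        · exact (hVB _ hN hU).1
      · by_cases hL : LL g1 g2 (rnd y g1)
        · by_cases hh : 1 ≤ g2 ⬝ᵥ sv (rnd y g1) + b2
          · exact (hnotLL _ hL hr hh).elim
          · exact hVF _ hN hL (by linarith) hr
        · exact (hVD _ hN hL).1
  · by_cases t2 : |g2 ⬝ᵥ y + b2| = 1
    · rcases (abs_eq one_pos.le).1 t2 with h2 | h2
      · have hup := rnd_dot (s := g2) hy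
        have hr : 1 ≤ g2 ⬝ᵥ sv (rnd y g2) + b2 := by linarith
        refine ⟨rnd y g2, sgn _ (fun j hj => rnd_tight hj), fun h => absurd h t1, fun _ => ?_⟩
        rw [h2, one_mul]
        have hN := hNhigh _ hr
        by_cases hL : LL g1 g2 (rnd y g2)
        · exact hVE _ hN hL hr
        · exact (hVD _ hN hL).2
      · have hup := rnd_dot (s := -g2) hy
        rw [neg_dotProduct, neg_dotProduct] at hup
        have hr : g2 ⬝ᵥ sv (rnd y (-g2)) + b2 ≤ -1 := by linarith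
        refine ⟨rnd y (-g2), sgn _ (fun j hj => rnd_tight hj), fun h => absurd h t1, fun _ => ?_⟩
        rw [h2]
        have hN : NN g1 g2 b2 (rnd y (-g2)) := Or.inl hr
        by_cases hU : LL g1 (-g2) (rnd y (-g2))
        · have := hVC _ hN hU
          linarith
        · have := (hVB _ hN hU).2
          linarith
    · exact ⟨rnd y g1, sgn _ (fun j hj => rnd_tight hj), fun h => absurd h t1,
        fun h => absurd h t2⟩

/-- The cube cut by a half space and a slab. -/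
theorem cov_caseII {g1 g2 y0 : ι → ℝ} {b1 b2 : ℝ} (hg2 : ∀ i, |g2 i| ≤ 1)
    (hy0 : ∀ i, |y0 i| ≤ 1) (hy01 : g1 ⬝ᵥ y0 + b1 < 1) (hy02 : |g2 ⬝ᵥ y0 + b2| < 1) :
    Cov (2 ^ Fintype.card ι) {x : ι → ℝ | (∀ j, |x j| ≤ 1) ∧ g1 ⬝ᵥ x + b1 ≤ 1 ∧
      |g2 ⬝ᵥ x + b2| ≤ 1} := by
  choose V hV0 hVB hVC hVD hVE hVF using exists_dirII (b1 := b1) hy0 hy01 hy02
  set F : Option Bool → ι → ℝ := fun o => o.elim g1 (fun b => sg b • g2) with hF
  set B : Option Bool → ℝ := fun o => o.elim (1 - b1) (fun b => 1 - sg b * b2) with hB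
  have hset : {x : ι → ℝ | (∀ j, |x j| ≤ 1) ∧ g1 ⬝ᵥ x + b1 ≤ 1 ∧ |g2 ⬝ᵥ x + b2| ≤ 1} =
      Cu F B := by
    ext x
    simp only [Cu, Set.mem_ofPred_eq, Option.forall, hF, hB, Option.elim, Bool.forall_bool,
      smul_dotProduct, smul_eq_mul, sg_true, sg_false, abs_le]
    constructor
    · rintro ⟨h1, h2, h3, h4⟩
      exact ⟨h1, by linarith, by linarith, by linarith⟩
    · rintro ⟨h1, h2, h3, h4⟩
      exact ⟨h1, by linarith, by linarith, by linarith⟩
  rw [hset]
  have h := cov_of_vertices (F := F) (b := B) Finset.univ V (fun y hy hver => by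
    have hy' : y ∈ {x : ι → ℝ | (∀ j, |x j| ≤ 1) ∧ g1 ⬝ᵥ x + b1 ≤ 1 ∧ |g2 ⬝ᵥ x + b2| ≤ 1} := by
      rw [hset]; exact hy
    obtain ⟨h1, h2, h3⟩ := hy'
    have eT : ∀ b : Bool, F (some b) ⬝ᵥ y = B (some b) → sg b * (g2 ⬝ᵥ y + b2) = 1 := by
      intro b hb
      simp only [hF, hB, Option.elim, smul_dotProduct, smul_eq_mul] at hb
      linarith
    obtain ⟨τ, k1, k2, k3⟩ := vertexII hg2 hy0 hy01 hy02 V hV0 hVB hVC hVD hVE hVF y h1
      (fun w hw1 hw2 hw3 => hver w hw1 (fun m hm => by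
        cases m with
        | none =>
          simp only [hF, hB, Option.elim] at hm ⊢
          exact hw2 (by linarith)
        | some b =>
          have h4 := eT b hm
          have h5 : |g2 ⬝ᵥ y + b2| = 1 := by
            rcases sg_or b with h | h <;> rw [h] at h4
            · rw [one_mul] at h4; rw [h4]; norm_num
            · have : g2 ⬝ᵥ y + b2 = -1 := by linarith
              rw [this]; norm_num
          simp only [hF, Option.elim, smul_dotProduct, smul_eq_mul]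
          rw [hw3 h5, mul_zero]))
    refine ⟨τ, Finset.mem_univ _, k1, fun m hm => ?_⟩
    cases m with
    | none =>
      simp only [hF, hB, Option.elim] at hm ⊢
      exact k2 (by linarith)
    | some b =>
      have h4 := eT b hm
      have h5 : |g2 ⬝ᵥ y + b2| = 1 := by
        rcases sg_or b with h | h <;> rw [h] at h4
        · rw [one_mul] at h4; rw [h4]; norm_num
        · have : g2 ⬝ᵥ y + b2 = -1 := by linarith
          rw [this]; norm_num
      have h6 := k3 h5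
      simp only [hF, Option.elim, smul_dotProduct, smul_eq_mul]
      have h7 : g2 ⬝ᵥ y + b2 = sg b := by
        have := sg_sq b
        rcases sg_or b with h | h <;> rw [h] at h4 ⊢ <;> linarith
      rwa [h7] at h6)
  simpa using h

end Pool.Agent.TH349.Had
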