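import Mathlib
import Pool.Agent.TH349.Had.Asym2

set_option autoImplicit false

/-!
The cube cut by arbitrarily many half spaces, where at each point the column sums of the
tight inequalities are at most one half: rounding as in the theorem of Beck and Fiala.
-/

open Matrix Set
open Pool.Agent.W396.Il (Ill Cov cov_of_ill)

namespace Pool.Agent.TH349.Had

variable {ι M : Type*} [Fintype ι] [DecidableEq ι]

/-- Fewer equations than free coordinates: there is a nonzero solution supported on them. -/
theorem exists_kernel (F : M → ι → ℝ) (D : Finset M) (J : Finset ι) (h : D.card < J.card) :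
    ∃ w : ι → ℝ, w ≠ 0 ∧ (∀ i ∉ J, w i = 0) ∧ ∀ m ∈ D, F m ⬝ᵥ w = 0 := by
  classical
  let T : (J → ℝ) →ₗ[ℝ] (D → ℝ) :=
    { toFun := fun w m => ∑ i : J, F m i * w i
      map_add' := fun w w' => by
        ext l; simp only [Pi.add_apply, mul_add, Finset.sum_add_distrib]
      map_smul' := fun c w => by
        ext l
        simp only [Pi.smul_apply, smul_eq_mul, RingHom.id_apply, Finset.mul_sum]
        exact Finset.sum_congr rfl fun i _ => by ring }
  have hT : ¬ Function.Injective T := by
    intro hinj
    have := LinearMap.finrank_le_finrank_of_injective hinj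
    simp only [Module.finrank_fintype_fun_eq_card, Fintype.card_coe] at this
    omega
  rw [injective_iff_map_eq_zero] at hT
  push Not at hT
  obtain ⟨w, hw, hw0⟩ := hT
  set w' : ι → ℝ := fun i => if h : i ∈ J then w ⟨i, h⟩ else 0 with hw'
  refine ⟨w', ?_, fun i hi => by simp [hw', hi], fun m hm => ?_⟩
  · intro h0
    apply hw0
    ext i
    have := congrFun h0 i
    simpa [hw'] using this
  · have h1 := congrFun hw ⟨m, hm⟩
    have h2 : F m ⬝ᵥ w' = ∑ i ∈ J, F m i * w' i := by
      have := dot_sub_of_supp (F m) w' 0 J (fun i hi => by simp [hw', hi])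
      simpa using this
    rw [h2, ← Finset.sum_coe_sort J (fun i => F m i * w' i)]
    have h3 : T w ⟨m, hm⟩ = ∑ i : J, F m i * w i := rfl
    rw [h3] at h1
    simp only [Pi.zero_apply] at h1
    rw [← h1]
    exact Finset.sum_congr rfl fun i _ => by simp [hw']

omit [DecidableEq ι] in
/-- Moving in the direction `w` until a further coordinate is `±1`. -/
theorem exists_move (z w : ι → ℝ) (hz : ∀ i, |z i| ≤ 1) (hw : w ≠ 0)
    (hw0 : ∀ i, |z i| = 1 → w i = 0) :
    ∃ t : ℝ, (∀ i, |z i + t * w i| ≤ 1) ∧ ∃ j, |z j| ≠ 1 ∧ |z j + t * w j| = 1 := by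
  classical
  set A : Finset ι := Finset.univ.filter (fun i => w i ≠ 0) with hA
  have hAne : A.Nonempty := by
    by_contra h
    rw [Finset.not_nonempty_iff_eq_empty] at h
    apply hw
    ext i
    by_contra hi
    have : i ∈ A := by simp only [hA, Finset.mem_filter, Finset.mem_univ, true_and]; exact hi
    rw [h] at this
    simp at this
  -- the time when coordinate `i` hits the boundary
  set T : ι → ℝ := fun i => if 0 < w i then (1 - z i) / w i else (-1 - z i) / w i with hT
  obtain ⟨j, hj, hmin⟩ := Finset.exists_min_image A T hAne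
  have hjw : w j ≠ 0 := by simpa [hA] using hj
  have hjz : |z j| ≠ 1 := fun h => hjw (hw0 j h)
  have hT0 : ∀ i ∈ A, 0 ≤ T i := by
    intro i hi
    have h1 := abs_le.1 (hz i)
    simp only [hT]
    split_ifs with h
    · exact div_nonneg (by linarith) h.le
    · exact div_nonneg_of_nonpos (by linarith) (not_lt.1 h)
  refine ⟨T j, fun i => ?_, j, hjz, ?_⟩
  · by_cases hi : w i = 0
    · rw [hi, mul_zero, add_zero]; exact hz i
    · have hiA : i ∈ A := by simp [hA, hi]
      have h1 := hmin i hiA
      have h2 := hT0 j hj
      have h3 := abs_le.1 (hz i)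
      by_cases hpos : 0 < w i
      · have h4 : T i = (1 - z i) / w i := by simp only [hT, if_pos hpos]
        rw [h4, le_div_iff₀ hpos] at h1
        have h5 : 0 ≤ T j * w i := mul_nonneg h2 hpos.le
        rw [abs_le]; constructor <;> linarith
      · have hneg : w i < 0 := lt_of_le_of_ne (not_lt.1 hpos) hi
        have h4 : T i = (-1 - z i) / w i := by simp only [hT, if_neg hpos]
        rw [h4, le_div_iff_of_neg hneg] at h1
        have h5 : T j * w i ≤ 0 := mul_nonpos_of_nonneg_of_nonpos h2 hneg.le
        rw [abs_le]; constructor <;> linarith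
  · by_cases hpos : 0 < w j
    · have h4 : T j * w j = 1 - z j := by
        simp only [hT, if_pos hpos]
        exact div_mul_cancel₀ _ hjw
      rw [h4]; norm_num
    · have h4 : T j * w j = -1 - z j := by
        simp only [hT, if_neg hpos]
        exact div_mul_cancel₀ _ hjw
      rw [h4]; norm_num

/-- One sided rounding. -/
theorem round_BF (F : M → ι → ℝ) (R : Finset M) (x : ι → ℝ) (hx : ∀ i, |x i| ≤ 1)
    (hcol : ∀ j, |x j| ≠ 1 → ∑ m ∈ R, |F m j| ≤ 1 / 2) :
    ∃ τ : ι → Bool, (∀ i, |x i| = 1 → sg (τ i) = x i) ∧ ∀ m ∈ R, -1 < F m ⬝ᵥ (sv τ - x) := by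
  classical
  -- induction on the number of free coordinates
  have main : ∀ (n : ℕ) (z : ι → ℝ) (D : Finset M), (∀ i, |z i| ≤ 1) →
      (∀ i, |x i| = 1 → z i = x i) → (Finset.univ.filter (fun i => |z i| ≠ 1)).card = n →
      D ⊆ R → (∀ m ∈ D, 0 ≤ F m ⬝ᵥ (z - x)) →
      (∀ m ∈ R, m ∉ D → ∀ f : ι → ℝ, (∀ i, |f i| ≤ 1) → (∀ i, |z i| = 1 → f i = z i) →
        -1 < F m ⬝ᵥ (f - x)) →
      ∃ τ : ι → Bool, (∀ i, |z i| = 1 → sg (τ i) = z i) ∧ ∀ m ∈ R, -1 < F m ⬝ᵥ (sv τ - x) := by
    intro n
    induction n using Nat.strong_induction_on with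
    | _ n ih =>
      intro z D hz hzx hn hDR hD hnD
      by_cases hfree : ∀ i, |z i| = 1
      · refine ⟨rnd z 0, fun i hi => rnd_tight hi, fun m hm => ?_⟩
        have hsv : sv (rnd z 0) = z := by
          ext i; exact rnd_tight (hfree i)
        rw [hsv]
        by_cases hmD : m ∈ D
        · have := hD m hmD; linarith
        · exact hnD m hm hmD z hz (fun _ _ => rfl)
      · push Not at hfree
        set J : Finset ι := Finset.univ.filter (fun i => |z i| ≠ 1) with hJ
        have hJm : ∀ i, i ∈ J ↔ |z i| ≠ 1 := fun i => by simp [hJ]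
        have hJne : J.Nonempty := by
          obtain ⟨i, hi⟩ := hfree
          exact ⟨i, (hJm i).2 hi⟩
        set loss : M → ℝ := fun m => ∑ j ∈ J, (|F m j| + F m j * z j) with hloss
        set D' : Finset M := D.filter (fun m => 1 ≤ loss m) with hD'
        -- the change of a completion
        have hchange : ∀ m, ∀ f : ι → ℝ, (∀ i, |f i| ≤ 1) → (∀ i, |z i| = 1 → f i = z i) →
            F m ⬝ᵥ (z - x) - loss m ≤ F m ⬝ᵥ (f - x) := by
          intro m f hf hfz
          have h1 : F m ⬝ᵥ f = F m ⬝ᵥ z + ∑ i ∈ J, F m i * (f i - z i) :=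
            dot_sub_of_supp (F m) f z J (fun i hi => hfz i (by
              by_contra h; exact hi ((hJm i).2 h)))
          have h2 : -loss m ≤ ∑ i ∈ J, F m i * (f i - z i) := by
            rw [hloss, ← Finset.sum_neg_distrib]
            refine Finset.sum_le_sum fun i _ => ?_
            have h3 : -|F m i| ≤ F m i * f i := by
              have : |F m i * f i| ≤ |F m i| := by
                rw [abs_mul]
                exact mul_le_of_le_one_right (abs_nonneg _) (hf i)
              exact (abs_le.1 this).1
            linarith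
          rw [dotProduct_sub, dotProduct_sub, h1]
          linarith
        have hcard : D'.card < J.card := by
          have h1 : (D'.card : ℝ) ≤ ∑ m ∈ D', loss m := by
            have : (D'.card : ℝ) = ∑ m ∈ D', (1 : ℝ) := by simp
            rw [this]
            exact Finset.sum_le_sum fun m hm => (Finset.mem_filter.1 hm).2
          have h2 : ∑ m ∈ D', loss m < (J.card : ℝ) := by
            rw [hloss, Finset.sum_comm]
            have : (J.card : ℝ) = ∑ j ∈ J, (1 : ℝ) := by simp
            rw [this]
            refine Finset.sum_lt_sum_of_nonempty hJne fun j hj => ?_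
            have hzj := lt_of_le_of_ne (hz j) ((hJm j).1 hj)
            have hxj : |x j| ≠ 1 := by
              intro h
              apply (hJm j).1 hj
              rw [hzx j h]; exact h
            have h3 := hcol j hxj
            have h4 : ∑ m ∈ D', (|F m j| + F m j * z j) ≤ ∑ m ∈ D', |F m j| * (1 + |z j|) := by
              refine Finset.sum_le_sum fun m _ => ?_
              have : F m j * z j ≤ |F m j| * |z j| := by
                rw [← abs_mul]; exact le_abs_self _
              linarith
            have h5 : ∑ m ∈ D', |F m j| * (1 + |z j|) = (∑ m ∈ D', |F m j|) * (1 + |z j|) :=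
              (Finset.sum_mul _ _ _).symm
            have h6 : ∑ m ∈ D', |F m j| ≤ ∑ m ∈ R, |F m j| :=
              Finset.sum_le_sum_of_subset_of_nonneg ((Finset.filter_subset _ _).trans hDR)
                (fun _ _ _ => abs_nonneg _)
            have h7 := abs_nonneg (z j)
            have h8 : (∑ m ∈ D', |F m j|) * (1 + |z j|) ≤ 1 / 2 * (1 + |z j|) :=
              mul_le_mul_of_nonneg_right (h6.trans h3) (by linarith)
            linarith
          exact_mod_cast h1.trans_lt h2
        obtain ⟨w, hw, hw0, hwD⟩ := exists_kernel F D' J hcard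
        have hw0' : ∀ i, |z i| = 1 → w i = 0 := fun i hi => hw0 i (fun h => (hJm i).1 h hi)
        obtain ⟨t, ht, j, hj1, hj2⟩ := exists_move z w hz hw hw0'
        set z' : ι → ℝ := z + t • w with hz'
        have hz'v : ∀ i, z' i = z i + t * w i := fun i => rfl
        have hz't : ∀ i, |z i| = 1 → z' i = z i := fun i hi => by
          rw [hz'v, hw0' i hi, mul_zero, add_zero]
        have hlt : (Finset.univ.filter (fun i => |z' i| ≠ 1)).card < n := by
          rw [← hn]
          apply Finset.card_lt_card
          rw [Finset.ssubset_iff_of_subset]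
          · exact ⟨j, (hJm j).2 hj1, by simp [hz'v, hj2]⟩
          · intro i hi
            rw [hJm]
            intro h
            have h1 := hz't i h
            simp only [Finset.mem_filter, Finset.mem_univ, true_and] at hi
            rw [h1] at hi
            exact hi h
        obtain ⟨τ, h1, h2⟩ := ih _ hlt z' D' (fun i => by rw [hz'v]; exact ht i)
          (fun i hi => by
            have h1 := hzx i hi
            rw [hz't i (by rw [h1]; exact hi), h1]) rfl
          ((Finset.filter_subset _ _).trans hDR)
          (fun m hm => by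
            have h1 := hD m (Finset.mem_filter.1 hm).1
            have h2 := hwD m hm
            have e : z' - x = (z - x) + t • w := by rw [hz']; abel
            rw [e, dotProduct_add, dotProduct_smul, h2, smul_zero, add_zero]
            exact h1)
          (fun m hmR hmD f hf hfz => by
            have hfz' : ∀ i, |z i| = 1 → f i = z i := fun i hi => by
              rw [hfz i (by rw [hz't i hi]; exact hi), hz't i hi]
            by_cases hmD2 : m ∈ D
            · have hl : loss m < 1 := by
                by_contra h
                push Not at h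
                exact hmD (Finset.mem_filter.2 ⟨hmD2, h⟩)
              have h1 := hchange m f hf hfz'
              have h2 := hD m hmD2
              linarith
            · exact hnD m hmR hmD2 f hf hfz')
        exact ⟨τ, fun i hi => by
          rw [h1 i (by rw [hz't i hi]; exact hi), hz't i hi], h2⟩
  obtain ⟨τ, h1, h2⟩ := main _ x R hx (fun _ _ => rfl) rfl subset_rfl
    (fun m _ => by rw [sub_self, dotProduct_zero]) (fun m hm hmD => absurd hm hmD)
  exact ⟨τ, h1, h2⟩

/-- The cube cut by arbitrarily many half spaces. -/
theorem cov_BF [Finite M] (F : M → ι → ℝ)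
    (h : ∀ x ∈ Cu F (fun _ => 1), ∀ R : Finset M, (∀ m ∈ R, F m ⬝ᵥ x = 1) →
      ∀ j, |x j| < 1 → ∑ m ∈ R, |F m j| ≤ 1 / 2) :
    Cov (2 ^ Fintype.card ι) (Cu F (fun _ => 1)) := by
  classical
  have := Fintype.ofFinite M
  have h := cov_of_vertices (F := F) (b := fun _ => 1) Finset.univ (fun τ => -(sv τ))
    (fun y hy _ => by
      obtain ⟨τ, h1, h2⟩ := round_BF F (Finset.univ.filter (fun m => F m ⬝ᵥ y = 1)) y hy.1
        (fun j hj => h y hy _ (fun m hm => (Finset.mem_filter.1 hm).2) j
          (lt_of_le_of_ne (hy.1 j) hj))
      refine ⟨τ, Finset.mem_univ _, fun j hj => ?_, fun m hm => ?_⟩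
      · rw [← h1 j hj]; exact neg_sv τ j
      · have h3 := h2 m (by simp [hm])
        rw [dotProduct_sub, hm] at h3
        rw [dotProduct_neg]
        linarith)
  simpa using h

end Pool.Agent.TH349.Had
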