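import Mathlib
import Pool.Agent.TH349.Had.Two

set_option autoImplicit false

/-!
The cube cut by two symmetric slabs: the vertices are illuminated by one direction in each orthant.
-/

open Matrix

namespace Pool.Agent.TH349.Had

variable {ι : Type*} [Fintype ι]

theorem abs_one_sq {t : ℝ} (h : |t| = 1) : t * t = 1 := by
  rw [← abs_mul_abs_self, h, one_mul]

/-- the product of the value at the vertex with the value at a rounding -/
theorem prod_round (g f y q : ι → ℝ) (J : Finset ι) (hJ : ∀ i ∉ J, f i = y i)
    (h : |g ⬝ᵥ (y - q)| = 1) :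
    (g ⬝ᵥ (y - q)) * (g ⬝ᵥ (f - q)) =
      1 + ∑ i ∈ J, ((g ⬝ᵥ (y - q)) * g i) * (f i - y i) := by
  rw [dotProduct_sub g f q, dot_sub_of_supp g f y J hJ]
  have h1 : g ⬝ᵥ y + ∑ i ∈ J, g i * (f i - y i) - g ⬝ᵥ q =
      g ⬝ᵥ (y - q) + ∑ i ∈ J, g i * (f i - y i) := by
    rw [dotProduct_sub]; ring
  rw [h1, mul_add, abs_one_sq h, Finset.mul_sum]
  congr 1
  exact Finset.sum_congr rfl fun i _ => by ring

theorem dirs_two [DecidableEq ι] (g : Fin 2 → ι → ℝ) (hg : ∀ l j, |g l j| ≤ 1) (q : ι → ℝ)
    (hq : ∀ i, |q i| < 1) :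
    ∃ V : (ι → Bool) → ι → ℝ, ∀ y : ι → ℝ, (∀ i, |y i| ≤ 1) →
      (∀ w : ι → ℝ, (∀ i, |y i| = 1 → w i = 0) → (∀ l, |g l ⬝ᵥ (y - q)| = 1 → g l ⬝ᵥ w = 0) → w = 0) →
      ∃ τ, (∀ i, |y i| = 1 → y i * V τ i < 0) ∧
        (∀ l, |g l ⬝ᵥ (y - q)| = 1 → (g l ⬝ᵥ (y - q)) * (g l ⬝ᵥ V τ) < 0) := by
  classical
  choose V hV1 hV2 hV3 using exists_dir g q hq
  refine ⟨V, fun y hy hver => ?_⟩
  -- free coordinates
  set J : Finset ι := Finset.univ.filter (fun i => |y i| ≠ 1) with hJ
  have hJm : ∀ i, i ∈ J ↔ |y i| ≠ 1 := fun i => by simp [hJ]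
  have hJc : ∀ i, i ∉ J → |y i| = 1 := fun i hi => by
    by_contra h; exact hi ((hJm i).2 h)
  have hJlt : ∀ i ∈ J, |y i| < 1 := fun i hi => lt_of_le_of_ne (hy i) ((hJm i).1 hi)
  set τ₀ : ι → Bool := fun i => decide (0 < y i) with hτ₀
  have hτ₀e : ∀ i, i ∉ J → sg (τ₀ i) = y i := by
    intro i hi
    rcases (abs_eq one_pos.le).1 (hJc i hi) with h | h
    · simp [hτ₀, h, sg]
    · simp [hτ₀, h, sg]
  -- a rounding with all signs right is enough
  have good : ∀ τ : ι → Bool, (∀ i ∉ J, sg (τ i) = y i) →
      (∀ l, |g l ⬝ᵥ (y - q)| = 1 → 0 < (g l ⬝ᵥ (y - q)) * (g l ⬝ᵥ (sv τ - q))) →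
      ∃ τ, (∀ i, |y i| = 1 → y i * V τ i < 0) ∧
        (∀ l, |g l ⬝ᵥ (y - q)| = 1 → (g l ⬝ᵥ (y - q)) * (g l ⬝ᵥ V τ) < 0) := by
    intro τ h1 h2
    refine ⟨τ, fun i hi => ?_, fun l hl => ?_⟩
    · have hi' : i ∉ J := fun h => (hJm i).1 h hi
      rw [← h1 i hi']
      exact hV1 τ i
    · have h3 := h2 l hl
      have hne : g l ⬝ᵥ (sv τ - q) ≠ 0 := by
        intro h; rw [h, mul_zero] at h3; exact lt_irrefl _ h3
      have h4 := hV2 τ l hne
      -- signs
      have h5 : 0 < (g l ⬝ᵥ (sv τ - q)) * (g l ⬝ᵥ (sv τ - q)) := mul_self_pos.2 hne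
      by_contra hcon
      push Not at hcon
      have h6 : 0 ≤ ((g l ⬝ᵥ (y - q)) * (g l ⬝ᵥ (sv τ - q))) * ((g l ⬝ᵥ (y - q)) * (g l ⬝ᵥ V τ)) :=
        mul_nonneg h3.le hcon
      have h7 : ((g l ⬝ᵥ (y - q)) * (g l ⬝ᵥ (sv τ - q))) * ((g l ⬝ᵥ (y - q)) * (g l ⬝ᵥ V τ)) =
          ((g l ⬝ᵥ (y - q)) * (g l ⬝ᵥ (y - q))) * ((g l ⬝ᵥ (sv τ - q)) * (g l ⬝ᵥ V τ)) := by ring
      rw [h7, abs_one_sq hl, one_mul] at h6
      linarith
  have hcard : J.card ≤ 2 := by
    refine card_free_le g J (fun w hw hw2 => hver w (fun i hi => ?_) (fun l _ => hw2 l))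
    exact hw i (fun h => (hJm i).1 h hi)
  have hs : ∀ l j, |g l ⬝ᵥ (y - q)| = 1 → |(g l ⬝ᵥ (y - q)) * g l j| ≤ 1 := by
    intro l j h
    rw [abs_mul, h, one_mul]; exact hg l j
  have hJ3 : J.card = 0 ∨ J.card = 1 ∨ J.card = 2 := by omega
  rcases hJ3 with h0 | h1 | h2
  · -- no free coordinate
    have hJe : J = ∅ := Finset.card_eq_zero.1 h0
    refine good τ₀ hτ₀e (fun l hl => ?_)
    rw [prod_round (g l) (sv τ₀) y q J (fun i hi => hτ₀e i hi) hl, hJe]
    simp
  · -- one free coordinate
    obtain ⟨j, hj⟩ := Finset.card_eq_one.1 h1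
    have hjJ : j ∈ J := by rw [hj]; simp
    have hup : ∀ b, ∀ i ∉ J, sg (Function.update τ₀ j b i) = y i := by
      intro b i hi
      have hij : i ≠ j := fun h => hi (h ▸ hjJ)
      rw [Function.update_of_ne hij]
      exact hτ₀e i hi
    have hval : ∀ b l, |g l ⬝ᵥ (y - q)| = 1 →
        (g l ⬝ᵥ (y - q)) * (g l ⬝ᵥ (sv (Function.update τ₀ j b) - q)) =
          1 + ((g l ⬝ᵥ (y - q)) * g l j) * (sg b - y j) := by
      intro b l hl
      rw [prod_round (g l) (sv (Function.update τ₀ j b)) y q J (fun i hi => hup b i hi) hl, hj,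
        Finset.sum_singleton]
      simp [sv]
    by_cases ht0 : |g 0 ⬝ᵥ (y - q)| = 1
    · by_cases ht1 : |g 1 ⬝ᵥ (y - q)| = 1
      · rcases round_one_two ((g 0 ⬝ᵥ (y - q)) * g 0 j) ((g 1 ⬝ᵥ (y - q)) * g 1 j) (y j) (hs 0 j ht0)
          (hs 1 j ht1) (hJlt j hjJ) with ⟨b, hb0, hb1⟩ | ⟨hy0, hq, hp⟩
        · refine good _ (hup b) (fun l hl => ?_)
          rw [hval b l hl]
          fin_cases l
          · simp only [Fin.zero_eta]; linarith
          · simp only [Fin.mk_one]; linarith
        · -- the tie
          have hp0 : g 0 j ≠ 0 := by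
            intro h; rw [h, mul_zero, abs_zero] at hp; exact zero_ne_one hp
          have hD := tie_indep (g 0) (g 1) (y - q) j (g 0 ⬝ᵥ (y - q)) (g 1 ⬝ᵥ (y - q))
            (by intro h; rw [h, abs_zero] at ht0; exact zero_ne_one ht0) rfl rfl
            (by rw [abs_one_sq ht0, abs_one_sq ht1]) hq hp0
          set p := (g 0 ⬝ᵥ (y - q)) * g 0 j with hpd
          set s := g 0 ⬝ᵥ (y - q) with hsd
          set t := g 1 ⬝ᵥ (y - q) with htd
          have hss := abs_one_sq ht0
          have htt := abs_one_sq ht1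
          have hpp := abs_one_sq hp
          -- Boolean with sign p
          obtain ⟨b, hb⟩ : ∃ b : Bool, sg b = p := by
            rcases (abs_eq one_pos.le).1 hp with h | h
            · exact ⟨true, by rw [h]; rfl⟩
            · exact ⟨false, by rw [h]; rfl⟩
          have hst : s = t ∨ s = -t := by
            rcases (abs_eq one_pos.le).1 ht0 with h | h <;>
              rcases (abs_eq one_pos.le).1 ht1 with h' | h' <;> rw [h, h'] <;> norm_num
          rcases hst with hst | hst
          · -- use sign p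
            refine ⟨Function.update τ₀ j b, fun i hi => ?_, fun l hl => ?_⟩
            · have hi' : i ∉ J := fun h => (hJm i).1 h hi
              rw [← hup b i hi']
              exact hV1 _ i
            · have v0 := hval b 0 ht0
              have v1 := hval b 1 ht1
              rw [hy0, hb, sub_zero] at v0 v1
              rw [hq] at v1
              have v0' : s * (g 0 ⬝ᵥ (sv (Function.update τ₀ j b) - q)) = 2 := by
                rw [v0]; linarith
              have v1' : t * (g 1 ⬝ᵥ (sv (Function.update τ₀ j b) - q)) = 0 := by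
                rw [v1]; linarith
              have w1 : g 1 ⬝ᵥ (sv (Function.update τ₀ j b) - q) = 0 := by
                rcases mul_eq_zero.1 v1' with h | h
                · rw [h] at htt; norm_num at htt
                · exact h
              have w0 : g 0 ⬝ᵥ (sv (Function.update τ₀ j b) - q) = 2 * s := by
                have : s * (s * (g 0 ⬝ᵥ (sv (Function.update τ₀ j b) - q))) = s * 2 := by rw [v0']
                rw [← mul_assoc, hss, one_mul] at this
                rw [this]; ring
              have w0n : g 0 ⬝ᵥ (sv (Function.update τ₀ j b) - q) ≠ 0 := by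
                rw [w0]; intro h
                have : s = 0 := by linarith
                rw [this] at hss; norm_num at hss
              fin_cases l
              · have := hV2 (Function.update τ₀ j b) 0 w0n
                rw [w0] at this
                simp only [Fin.zero_eta]
                rw [← hsd]
                nlinarith
              · have := (hV3 (Function.update τ₀ j b) hD).2 w1 w0n
                rw [w0] at this
                simp only [Fin.mk_one]
                rw [← htd, ← hst]
                nlinarith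
          · refine ⟨Function.update τ₀ j (!b), fun i hi => ?_, fun l hl => ?_⟩
            · have hi' : i ∉ J := fun h => (hJm i).1 h hi
              rw [← hup (!b) i hi']
              exact hV1 _ i
            · have v0 := hval (!b) 0 ht0
              have v1 := hval (!b) 1 ht1
              rw [hy0, sg_not, hb, sub_zero] at v0 v1
              rw [hq] at v1
              have v0' : s * (g 0 ⬝ᵥ (sv (Function.update τ₀ j (!b)) - q)) = 0 := by
                rw [v0]; linarith
              have v1' : t * (g 1 ⬝ᵥ (sv (Function.update τ₀ j (!b)) - q)) = 2 := by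
                rw [v1]; linarith
              have w0 : g 0 ⬝ᵥ (sv (Function.update τ₀ j (!b)) - q) = 0 := by
                rcases mul_eq_zero.1 v0' with h | h
                · rw [h] at hss; norm_num at hss
                · exact h
              have w1 : g 1 ⬝ᵥ (sv (Function.update τ₀ j (!b)) - q) = 2 * t := by
                have : t * (t * (g 1 ⬝ᵥ (sv (Function.update τ₀ j (!b)) - q))) = t * 2 := by rw [v1']
                rw [← mul_assoc, htt, one_mul] at this
                rw [this]; ring
              have w1n : g 1 ⬝ᵥ (sv (Function.update τ₀ j (!b)) - q) ≠ 0 := by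
                rw [w1]; intro h
                have : t = 0 := by linarith
                rw [this] at htt; norm_num at htt
              fin_cases l
              · have := (hV3 (Function.update τ₀ j (!b)) hD).1 w0 w1n
                rw [w1] at this
                simp only [Fin.zero_eta]
                rw [← hsd, hst]
                nlinarith
              · have := hV2 (Function.update τ₀ j (!b)) 1 w1n
                rw [w1] at this
                simp only [Fin.mk_one]
                rw [← htd]
                nlinarith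
      · obtain ⟨b, hb⟩ := round_one_one ((g 0 ⬝ᵥ (y - q)) * g 0 j) (y j) (hJlt j hjJ)
        refine good _ (hup b) (fun l hl => ?_)
        rw [hval b l hl]
        fin_cases l
        · simp only [Fin.zero_eta]; linarith
        · exact absurd hl ht1
    · obtain ⟨b, hb⟩ := round_one_one ((g 1 ⬝ᵥ (y - q)) * g 1 j) (y j) (hJlt j hjJ)
      refine good _ (hup b) (fun l hl => ?_)
      rw [hval b l hl]
      fin_cases l
      · exact absurd hl ht0
      · simp only [Fin.mk_one]; linarith
  · -- two free coordinates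
    obtain ⟨j, k, hjk, hjkJ⟩ := Finset.card_eq_two.1 h2
    have hjJ : j ∈ J := by rw [hjkJ]; simp
    have hkJ : k ∈ J := by rw [hjkJ]; simp
    -- both slabs are tight and the minor is not zero
    let M : Matrix (Fin 2) (Fin 2) ℝ := fun l a =>
      if |g l ⬝ᵥ (y - q)| = 1 then (if a = 0 then g l j else g l k) else 0
    have hM : M.det ≠ 0 := by
      intro h
      obtain ⟨v, hv, hMv⟩ := Matrix.exists_mulVec_eq_zero_iff.2 h
      set w : ι → ℝ := Function.update (Function.update 0 j (v 0)) k (v 1) with hw
      have hwj : w j = v 0 := by rw [hw, Function.update_of_ne hjk, Function.update_self]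
      have hwk : w k = v 1 := by rw [hw, Function.update_self]
      have hw0 : ∀ i ∉ J, w i = 0 := by
        intro i hi
        have h1 : i ≠ j := fun h => hi (h ▸ hjJ)
        have h2 : i ≠ k := fun h => hi (h ▸ hkJ)
        rw [hw, Function.update_of_ne h2, Function.update_of_ne h1]; rfl
      have hz : w = 0 := by
        refine hver w (fun i hi => hw0 i (fun h => (hJm i).1 h hi)) (fun l hl => ?_)
        have h3 := dot_sub_of_supp (g l) w 0 J (fun i hi => by rw [hw0 i hi]; rfl)
        rw [h3, hjkJ, Finset.sum_pair hjk]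
        have h4 : M l 0 * v 0 + M l 1 * v 1 = 0 := by
          have h5 := congrFun hMv l
          rw [Matrix.mulVec, dotProduct, Fin.sum_univ_two] at h5
          exact h5
        have e0 : M l 0 = g l j := by simp only [M, if_pos hl, if_true]
        have e1 : M l 1 = g l k := by simp only [M, if_pos hl, one_ne_zero, if_false]
        rw [e0, e1] at h4
        simp only [dotProduct_zero, Pi.zero_apply, sub_zero, zero_add, hwj, hwk]
        exact h4
      apply hv
      ext a
      fin_cases a
      · show v 0 = 0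
        rw [← hwj, hz]; rfl
      · show v 1 = 0
        rw [← hwk, hz]; rfl
    rw [Matrix.det_fin_two] at hM
    have ht0 : |g 0 ⬝ᵥ (y - q)| = 1 := by
      by_contra h; apply hM; simp only [M, if_neg h, zero_mul, sub_self]
    have ht1 : |g 1 ⬝ᵥ (y - q)| = 1 := by
      by_contra h; apply hM; simp only [M, if_neg h, mul_zero, sub_self]
    have hM' : g 0 j * g 1 k - g 0 k * g 1 j ≠ 0 := by
      simpa only [M, if_pos ht0, if_pos ht1, if_true, one_ne_zero, if_false] using hM
    obtain ⟨b, b', hb0, hb1⟩ := round_two_two ((g 0 ⬝ᵥ (y - q)) * g 0 j) ((g 0 ⬝ᵥ (y - q)) * g 0 k)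
      ((g 1 ⬝ᵥ (y - q)) * g 1 j) ((g 1 ⬝ᵥ (y - q)) * g 1 k) (y j) (y k) (hs 0 j ht0) (hs 0 k ht0)
      (hs 1 j ht1) (hs 1 k ht1) (hJlt j hjJ) (hJlt k hkJ) (by
        intro h
        apply hM'
        have h5 : ((g 0 ⬝ᵥ (y - q)) * (g 1 ⬝ᵥ (y - q))) * (g 0 j * g 1 k - g 0 k * g 1 j) = 0 := by
          linear_combination h
        rcases mul_eq_zero.1 h5 with h6 | h6
        · exfalso
          rcases mul_eq_zero.1 h6 with h7 | h7
          · rw [h7, abs_zero] at ht0; exact zero_ne_one ht0
          · rw [h7, abs_zero] at ht1; exact zero_ne_one ht1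
        · exact h6)
    have hup : ∀ i ∉ J, sg (Function.update (Function.update τ₀ j b) k b' i) = y i := by
      intro i hi
      have h1 : i ≠ j := fun h => hi (h ▸ hjJ)
      have h2 : i ≠ k := fun h => hi (h ▸ hkJ)
      rw [Function.update_of_ne h2, Function.update_of_ne h1]
      exact hτ₀e i hi
    refine good _ hup (fun l hl => ?_)
    rw [prod_round (g l) (sv (Function.update (Function.update τ₀ j b) k b')) y q J
      (fun i hi => hup i hi) hl, hjkJ, Finset.sum_pair hjk]
    simp only [sv, Function.update_self, Function.update_of_ne hjk]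
    fin_cases l
    · simp only [Fin.zero_eta]; linarith
    · simp only [Fin.mk_one]; linarith

end Pool.Agent.TH349.Had
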