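import Mathlib
import Pool.Agent.TH349.Had.Asym2
import Pool.Agent.TH349.Had.TwoDirs

set_option autoImplicit false

/-!
The cube cut by two arbitrary slabs of the form `|h l| ≤ 1` with coefficients at most one.
-/

open Matrix Set Filter Topology
open Pool.Agent.W396.Il (Ill Cov cov_of_ill)

namespace Pool.Agent.TH349.Had

variable {ι : Type*} [Fintype ι] [DecidableEq ι]

/-- Case I: the centres of the slabs meet in the interior of the cube. -/
theorem cov_caseI {g : Fin 2 → ι → ℝ} {β : Fin 2 → ℝ} (hg : ∀ l j, |g l j| ≤ 1) (q : ι → ℝ)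
    (hq : ∀ j, |q j| < 1) (hq0 : ∀ l, g l ⬝ᵥ q + β l = 0) :
    Cov (2 ^ Fintype.card ι) {x : ι → ℝ | (∀ j, |x j| ≤ 1) ∧ ∀ l, |g l ⬝ᵥ x + β l| ≤ 1} := by
  obtain ⟨V, hV⟩ := dirs_two g hg q hq
  set F : Fin 2 × Bool → ι → ℝ := fun o => sg o.2 • g o.1 with hF
  set B : Fin 2 × Bool → ℝ := fun o => 1 - sg o.2 * β o.1 with hB
  have hval : ∀ l (y : ι → ℝ), g l ⬝ᵥ (y - q) = g l ⬝ᵥ y + β l := by
    intro l y
    have := hq0 l
    rw [dotProduct_sub]; linarith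
  have hset : {x : ι → ℝ | (∀ j, |x j| ≤ 1) ∧ ∀ l, |g l ⬝ᵥ x + β l| ≤ 1} = Cu F B := by
    ext x
    simp only [Cu, Set.mem_ofPred_eq, hF, hB, smul_dotProduct, smul_eq_mul, abs_le]
    constructor
    · rintro ⟨h1, h2⟩
      refine ⟨h1, fun m => ?_⟩
      have h3 := h2 m.1
      rcases sg_or m.2 with h | h <;> rw [h] <;> linarith
    · rintro ⟨h1, h2⟩
      refine ⟨h1, fun l => ?_⟩
      have h3 := h2 (l, true)
      have h4 := h2 (l, false)
      simp only [sg_true, sg_false] at h3 h4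
      constructor <;> linarith
  rw [hset]
  have eT : ∀ (m : Fin 2 × Bool) (y : ι → ℝ), F m ⬝ᵥ y = B m →
      |g m.1 ⬝ᵥ (y - q)| = 1 ∧ g m.1 ⬝ᵥ (y - q) = sg m.2 := by
    intro m y h
    simp only [hF, hB, smul_dotProduct, smul_eq_mul] at h
    rw [hval]
    rcases sg_or m.2 with h1 | h1 <;> rw [h1] at h ⊢
    · have : g m.1 ⬝ᵥ y + β m.1 = 1 := by linarith
      rw [this]; norm_num
    · have : g m.1 ⬝ᵥ y + β m.1 = -1 := by linarith
      rw [this]; norm_num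
  have h := cov_of_vertices (F := F) (b := B) Finset.univ V (fun y hy hver => by
    obtain ⟨τ, k1, k2⟩ := hV y hy.1 (fun w hw1 hw2 => hver w hw1 (fun m hm => by
      simp only [hF, smul_dotProduct, smul_eq_mul]
      rw [hw2 m.1 (eT m y hm).1, mul_zero]))
    refine ⟨τ, Finset.mem_univ _, k1, fun m hm => ?_⟩
    have h1 := k2 m.1 (eT m y hm).1
    rw [(eT m y hm).2] at h1
    simpa only [hF, smul_dotProduct, smul_eq_mul] using h1)
  simpa using h

omit [DecidableEq ι] in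
/-- Either the centres of the slabs meet in the open cube or some combination is nonnegative on
the cube. -/
theorem dicho (g0 g1 : ι → ℝ) (b0 b1 : ℝ) :
    (∃ q : ι → ℝ, (∀ j, |q j| < 1) ∧ g0 ⬝ᵥ q + b0 = 0 ∧ g1 ⬝ᵥ q + b1 = 0) ∨
    ∃ c0 c1 : ℝ, (c0 ≠ 0 ∨ c1 ≠ 0) ∧ ∀ x : ι → ℝ, (∀ j, |x j| ≤ 1) →
      0 ≤ c0 * (g0 ⬝ᵥ x + b0) + c1 * (g1 ⬝ᵥ x + b1) := by
  by_cases hI : ∃ q : ι → ℝ, (∀ j, |q j| < 1) ∧ g0 ⬝ᵥ q + b0 = 0 ∧ g1 ⬝ᵥ q + b1 = 0
  · exact Or.inl hI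
  right
  set h : (ι → ℝ) → ℝ × ℝ := fun x => (g0 ⬝ᵥ x + b0, g1 ⬝ᵥ x + b1) with hh
  have hcont : Continuous h :=
    ((cont_dot g0).add continuous_const).prodMk ((cont_dot g1).add continuous_const)
  set r : ℕ → ℝ := fun n => 1 - 1 / ((n : ℝ) + 1) with hr
  have hr1 : ∀ n, r n < 1 := fun n => by
    have : (0 : ℝ) < 1 / ((n : ℝ) + 1) := by positivity
    simp only [hr]; linarith
  have hr0 : ∀ n, 0 ≤ r n := fun n => by
    simp only [hr]
    have : 1 / ((n : ℝ) + 1) ≤ 1 := by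
      rw [div_le_one (by positivity)]
      have : (0 : ℝ) ≤ n := Nat.cast_nonneg n
      linarith
    linarith
  have hex : ∀ n, ∃ c : ℝ × ℝ, ‖c‖ = 1 ∧ ∀ x : ι → ℝ, (∀ j, |x j| ≤ r n) →
      0 ≤ c.1 * (g0 ⬝ᵥ x + b0) + c.2 * (g1 ⬝ᵥ x + b1) := by
    intro n
    set C : Set (ℝ × ℝ) := h '' (Metric.closedBall (0 : ι → ℝ) (r n)) with hC
    have hmem : ∀ x : ι → ℝ, x ∈ Metric.closedBall (0 : ι → ℝ) (r n) ↔ ∀ j, |x j| ≤ r n := by
      intro x
      rw [mem_closedBall_zero_iff, pi_norm_le_iff_of_nonneg (hr0 n)]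
      rfl
    have hCclosed : IsClosed C := ((isCompact_closedBall _ _).image hcont).isClosed
    have hCconv : Convex ℝ C := by
      rintro _ ⟨x, hx, rfl⟩ _ ⟨y, hy, rfl⟩ s t hs ht hst
      refine ⟨s • x + t • y, (convex_closedBall _ _) hx hy hs ht hst, ?_⟩
      simp only [hh, dotProduct_add, dotProduct_smul, smul_eq_mul, Prod.smul_mk, Prod.mk_add_mk,
        Prod.mk.injEq]
      constructor
      · linear_combination (-b0) * hst
      · linear_combination (-b1) * hst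
    have h0 : (0 : ℝ × ℝ) ∉ C := by
      rintro ⟨q, hq, hq0⟩
      apply hI
      rw [Prod.ext_iff] at hq0
      exact ⟨q, fun j => ((hmem q).1 hq j).trans_lt (hr1 n), hq0.1, hq0.2⟩
    obtain ⟨f, u, hf0, hf⟩ := geometric_hahn_banach_point_closed hCconv hCclosed h0
    rw [map_zero] at hf0
    set c : ℝ × ℝ := (f (1, 0), f (0, 1)) with hc
    have hfc : ∀ p : ℝ × ℝ, f p = c.1 * p.1 + c.2 * p.2 := by
      intro p
      have : p = p.1 • ((1 : ℝ), (0 : ℝ)) + p.2 • ((0 : ℝ), (1 : ℝ)) := by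
        ext <;> simp
      conv_lhs => rw [this]
      rw [map_add, map_smul, map_smul, smul_eq_mul, smul_eq_mul]
      simp only [hc]
      ring
    have hpos : ∀ x : ι → ℝ, (∀ j, |x j| ≤ r n) →
        0 < c.1 * (g0 ⬝ᵥ x + b0) + c.2 * (g1 ⬝ᵥ x + b1) := by
      intro x hx
      have := hf (h x) ⟨x, (hmem x).2 hx, rfl⟩
      rw [hfc] at this
      exact hf0.trans this
    have hcne : c ≠ 0 := by
      intro hc0
      have := hpos 0 (fun j => by simpa using hr0 n)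
      rw [hc0] at this
      simp at this
    have hcn : 0 < ‖c‖ := norm_pos_iff.2 hcne
    refine ⟨‖c‖⁻¹ • c, ?_, fun x hx => ?_⟩
    · rw [norm_smul, norm_inv, norm_norm, inv_mul_cancel₀ hcn.ne']
    · have := hpos x hx
      simp only [Prod.smul_fst, Prod.smul_snd, smul_eq_mul]
      have e : ‖c‖⁻¹ * c.1 * (g0 ⬝ᵥ x + b0) + ‖c‖⁻¹ * c.2 * (g1 ⬝ᵥ x + b1) =
          ‖c‖⁻¹ * (c.1 * (g0 ⬝ᵥ x + b0) + c.2 * (g1 ⬝ᵥ x + b1)) := by ring
      rw [e]
      exact mul_nonneg (by positivity) this.le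
  choose c hc1 hc2 using hex
  obtain ⟨a, ha, φ, hφ, hlim⟩ := (isCompact_sphere (0 : ℝ × ℝ) 1).tendsto_subseq
    (fun n => by rw [mem_sphere_zero_iff_norm]; exact hc1 n)
  rw [mem_sphere_zero_iff_norm] at ha
  refine ⟨a.1, a.2, ?_, fun x hx => ?_⟩
  · by_contra hcon
    push Not at hcon
    have : a = 0 := Prod.ext hcon.1 hcon.2
    rw [this, norm_zero] at ha
    exact zero_ne_one ha
  · -- pass to the limit along `r n • x`
    have hrlim : Tendsto r atTop (𝓝 1) := by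
      have := tendsto_one_div_add_atTop_nhds_zero_nat (𝕜 := ℝ)
      have h2 := this.const_sub 1
      simpa [hr] using h2
    have hrφ : Tendsto (fun n => r (φ n)) atTop (𝓝 1) := hrlim.comp hφ.tendsto_atTop
    have hx' : ∀ n, 0 ≤ (c (φ n)).1 * (g0 ⬝ᵥ (r (φ n) • x) + b0) +
        (c (φ n)).2 * (g1 ⬝ᵥ (r (φ n) • x) + b1) := by
      intro n
      refine hc2 (φ n) _ (fun j => ?_)
      simp only [Pi.smul_apply, smul_eq_mul]
      rw [abs_mul, abs_of_nonneg (hr0 _)]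
      have := mul_le_mul_of_nonneg_left (hx j) (hr0 (φ n))
      linarith
    have hl1 : Tendsto (fun n => (c (φ n)).1) atTop (𝓝 a.1) :=
      (continuous_fst.tendsto a).comp hlim
    have hl2 : Tendsto (fun n => (c (φ n)).2) atTop (𝓝 a.2) :=
      (continuous_snd.tendsto a).comp hlim
    have hg : ∀ g : ι → ℝ, ∀ b : ℝ, Tendsto (fun n => g ⬝ᵥ (r (φ n) • x) + b) atTop
        (𝓝 (g ⬝ᵥ x + b)) := by
      intro g b
      have h1 : ∀ n, g ⬝ᵥ (r (φ n) • x) + b = r (φ n) * (g ⬝ᵥ x) + b := fun n => by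
        rw [dotProduct_smul, smul_eq_mul]
      simp only [h1]
      have := (hrφ.mul_const (g ⬝ᵥ x)).add_const b
      rwa [one_mul] at this
    have hL := (hl1.mul (hg g0 b0)).add (hl2.mul (hg g1 b1))
    exact ge_of_tendsto' hL hx'

/-- The cube cut by two slabs. -/
theorem cov_coord {g : Fin 2 → ι → ℝ} {β : Fin 2 → ℝ} (hg : ∀ l j, |g l j| ≤ 1) (y0 : ι → ℝ)
    (hy0 : ∀ j, |y0 j| ≤ 1) (hy0' : ∀ l, |g l ⬝ᵥ y0 + β l| < 1) :
    Cov (2 ^ Fintype.card ι) {x : ι → ℝ | (∀ j, |x j| ≤ 1) ∧ ∀ l, |g l ⬝ᵥ x + β l| ≤ 1} := by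
  rcases dicho (g 0) (g 1) (β 0) (β 1) with ⟨q, hq, h0, h1⟩ | ⟨c0, c1, hc, hpos⟩
  · refine cov_caseI hg q hq (fun l => ?_)
    fin_cases l
    · exact h0
    · exact h1
  · -- the functional with the larger coefficient
    have main : ∀ (f0 f1 : ι → ℝ) (e0 e1 d0 d1 : ℝ), |d1| ≤ |d0| → d0 ≠ 0 →
        (∀ x : ι → ℝ, (∀ j, |x j| ≤ 1) → 0 ≤ d0 * (f0 ⬝ᵥ x + e0) + d1 * (f1 ⬝ᵥ x + e1)) →
        (∀ j, |f1 j| ≤ 1) → |f0 ⬝ᵥ y0 + e0| < 1 → |f1 ⬝ᵥ y0 + e1| < 1 →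
        Cov (2 ^ Fintype.card ι) {x : ι → ℝ | (∀ j, |x j| ≤ 1) ∧ |f0 ⬝ᵥ x + e0| ≤ 1 ∧
          |f1 ⬝ᵥ x + e1| ≤ 1} := by
      intro f0 f1 e0 e1 d0 d1 hd hd0 hp hf1 hf0y hf1y
      -- sign of d0
      obtain ⟨s, hs, hsd⟩ : ∃ s : ℝ, (s = 1 ∨ s = -1) ∧ s * d0 = |d0| := by
        rcases le_total 0 d0 with h | h
        · exact ⟨1, Or.inl rfl, by rw [one_mul, abs_of_nonneg h]⟩
        · exact ⟨-1, Or.inr rfl, by rw [abs_of_nonpos h]; ring⟩
      have hss : s * s = 1 := by rcases hs with h | h <;> rw [h] <;> norm_num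
      have hdpos : 0 < |d0| := abs_pos.2 hd0
      have hset : {x : ι → ℝ | (∀ j, |x j| ≤ 1) ∧ |f0 ⬝ᵥ x + e0| ≤ 1 ∧ |f1 ⬝ᵥ x + e1| ≤ 1} =
          {x : ι → ℝ | (∀ j, |x j| ≤ 1) ∧ (s • f0) ⬝ᵥ x + s * e0 ≤ 1 ∧ |f1 ⬝ᵥ x + e1| ≤ 1} := by
        ext x
        simp only [Set.mem_ofPred_eq, smul_dotProduct, smul_eq_mul]
        constructor
        · rintro ⟨h1, h2, h3⟩
          refine ⟨h1, ?_, h3⟩
          have h4 := abs_le.1 h2
          rcases hs with h | h <;> rw [h] <;> linarith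
        · rintro ⟨h1, h2, h3⟩
          refine ⟨h1, ?_, h3⟩
          have h4 := hp x h1
          have h5 : -|d1| ≤ -(d1 * (f1 ⬝ᵥ x + e1)) := by
            have h6 : |d1 * (f1 ⬝ᵥ x + e1)| ≤ |d1| := by
              rw [abs_mul]
              exact mul_le_of_le_one_right (abs_nonneg _) h3
            have := (abs_le.1 h6).2
            linarith
          have h7 : d0 * (f0 ⬝ᵥ x + e0) = |d0| * (s * (f0 ⬝ᵥ x + e0)) := by
            rw [← hsd]; linear_combination (-(d0 * (f0 ⬝ᵥ x + e0))) * hss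
          have h8 : -|d0| ≤ |d0| * (s * (f0 ⬝ᵥ x + e0)) := by linarith
          have h9 : -1 ≤ s * (f0 ⬝ᵥ x + e0) := by
            by_contra hcon
            push Not at hcon
            have := mul_lt_mul_of_pos_left hcon hdpos
            linarith
          rw [abs_le]
          rcases hs with h | h <;> rw [h] at h2 h9 <;> constructor <;> linarith
      rw [hset]
      refine cov_caseII hf1 hy0 ?_ hf1y
      have h4 := abs_lt.1 hf0y
      rw [smul_dotProduct, smul_eq_mul]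
      rcases hs with h | h <;> rw [h] <;> linarith
    rcases le_total |c1| |c0| with hle | hle
    · have hc0 : c0 ≠ 0 := by
        intro h
        rw [h, abs_zero] at hle
        have : c1 = 0 := abs_eq_zero.1 (le_antisymm hle (abs_nonneg _))
        rcases hc with h' | h'
        · exact h' h
        · exact h' this
      have := main (g 0) (g 1) (β 0) (β 1) c0 c1 hle hc0 hpos (hg 1) (hy0' 0) (hy0' 1)
      have e : {x : ι → ℝ | (∀ j, |x j| ≤ 1) ∧ ∀ l, |g l ⬝ᵥ x + β l| ≤ 1} =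
          {x : ι → ℝ | (∀ j, |x j| ≤ 1) ∧ |g 0 ⬝ᵥ x + β 0| ≤ 1 ∧ |g 1 ⬝ᵥ x + β 1| ≤ 1} := by
        ext x
        simp only [Set.mem_ofPred_eq, Fin.forall_fin_two]
      rw [e]; exact this
    · have hc1 : c1 ≠ 0 := by
        intro h
        rw [h, abs_zero] at hle
        have : c0 = 0 := abs_eq_zero.1 (le_antisymm hle (abs_nonneg _))
        rcases hc with h' | h'
        · exact h' this
        · exact h' h
      have := main (g 1) (g 0) (β 1) (β 0) c1 c0 hle hc1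
        (fun x hx => by have := hpos x hx; linarith) (hg 0) (hy0' 1) (hy0' 0)
      have e : {x : ι → ℝ | (∀ j, |x j| ≤ 1) ∧ ∀ l, |g l ⬝ᵥ x + β l| ≤ 1} =
          {x : ι → ℝ | (∀ j, |x j| ≤ 1) ∧ |g 1 ⬝ᵥ x + β 1| ≤ 1 ∧ |g 0 ⬝ᵥ x + β 0| ≤ 1} := by
        ext x
        simp only [Set.mem_ofPred_eq, Fin.forall_fin_two]
        tauto
      rw [e]; exact this

end Pool.Agent.TH349.Had
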