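import Mathlib

set_option autoImplicit false

/-!
Choice of a basis of maximal determinant among finitely many functionals.
-/

open Matrix Module

namespace Pool.Agent.TH349.Had

variable {E : Type*} [AddCommGroup E] [Module ℝ E] [FiniteDimensional ℝ E]

theorem det_updateRow_one {d : ℕ} (j : Fin d) (v : Fin d → ℝ) :
    (Matrix.updateRow (1 : Matrix (Fin d) (Fin d) ℝ) j v).det = v j := by
  have h : Matrix.cramer (1 : Matrix (Fin d) (Fin d) ℝ) v = v := by
    rw [Matrix.cramer_one]; rfl
  have h2 := congrFun h j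
  rw [Matrix.cramer_apply] at h2
  rw [← Matrix.det_transpose, ← Matrix.updateCol_transpose, Matrix.transpose_one]
  exact h2

/-- evaluation of `d` functionals -/
def ev {d : ℕ} (f : Fin d → (E →ₗ[ℝ] ℝ)) : E →ₗ[ℝ] (Fin d → ℝ) := LinearMap.pi f

/-- Among functionals with trivial common kernel there are `d` independent ones. -/
theorem exists_indep {d n : ℕ} (hd : finrank ℝ E = d) (φ : Fin n → (E →ₗ[ℝ] ℝ))
    (hφ : ∀ w, (∀ i, φ i w = 0) → w = 0) :
    ∃ e : Fin d → Fin n, Function.Bijective (ev (fun j => φ (e j))) := by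
  classical
  obtain ⟨κ, a, ha, hspan, hli⟩ := exists_linearIndependent' ℝ φ
  have : Finite κ := Finite.of_injective a ha
  have := Fintype.ofFinite κ
  let T : E →ₗ[ℝ] (κ → ℝ) := LinearMap.pi (fun k => φ (a k))
  have hT : Function.Injective T := by
    rw [injective_iff_map_eq_zero]
    intro w hw
    refine hφ w (fun i => ?_)
    have hi : φ i ∈ Submodule.span ℝ (Set.range (φ ∘ a)) := by
      rw [hspan]; exact Submodule.subset_span ⟨i, rfl⟩
    have hle : Submodule.span ℝ (Set.range (φ ∘ a)) ≤
        LinearMap.ker (LinearMap.applyₗ (R := ℝ) w : (E →ₗ[ℝ] ℝ) →ₗ[ℝ] ℝ) := by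
      rw [Submodule.span_le]
      rintro _ ⟨k, rfl⟩
      have := congrFun hw k
      simpa [T] using this
    have := hle hi
    simpa using this
  have h1 : d ≤ Fintype.card κ := by
    have := LinearMap.finrank_le_finrank_of_injective hT
    simpa [hd] using this
  have h2 : Fintype.card κ ≤ d := by
    have := hli.fintype_card_le_finrank
    rw [show finrank ℝ (E →ₗ[ℝ] ℝ) = finrank ℝ (Module.Dual ℝ E) from rfl,
      Subspace.dual_finrank_eq, hd] at this
    exact this
  have h3 : Fintype.card κ = Fintype.card (Fin d) := by rw [Fintype.card_fin]; omega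
  let θ : κ ≃ Fin d := Fintype.equivOfCardEq h3
  refine ⟨fun j => a (θ.symm j), ?_⟩
  have hinj : Function.Injective (ev (fun j => φ (a (θ.symm j)))) := by
    rw [injective_iff_map_eq_zero]
    intro w hw
    apply (injective_iff_map_eq_zero T).1 hT
    ext k
    have := congrFun hw (θ k)
    simpa [ev, T] using this
  refine ⟨hinj, ?_⟩
  exact (LinearMap.injective_iff_surjective_of_finrank_eq_finrank (by simp [hd])).1 hinj

/-- A basis of functionals in which all the functionals have coefficients at most one. -/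
theorem exists_frame {d n : ℕ} (hd : finrank ℝ E = d) (φ : Fin n → (E →ₗ[ℝ] ℝ))
    (hφ : ∀ w, (∀ i, φ i w = 0) → w = 0) :
    ∃ (e : Fin d → Fin n) (Ψ : E ≃ₗ[ℝ] (Fin d → ℝ)) (G : Fin n → Fin d → ℝ),
      Function.Injective e ∧ (∀ x j, Ψ x j = φ (e j) x) ∧ (∀ i x, φ i x = G i ⬝ᵥ Ψ x) ∧
      ∀ i j, |G i j| ≤ 1 := by
  classical
  let b : Basis (Fin d) ℝ E := Module.finBasisOfFinrankEq ℝ E hd
  let M : (Fin d → Fin n) → Matrix (Fin d) (Fin d) ℝ := fun e => Matrix.of fun j k => φ (e j) (b k)
  -- nonzero determinant iff bijective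
  have hdet : ∀ e, (M e).det ≠ 0 ↔ Function.Bijective (ev (fun j => φ (e j))) := by
    intro e
    have hM : LinearMap.toMatrix b (Pi.basisFun ℝ (Fin d)) (ev (fun j => φ (e j))) = M e := by
      ext j k
      simp [LinearMap.toMatrix_apply, ev, M]
    constructor
    · intro h
      have hu : IsUnit (M e).det := isUnit_iff_ne_zero.2 h
      rw [← hM] at hu
      exact (LinearEquiv.ofIsUnitDet hu).bijective
    · intro h
      let L : E ≃ₗ[ℝ] (Fin d → ℝ) := LinearEquiv.ofBijective _ h
      have := LinearEquiv.isUnit_det L b (Pi.basisFun ℝ (Fin d))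
      have h2 : LinearMap.toMatrix b (Pi.basisFun ℝ (Fin d)) (L : E →ₗ[ℝ] (Fin d → ℝ)) = M e := by
        rw [← hM]; rfl
      rw [h2] at this
      exact this.ne_zero
  obtain ⟨e₀, he₀⟩ := exists_indep hd φ hφ
  obtain ⟨e, -, he⟩ := Finset.exists_max_image (Finset.univ : Finset (Fin d → Fin n))
    (fun e => |(M e).det|) ⟨e₀, by simp⟩
  have hpos : 0 < |(M e).det| :=
    (abs_pos.2 ((hdet e₀).2 he₀)).trans_le (he e₀ (by simp))
  have hbij := (hdet e).1 (abs_pos.1 hpos)
  let Ψ : E ≃ₗ[ℝ] (Fin d → ℝ) := LinearEquiv.ofBijective _ hbij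
  have hΨ : ∀ x j, Ψ x j = φ (e j) x := fun x j => rfl
  let G : Fin n → Fin d → ℝ := fun i j => φ i (Ψ.symm (Pi.single j 1))
  have hG : ∀ i x, φ i x = G i ⬝ᵥ Ψ x := by
    intro i x
    have h1 : x = ∑ j, Ψ x j • Ψ.symm (Pi.single j 1) := by
      apply Ψ.injective
      rw [map_sum]
      simp only [map_smul, LinearEquiv.apply_symm_apply]
      ext k
      simp [Finset.sum_apply, Pi.single_apply]
    conv_lhs => rw [h1]
    rw [map_sum]
    simp only [map_smul, smul_eq_mul, dotProduct, G]
    exact Finset.sum_congr rfl fun j _ => mul_comm _ _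
  refine ⟨e, Ψ, G, ?_, hΨ, hG, fun i j => ?_⟩
  · intro j k hjk
    by_contra hne
    have h1 := hΨ (Ψ.symm (Pi.single j 1)) j
    have h2 := hΨ (Ψ.symm (Pi.single j 1)) k
    rw [LinearEquiv.apply_symm_apply] at h1 h2
    rw [hjk, ← h2] at h1
    simp [Ne.symm hne] at h1
  · -- maximality
    have h1 := he (Function.update e j i) (by simp)
    have h2 : M (Function.update e j i) =
        Matrix.updateRow (1 : Matrix (Fin d) (Fin d) ℝ) j (G i) * M e := by
      ext k l
      rw [Matrix.mul_apply]
      by_cases hk : k = j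
      · subst hk
        simp only [Matrix.updateRow_self]
        show φ (Function.update e k i k) (b l) = _
        rw [Function.update_self, hG i (b l), dotProduct]
        exact Finset.sum_congr rfl fun m _ => by rw [hΨ]; rfl
      · simp only [Matrix.updateRow_ne hk]
        show φ (Function.update e j i k) (b l) = _
        rw [Function.update_of_ne hk]
        simp [Matrix.one_apply, M]
    rw [h2, Matrix.det_mul, det_updateRow_one, abs_mul] at h1
    by_contra hcon
    push Not at hcon
    nlinarith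

end Pool.Agent.TH349.Had
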