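import Mathlib
import Pool.Agent.TH349.Had.Slab
import Pool.Agent.TH349.Had.Frame
import Pool.Agent.TH349.Had.Coord

set_option autoImplicit false

/-!
Intersections of at most `d + 2` slabs.
-/

open Matrix Module Set
open Pool.Agent.W396.Il (Ill Cov cov_of_ill)

namespace Pool.Agent.TH349.Had

variable {E : Type*} [NormedAddCommGroup E] [NormedSpace ℝ E] [FiniteDimensional ℝ E]

omit [FiniteDimensional ℝ E] in
/-- The functionals of a compact nonempty intersection of slabs have no common kernel. -/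
theorem no_kernel {ι : Type*} {φ : ι → (E →ₗ[ℝ] ℝ)} {c : ι → ℝ} (hK : IsCompact (Sl φ c))
    {x : E} (hx : x ∈ Sl φ c) (w : E) (hw : ∀ i, φ i w = 0) : w = 0 := by
  by_contra hne
  obtain ⟨R, hR⟩ := hK.isBounded.exists_norm_le
  have hwn : 0 < ‖w‖ := norm_pos_iff.2 hne
  have h1 : x + ((R + ‖x‖ + 1) / ‖w‖) • w ∈ Sl φ c := by
    intro i
    rw [map_add, map_smul, hw i, smul_zero, add_zero]
    exact hx i
  have h2 := hR _ h1
  have hR0 : 0 ≤ R := (norm_nonneg x).trans (hR x hx)
  have h3 : ‖((R + ‖x‖ + 1) / ‖w‖) • w‖ = R + ‖x‖ + 1 := by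
    rw [norm_smul, Real.norm_eq_abs, abs_of_pos (by positivity)]
    field_simp
  have h4 := norm_sub_le (x + ((R + ‖x‖ + 1) / ‖w‖) • w) x
  rw [add_sub_cancel_left, h3] at h4
  linarith

/-- At most two elements outside of the range. -/
theorem exists_pair {d n : ℕ} (hn : n ≤ d + 2) (e : Fin d → Fin n) (he : Function.Injective e)
    (G : Fin n → Fin d → ℝ) (γ : Fin n → ℝ) (hG : ∀ i j, |G i j| ≤ 1) :
    ∃ (g : Fin 2 → Fin d → ℝ) (β : Fin 2 → ℝ), (∀ l j, |g l j| ≤ 1) ∧
      (∀ i, (∃ j, e j = i) ∨ ∃ l, G i = g l ∧ γ i = β l) ∧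
      ∀ l, (g l = 0 ∧ β l = 0) ∨ ∃ i, G i = g l ∧ γ i = β l := by
  classical
  set C : Finset (Fin n) := (Finset.univ.image e)ᶜ with hC
  have hCm : ∀ i, i ∈ C ↔ ¬ ∃ j, e j = i := fun i => by simp [hC]
  have hcard : C.card ≤ 2 := by
    rw [hC, Finset.card_compl, Finset.card_image_of_injective _ he, Finset.card_univ,
      Fintype.card_fin, Fintype.card_fin]
    omega
  have h3 : C.card = 0 ∨ C.card = 1 ∨ C.card = 2 := by omega
  rcases h3 with h | h | h
  · refine ⟨fun _ _ => 0, fun _ => 0, fun _ _ => by simp, fun i => Or.inl ?_,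
      fun l => Or.inl ⟨rfl, rfl⟩⟩
    by_contra hi
    have := (hCm i).2 hi
    rw [Finset.card_eq_zero.1 h] at this
    simp at this
  · obtain ⟨a, ha⟩ := Finset.card_eq_one.1 h
    refine ⟨fun _ => G a, fun _ => γ a, fun _ j => hG a j, fun i => ?_,
      fun l => Or.inr ⟨a, rfl, rfl⟩⟩
    by_cases hi : ∃ j, e j = i
    · exact Or.inl hi
    · have := (hCm i).2 hi
      rw [ha, Finset.mem_singleton] at this
      exact Or.inr ⟨0, by rw [this], by rw [this]⟩
  · obtain ⟨a, b, -, hab⟩ := Finset.card_eq_two.1 h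
    refine ⟨fun l => if l = 0 then G a else G b, fun l => if l = 0 then γ a else γ b,
      fun l j => ?_, fun i => ?_, fun l => ?_⟩
    · by_cases hl : l = 0
      · simp only [hl, if_true]; exact hG a j
      · simp only [hl, if_false]; exact hG b j
    · by_cases hi : ∃ j, e j = i
      · exact Or.inl hi
      · have := (hCm i).2 hi
        rw [hab, Finset.mem_insert, Finset.mem_singleton] at this
        rcases this with h1 | h1
        · exact Or.inr ⟨0, by simp [h1], by simp [h1]⟩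
        · exact Or.inr ⟨1, by simp [h1], by simp [h1]⟩
    · by_cases hl : l = 0
      · exact Or.inr ⟨a, by simp [hl], by simp [hl]⟩
      · exact Or.inr ⟨b, by simp [hl], by simp [hl]⟩

/-- Coverings and affine coordinates. -/
theorem cov_transfer {ι : Type*} [Fintype ι] (Ψ : E ≃ₗ[ℝ] (ι → ℝ)) (q : E) (K' : Set (ι → ℝ))
    {N : ℕ} (h : Cov N K') : Cov N {x : E | Ψ (x - q) ∈ K'} := by
  classical
  obtain ⟨T, hT, hK⟩ := h
  let Φ : E ≃L[ℝ] (ι → ℝ) := Ψ.toContinuousLinearEquiv
  have hΦ : ∀ x, Φ x = Ψ x := fun _ => rfl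
  let H : E ≃ₜ (ι → ℝ) := (Homeomorph.subRight q).trans Φ.toHomeomorph
  have hH : ∀ x, H x = Ψ (x - q) := fun _ => rfl
  have hset : {x : E | Ψ (x - q) ∈ K'} = H ⁻¹' K' := rfl
  have hint : interior {x : E | Ψ (x - q) ∈ K'} = H ⁻¹' (interior K') := by
    rw [hset]; exact (H.preimage_interior K').symm
  refine ⟨T.image Ψ.symm, Finset.card_image_le.trans hT, fun x hx => ?_⟩
  obtain ⟨t, ht, z, hz, hzx⟩ := mem_iUnion₂.1 (hK hx)
  refine mem_iUnion₂.2 ⟨Ψ.symm t, Finset.mem_image_of_mem _ ht, x - Ψ.symm t, ?_, by simp⟩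
  rw [hint]
  show H (x - Ψ.symm t) ∈ interior K'
  rw [hH]
  have e : Ψ (x - Ψ.symm t - q) = z := by
    have e1 : x - Ψ.symm t - q = (x - q) - Ψ.symm t := by abel
    rw [e1, map_sub, LinearEquiv.apply_symm_apply]
    have : t + z = Ψ (x - q) := hzx
    rw [← this]; abel
  rw [e]; exact hz

omit [FiniteDimensional ℝ E] in
/-- interior points satisfy the strict inequalities -/
theorem strict_of_interior {ι : Type*} {φ : ι → (E →ₗ[ℝ] ℝ)} {c : ι → ℝ}
    (hc : ∀ i, φ i = 0 → c i = 0) {y : E} (hy : y ∈ interior (Sl φ c)) (i : ι) :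
    |φ i y - c i| < 1 := by
  by_cases h0 : φ i = 0
  · rw [h0, hc i h0]; simp
  · obtain ⟨w, hw⟩ : ∃ w, φ i w ≠ 0 := by
      by_contra hcon
      push Not at hcon
      exact h0 (LinearMap.ext hcon)
    have hnb : Sl φ c ∈ nhds y := mem_interior_iff_mem_nhds.1 hy
    have hcont : Filter.Tendsto (fun t : ℝ => y + t • w) (nhds 0) (nhds y) := by
      have : Continuous fun t : ℝ => y + t • w := by fun_prop
      have h := this.tendsto 0
      simpa using h
    have hev := hcont.eventually hnb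
    have hev' : ∀ᶠ t in nhds (0 : ℝ), y + t • w ∈ Sl φ c ∧ y + (-t) • w ∈ Sl φ c := by
      have h2 : Filter.Tendsto (fun t : ℝ => -t) (nhds 0) (nhds 0) := by
        have := (continuous_neg (G := ℝ)).tendsto 0
        simpa using this
      exact hev.and (h2.eventually hev)
    obtain ⟨ε, hε, hb⟩ := Metric.eventually_nhds_iff.1 hev'
    have h3 := hb (y := ε / 2) (by rw [Real.dist_eq, sub_zero, abs_of_pos (by linarith)]; linarith)
    have h4 := h3.1 i
    have h5 := h3.2 i
    rw [map_add, map_smul, smul_eq_mul] at h4 h5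
    rw [abs_le] at h4 h5
    have hpos : 0 < |ε / 2 * φ i w| := abs_pos.2 (mul_ne_zero (by linarith) hw)
    rw [abs_lt]
    rcases abs_cases (ε / 2 * φ i w) with ⟨h6, _⟩ | ⟨h6, _⟩ <;> constructor <;> linarith [h4.1, h4.2, h5.1, h5.2]

/-- **Intersections of at most `d + 2` slabs.** -/
theorem cov_slabs {d n : ℕ} (hd : finrank ℝ E = d) (hn : n ≤ d + 2) (φ : Fin n → (E →ₗ[ℝ] ℝ))
    (c : Fin n → ℝ) (hK : IsCompact (Sl φ c)) (hKi : (interior (Sl φ c)).Nonempty) :
    Cov (2 ^ d) (Sl φ c) := by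
  classical
  -- remove the zero functionals
  set c' : Fin n → ℝ := fun i => if φ i = 0 then 0 else c i with hc'
  obtain ⟨y, hy⟩ := hKi
  have hSl : Sl φ c = Sl φ c' := by
    have hy' := interior_subset hy
    ext x
    constructor
    · intro h i
      by_cases h0 : φ i = 0
      · simp [hc', h0]
      · simp only [hc', if_neg h0]; exact h i
    · intro h i
      by_cases h0 : φ i = 0
      · have := hy' i
        rw [h0] at this ⊢
        simpa using this
      · have := h i
        simpa only [hc', if_neg h0] using this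
  rw [hSl] at hK hy ⊢
  have hc0 : ∀ i, φ i = 0 → c' i = 0 := fun i h => by simp [hc', h]
  have hstrict := strict_of_interior hc0 hy
  obtain ⟨e, Ψ, G, he, hΨ, hG, hG1⟩ := exists_frame hd φ (no_kernel hK (interior_subset hy))
  -- the point where the basis slabs are centred
  set q : E := Ψ.symm (fun j => c' (e j)) with hq
  have hval : ∀ i x, φ i x - c' i = G i ⬝ᵥ Ψ (x - q) + (φ i q - c' i) := by
    intro i x
    rw [← hG, map_sub]; ring
  have hvalb : ∀ j x, φ (e j) x - c' (e j) = Ψ (x - q) j := by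
    intro j x
    rw [hΨ, map_sub]
    have : φ (e j) q = c' (e j) := by
      rw [← hΨ, hq, LinearEquiv.apply_symm_apply]
    rw [this]
  obtain ⟨g, β, hg1, hg, hg'⟩ := exists_pair hn e he G (fun i => φ i q - c' i) hG1
  have h := cov_transfer Ψ q _ (cov_coord (g := g) (β := β) hg1 (Ψ (y - q))
    (fun j => by rw [← hvalb]; exact (hstrict _).le)
    (fun l => by
      rcases hg' l with ⟨h1, h2⟩ | ⟨i, h1, h2⟩
      · rw [h1, h2]; simp
      · rw [← h1, ← h2, ← hval]; exact hstrict i))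
  rw [Fintype.card_fin] at h
  convert h using 1
  ext x
  simp only [Set.mem_ofPred_eq]
  constructor
  · intro hx
    refine ⟨fun j => by rw [← hvalb]; exact hx _, fun l => ?_⟩
    rcases hg' l with ⟨h1, h2⟩ | ⟨i, h1, h2⟩
    · rw [h1, h2]; simp
    · rw [← h1, ← h2, ← hval]; exact hx i
  · rintro ⟨h1, h2⟩ i
    rcases hg i with ⟨j, rfl⟩ | ⟨l, hl, hl'⟩
    · rw [hvalb]; exact h1 j
    · rw [hval, hl, hl']; exact h2 l

end Pool.Agent.TH349.Had
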