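import Mathlib
import Pool.Agent.TH349.Had.Asym2

set_option autoImplicit false

/-!
The cube cut by one slab: `2 ^ d - 1` directions unless it is a parallelotope.
-/

open Matrix Set
open Pool.Agent.W396.Il (Ill Cov cov_of_ill)

namespace Pool.Agent.TH349.Had

variable {ι : Type*} [Fintype ι] [DecidableEq ι]

/-- intersection of as many slabs as coordinates -/
def Para (K : Set (ι → ℝ)) : Prop :=
  ∃ (P : ι → ι → ℝ) (a : ι → ℝ), K = {x | ∀ j, |P j ⬝ᵥ x - a j| ≤ 1}

/-- the cube cut by one slab -/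
def Ks (g : ι → ℝ) (β : ℝ) : Set (ι → ℝ) := {x | (∀ j, |x j| ≤ 1) ∧ |g ⬝ᵥ x + β| ≤ 1}

omit [DecidableEq ι] in
theorem Ks_neg (g : ι → ℝ) (β : ℝ) : Ks (-g) (-β) = Ks g β := by
  ext x
  simp only [Ks, Set.mem_ofPred_eq, neg_dotProduct]
  rw [← neg_add, abs_neg]

/-- the vertex lemma for one slab -/
theorem cov_Ks_of (g : ι → ℝ) (β : ℝ) (S : Finset (ι → Bool)) (V : (ι → Bool) → ι → ℝ)
    (hV : ∀ τ j, sg (τ j) * V τ j < 0)
    (h : ∀ y : ι → ℝ, (∀ j, |y j| ≤ 1) → |g ⬝ᵥ y + β| ≤ 1 →
      (∀ j k, |y j| ≠ 1 → |y k| ≠ 1 → j = k) →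
      (∀ j, |y j| ≠ 1 → g j ≠ 0 ∧ |g ⬝ᵥ y + β| = 1) →
      ∃ τ ∈ S, (∀ j, |y j| = 1 → sg (τ j) = y j) ∧
        (|g ⬝ᵥ y + β| = 1 → (g ⬝ᵥ y + β) * (g ⬝ᵥ V τ) < 0)) :
    Cov S.card (Ks g β) := by
  set F : Bool → ι → ℝ := fun b => sg b • g with hF
  set B : Bool → ℝ := fun b => 1 - sg b * β with hB
  have hset : Ks g β = Cu F B := by
    ext x
    simp only [Ks, Cu, Set.mem_ofPred_eq, hF, hB, Bool.forall_bool, smul_dotProduct, smul_eq_mul,
      sg_true, sg_false, abs_le]
    constructor
    · rintro ⟨h1, h2, h3⟩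
      exact ⟨h1, by linarith, by linarith⟩
    · rintro ⟨h1, h2, h3⟩
      exact ⟨h1, by linarith, by linarith⟩
  rw [hset]
  have eT : ∀ (b : Bool) (y : ι → ℝ), F b ⬝ᵥ y = B b →
      |g ⬝ᵥ y + β| = 1 ∧ g ⬝ᵥ y + β = sg b := by
    intro b y hb
    simp only [hF, hB, smul_dotProduct, smul_eq_mul] at hb
    rcases sg_or b with h1 | h1 <;> rw [h1] at hb ⊢
    · have : g ⬝ᵥ y + β = 1 := by linarith
      rw [this]; norm_num
    · have : g ⬝ᵥ y + β = -1 := by linarith
      rw [this]; norm_num
  refine cov_of_vertices (F := F) (b := B) S V (fun y hy hver => ?_)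
  have hy' : y ∈ Ks g β := by rw [hset]; exact hy
  have hver' : ∀ w : ι → ℝ, (∀ j, |y j| = 1 → w j = 0) →
      (|g ⬝ᵥ y + β| = 1 → g ⬝ᵥ w = 0) → w = 0 := by
    intro w hw1 hw2
    refine hver w hw1 (fun b hb => ?_)
    simp only [hF, smul_dotProduct, smul_eq_mul]
    rw [hw2 (eT b y hb).1, mul_zero]
  have hfree : ∀ j, |y j| ≠ 1 → g j ≠ 0 ∧ |g ⬝ᵥ y + β| = 1 := by
    intro j hj
    have hs : ∀ k, |y k| = 1 → (Pi.single j (1 : ℝ) : ι → ℝ) k = 0 := by
      intro k hk
      have : k ≠ j := by rintro rfl; exact hj hk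
      simp [this]
    constructor
    · intro h0
      have := congrFun (hver' (Pi.single j 1) hs (fun _ => by simp [h0])) j
      simp at this
    · by_contra h0
      have := congrFun (hver' (Pi.single j 1) hs (fun h => absurd h h0)) j
      simp at this
  have hone : ∀ j k, |y j| ≠ 1 → |y k| ≠ 1 → j = k := by
    intro j k hj hk
    by_contra hjk
    set w : ι → ℝ := g k • Pi.single j (1 : ℝ) - g j • Pi.single k (1 : ℝ) with hw
    have h0 : w = 0 := by
      refine hver' w (fun l hl => ?_) (fun _ => ?_)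
      · have h1 : l ≠ j := by rintro rfl; exact hj hl
        have h2 : l ≠ k := by rintro rfl; exact hk hl
        simp [hw, h1, h2]
      · rw [hw, dotProduct_sub, dotProduct_smul, dotProduct_smul]
        simp only [dotProduct_single, mul_one, smul_eq_mul]
        ring
    have := congrFun h0 j
    simp only [hw, Pi.sub_apply, Pi.smul_apply, Pi.single_eq_same, smul_eq_mul, mul_one,
      Pi.single_eq_of_ne hjk, mul_zero, sub_zero, Pi.zero_apply] at this
    exact (hfree k hk).1 this
  obtain ⟨τ, hτS, h1, h2⟩ := h y hy'.1 hy'.2 hone hfree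
  refine ⟨τ, hτS, fun j hj => by rw [← h1 j hj]; exact hV τ j, fun b hb => ?_⟩
  have h3 := h2 (eT b y hb).1
  rw [(eT b y hb).2] at h3
  simpa only [hF, smul_dotProduct, smul_eq_mul] using h3

omit [DecidableEq ι] in
/-- change by rounding down with at most one free coordinate -/
theorem rnd_low {g y : ι → ℝ} (hg : ∀ j, |g j| ≤ 1) (hy : ∀ j, |y j| ≤ 1)
    (h1 : ∀ j k, |y j| ≠ 1 → |y k| ≠ 1 → j = k) :
    g ⬝ᵥ y - 2 < g ⬝ᵥ sv (rnd y (-g)) := by
  have h2 : g ⬝ᵥ sv (rnd y (-g)) = g ⬝ᵥ y + ∑ i ∈ Finset.univ.filter (fun i => |y i| ≠ 1),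
      g i * (sv (rnd y (-g)) i - y i) :=
    dot_sub_of_supp g _ y _ (fun i hi => by
      have : |y i| = 1 := by
        by_contra h
        exact hi (by simp [h])
      exact rnd_tight this)
  rw [h2]
  by_cases hne : ∃ j, |y j| ≠ 1
  · obtain ⟨j, hj⟩ := hne
    have h3 : Finset.univ.filter (fun i => |y i| ≠ 1) = {j} := by
      ext i
      simp only [Finset.mem_filter, Finset.mem_univ, true_and, Finset.mem_singleton]
      exact ⟨fun h => h1 i j h hj, fun h => h ▸ hj⟩
    rw [h3, Finset.sum_singleton]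
    have h4 := abs_lt.1 (lt_of_le_of_ne (hy j) hj)
    have h5 := abs_le.1 (hg j)
    have : -2 < g j * (sv (rnd y (-g)) j - y j) := by
      simp only [sv]
      rcases sg_or (rnd y (-g) j) with h | h <;> rw [h] <;> nlinarith
    linarith
  · push Not at hne
    have h3 : Finset.univ.filter (fun i => |y i| ≠ 1) = ∅ := by
      ext i; simp [hne i]
    rw [h3, Finset.sum_empty]
    linarith

/-- the slab cuts the cube on both sides -/
theorem cov_two_sided {g : ι → ℝ} {β : ℝ} (hg : ∀ j, |g j| ≤ 1) {τp τm : ι → Bool}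
    (hp : 1 < g ⬝ᵥ sv τp + β) (hm : g ⬝ᵥ sv τm + β < -1) :
    Cov (2 ^ Fintype.card ι - 1) (Ks g β) := by
  classical
  have hex : ∀ τ : ι → Bool, ∃ v : ι → ℝ, (∀ j, sg (τ j) * v j < 0) ∧
      (-1 < g ⬝ᵥ sv τ + β → g ⬝ᵥ v < 0) ∧ (g ⬝ᵥ sv τ + β ≤ -1 → 0 < g ⬝ᵥ v) := by
    intro τ
    by_cases h : -1 < g ⬝ᵥ sv τ + β
    · obtain ⟨v, h1, h2⟩ := single g (sv τm) τ (sv_abs _) (by linarith)
      exact ⟨v, h1, fun _ => h2, fun h' => absurd h (by linarith)⟩
    · obtain ⟨v, h1, h2⟩ := single (-g) (sv τp) τ (sv_abs _) (by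
        rw [neg_dotProduct, neg_dotProduct]; linarith)
      rw [neg_dotProduct] at h2
      exact ⟨v, h1, fun h' => absurd h' h, fun _ => by linarith⟩
  choose V hV0 hV1 hV2 using hex
  have h := cov_Ks_of g β (Finset.univ.erase τp) V hV0 (fun y hy hyh h1 h2 => by
    have hle : g ⬝ᵥ sv (rnd y (-g)) ≤ g ⬝ᵥ y := by
      have := rnd_dot (s := -g) hy
      rw [neg_dotProduct, neg_dotProduct] at this
      linarith
    have hlow := rnd_low hg hy h1
    have habs := abs_le.1 hyh
    refine ⟨rnd y (-g), ?_, fun j hj => rnd_tight hj, fun ht => ?_⟩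
    · rw [Finset.mem_erase]
      refine ⟨?_, Finset.mem_univ _⟩
      intro h3
      rw [h3] at hle
      linarith
    · rcases (abs_eq one_pos.le).1 ht with h3 | h3
      · rw [h3, one_mul]
        exact hV1 _ (by linarith)
      · rw [h3]
        have := hV2 (rnd y (-g)) (by linarith)
        linarith)
  simpa [Finset.card_erase_of_mem] using h

/-- the slab cuts the cube on one side -/
theorem cov_one_sided {g y0 : ι → ℝ} {β : ℝ} {τp : ι → Bool}
    (hp : 1 < g ⬝ᵥ sv τp + β) (hm : ∀ τ : ι → Bool, -1 ≤ g ⬝ᵥ sv τ + β)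
    (hy0 : ∀ j, |y0 j| ≤ 1) (hy01 : g ⬝ᵥ y0 + β < 1) {j₁ j₂ : ι} (hj : j₁ ≠ j₂)
    (h₁ : g j₁ ≠ 0) (h₂ : g j₂ ≠ 0) :
    Cov (2 ^ Fintype.card ι - 1) (Ks g β) := by
  classical
  set τs : ι → Bool := fun j => decide (0 ≤ g j) with hτs
  have hτs1 : ∀ j, 0 ≤ sg (τs j) * g j := by
    intro j
    by_cases h : 0 ≤ g j
    · simp only [hτs, decide_eq_true h, sg_true]; linarith
    · simp only [hτs, decide_eq_false h, sg_false]; linarith
  have hτs2 : 1 < g ⬝ᵥ sv τs + β := by
    have := dot_min (-g) τs (fun j => by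
      have := hτs1 j
      simp only [Pi.neg_apply]; linarith) (sv τp) (sv_abs _)
    rw [neg_dotProduct, neg_dotProduct] at this
    linarith
  have hex : ∀ τ : ι → Bool, ∃ v : ι → ℝ, (∀ j, sg (τ j) * v j < 0) ∧
      ((∃ i, 0 < sg (τ i) * g i) → g ⬝ᵥ v < 0) ∧ ((∀ i, sg (τ i) * g i ≤ 0) → 0 < g ⬝ᵥ v) := by
    intro τ
    by_cases h : ∃ i, 0 < sg (τ i) * g i
    · obtain ⟨i, hi⟩ := h
      have hfl : g ⬝ᵥ sv (flip i τ) < g ⬝ᵥ sv τ := by
        have := dot_sub_of_supp g (sv (flip i τ)) (sv τ) {i} (fun k hk => by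
          simp only [sv]; rw [flip_ne (by simpa using hk)])
        rw [this, Finset.sum_singleton]
        simp only [sv]
        rw [flip_self, sg_not]
        linarith
      obtain ⟨v, k1, k2⟩ := single g (sv (flip i τ)) τ (sv_abs _) hfl
      exact ⟨v, k1, fun _ => k2, fun h' => absurd hi (by linarith [h' i])⟩
    · push Not at h
      refine ⟨-(sv τ), neg_sv τ, fun ⟨i, hi⟩ => absurd hi (by linarith [h i]), fun _ => ?_⟩
      rw [dotProduct_neg]
      have h4 : g ⬝ᵥ sv τ < 0 := by
        have e : g ⬝ᵥ sv τ = ∑ i, sg (τ i) * g i := by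
          rw [dotProduct]
          exact Finset.sum_congr rfl fun i _ => by simp only [sv]; ring
        rw [e]
        refine Finset.sum_neg' (fun i _ => h i) ⟨j₁, Finset.mem_univ _, ?_⟩
        refine lt_of_le_of_ne (h j₁) (mul_ne_zero ?_ h₁)
        rcases sg_or (τ j₁) with h | h <;> rw [h] <;> norm_num
      linarith
  choose V hV0 hV1 hV2 using hex
  have hcube : ∀ x : ι → ℝ, (∀ j, |x j| ≤ 1) → -1 ≤ g ⬝ᵥ x + β := by
    intro x hx
    have := rnd_dot (s := -g) hx
    rw [neg_dotProduct, neg_dotProduct] at this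
    have := hm (rnd x (-g))
    linarith
  have h := cov_Ks_of g β (Finset.univ.erase τs) V hV0 (fun y hy hyh h1 h2 => by
    have hle : g ⬝ᵥ sv (rnd y (-g)) ≤ g ⬝ᵥ y := by
      have := rnd_dot (s := -g) hy
      rw [neg_dotProduct, neg_dotProduct] at this
      linarith
    have habs := abs_le.1 hyh
    have hne : ∀ τ : ι → Bool, g ⬝ᵥ sv τ + β ≤ 1 → τ ∈ Finset.univ.erase τs := by
      intro τ hτ
      rw [Finset.mem_erase]
      refine ⟨?_, Finset.mem_univ _⟩
      rintro rfl
      linarith
    by_cases ht : |g ⬝ᵥ y + β| = 1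
    swap
    · exact ⟨rnd y (-g), hne _ (by linarith), fun j hj => rnd_tight hj, fun h => absurd h ht⟩
    rcases (abs_eq one_pos.le).1 ht with h3 | h3
    · by_cases hi : ∃ i, 0 < sg (rnd y (-g) i) * g i
      · exact ⟨rnd y (-g), hne _ (by linarith), fun j hj => rnd_tight hj, fun _ => by
          rw [h3, one_mul]; exact hV1 _ hi⟩
      · push Not at hi
        have hmin := dot_min g (rnd y (-g)) hi y0 hy0
        -- there is a free coordinate
        have hfr : ∃ j, |y j| ≠ 1 := by
          by_contra hcon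
          push Not at hcon
          have : sv (rnd y (-g)) = y := by
            ext j; exact rnd_tight (hcon j)
          rw [this] at hmin
          linarith
        obtain ⟨j, hj'⟩ := hfr
        have hgj := (h2 j hj').1
        have hb : 0 < sg (flip j (rnd y (-g)) j) * g j := by
          rw [flip_self, sg_not]
          have h5 := hi j
          have h6 : sg (rnd y (-g) j) * g j ≠ 0 := by
            refine mul_ne_zero ?_ hgj
            rcases sg_or (rnd y (-g) j) with h | h <;> rw [h] <;> norm_num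
          have h7 := lt_of_le_of_ne h5 h6
          linarith
        refine ⟨flip j (rnd y (-g)), ?_, fun k hk => ?_, fun _ => ?_⟩
        · rw [Finset.mem_erase]
          refine ⟨?_, Finset.mem_univ _⟩
          intro heq
          -- another coordinate with nonzero coefficient
          obtain ⟨i, hij, hgi⟩ : ∃ i, i ≠ j ∧ g i ≠ 0 := by
            by_cases h : j₁ = j
            · exact ⟨j₂, fun h' => hj (h.trans h'.symm), h₂⟩
            · exact ⟨j₁, h, h₁⟩
          have h8 := hi i
          have h9 : sg (rnd y (-g) i) * g i ≠ 0 := by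
            refine mul_ne_zero ?_ hgi
            rcases sg_or (rnd y (-g) i) with h | h <;> rw [h] <;> norm_num
          have h10 := lt_of_le_of_ne h8 h9
          have h11 := hτs1 i
          rw [← heq, flip_ne hij] at h11
          linarith
        · have : k ≠ j := by rintro rfl; exact hj' hk
          rw [flip_ne this]
          exact rnd_tight hk
        · rw [h3, one_mul]
          exact hV1 _ ⟨j, hb⟩
    · -- lower side: the point is a vertex of the cube
      have hall : ∀ i, sg (rnd y (-g) i) * g i ≤ 0 := by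
        intro i
        by_contra hcon
        push Not at hcon
        have hfl : g ⬝ᵥ sv (flip i (rnd y (-g))) < g ⬝ᵥ sv (rnd y (-g)) := by
          have := dot_sub_of_supp g (sv (flip i (rnd y (-g)))) (sv (rnd y (-g))) {i} (fun k hk => by
            simp only [sv]; rw [flip_ne (by simpa using hk)])
          rw [this, Finset.sum_singleton]
          simp only [sv]
          rw [flip_self, sg_not]
          linarith
        have := hm (flip i (rnd y (-g)))
        linarith
      refine ⟨rnd y (-g), hne _ (by linarith), fun j hj => rnd_tight hj, fun _ => ?_⟩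
      rw [h3]
      have := hV2 _ hall
      linarith)
  simpa [Finset.card_erase_of_mem] using h

/-- the slab is parallel to a facet of the cube -/
theorem para_parallel {g y0 : ι → ℝ} {β : ℝ} {j : ι} (hj : ∀ i, i ≠ j → g i = 0)
    (hy0 : ∀ j, |y0 j| < 1) (hy01 : |g ⬝ᵥ y0 + β| < 1) : Para (Ks g β) := by
  by_cases h0 : g j = 0
  · refine ⟨fun i => Pi.single i 1, 0, ?_⟩
    have hg : g = 0 := by
      ext i
      by_cases h : i = j
      · rw [h]; exact h0
      · exact hj i h
    rw [hg, zero_dotProduct, zero_add] at hy01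
    ext x
    simp only [Ks, Set.mem_ofPred_eq, hg, zero_dotProduct, zero_add, single_dotProduct, one_mul,
      Pi.zero_apply, sub_zero]
    exact ⟨fun h => h.1, fun h => ⟨h, hy01.le⟩⟩
  · have hdot : ∀ x : ι → ℝ, g ⬝ᵥ x = g j * x j := by
      intro x
      have hg : g = Pi.single j (g j) := by
        ext i
        by_cases h : i = j
        · subst h; simp
        · rw [hj i h]; simp [h]
      conv_lhs => rw [hg]
      rw [single_dotProduct]
    have hgp : 0 < |g j| := abs_pos.2 h0
    have hiff : ∀ t : ℝ, |g j * t + β| ≤ 1 ↔ -β / g j - 1 / |g j| ≤ t ∧ t ≤ -β / g j + 1 / |g j| := by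
      intro t
      have e : g j * t + β = g j * (t - -β / g j) := by field_simp; ring
      rw [e, abs_mul, mul_comm, ← le_div_iff₀ hgp, abs_le]
      constructor
      · rintro ⟨k1, k2⟩; constructor <;> linarith
      · rintro ⟨k1, k2⟩; constructor <;> linarith
    have hiff' : ∀ t : ℝ, |g j * t + β| < 1 ↔ -β / g j - 1 / |g j| < t ∧ t < -β / g j + 1 / |g j| := by
      intro t
      have e : g j * t + β = g j * (t - -β / g j) := by field_simp; ring
      rw [e, abs_mul, mul_comm, ← lt_div_iff₀ hgp, abs_lt]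
      constructor
      · rintro ⟨k1, k2⟩; constructor <;> linarith
      · rintro ⟨k1, k2⟩; constructor <;> linarith
    set lo := max (-1) (-β / g j - 1 / |g j|) with hlo
    set hi := min 1 (-β / g j + 1 / |g j|) with hhi
    have hlt : lo < hi := by
      have k1 := abs_lt.1 (hy0 j)
      rw [hdot] at hy01
      have k2 := (hiff' (y0 j)).1 hy01
      exact (max_lt k1.1 k2.1).trans (lt_min k1.2 k2.2)
    refine ⟨fun i => if i = j then Pi.single j (2 / (hi - lo)) else Pi.single i 1,
      fun i => if i = j then (hi + lo) / (hi - lo) else 0, ?_⟩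
    ext x
    simp only [Ks, Set.mem_ofPred_eq]
    rw [hdot, hiff]
    have hd : 0 < hi - lo := by linarith
    have hj' : |2 / (hi - lo) * x j - (hi + lo) / (hi - lo)| ≤ 1 ↔ lo ≤ x j ∧ x j ≤ hi := by
      have e : 2 / (hi - lo) * x j - (hi + lo) / (hi - lo) = (2 * x j - (hi + lo)) / (hi - lo) := by
        ring
      rw [e, abs_div, abs_of_pos hd, div_le_one hd, abs_le]
      constructor
      · rintro ⟨k1, k2⟩; constructor <;> linarith
      · rintro ⟨k1, k2⟩; constructor <;> linarith
    constructor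
    · rintro ⟨k1, k2, k3⟩ i
      by_cases h : i = j
      · subst h
        simp only [if_true, single_dotProduct]
        rw [hj']
        have := abs_le.1 (k1 i)
        exact ⟨max_le this.1 k2, le_min this.2 k3⟩
      · simp only [h, if_false, single_dotProduct, one_mul, sub_zero]
        exact k1 i
    · intro h
      have k1 := h j
      simp only [if_true, single_dotProduct] at k1
      rw [hj'] at k1
      refine ⟨fun i => ?_, (le_max_right _ _).trans k1.1, k1.2.trans (min_le_right _ _)⟩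
      by_cases hi' : i = j
      · subst hi'
        rw [abs_le]
        exact ⟨(le_max_left _ _).trans k1.1, k1.2.trans (min_le_left _ _)⟩
      · have := h i
        simpa only [hi', if_false, single_dotProduct, one_mul, sub_zero] using this

/-- **One slab.** -/
theorem cov_one {g y0 : ι → ℝ} {β : ℝ} (hg : ∀ j, |g j| ≤ 1) (hy0 : ∀ j, |y0 j| < 1)
    (hy01 : |g ⬝ᵥ y0 + β| < 1) : Cov (2 ^ Fintype.card ι - 1) (Ks g β) ∨ Para (Ks g β) := by
  classical
  have hy0' : ∀ j, |y0 j| ≤ 1 := fun j => (hy0 j).le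
  have habs := abs_lt.1 hy01
  by_cases hsing : ∃ j, ∀ i, i ≠ j → g i = 0
  · obtain ⟨j, hj⟩ := hsing
    exact Or.inr (para_parallel hj hy0 hy01)
  by_cases hp : ∃ τ : ι → Bool, 1 < g ⬝ᵥ sv τ + β
  · obtain ⟨τp, hp⟩ := hp
    by_cases hm : ∃ τ : ι → Bool, g ⬝ᵥ sv τ + β < -1
    · obtain ⟨τm, hm⟩ := hm
      exact Or.inl (cov_two_sided hg hp hm)
    · push Not at hm hsing
      left
      -- two nonzero coefficients
      have hne : ∃ j, g j ≠ 0 := by
        by_contra hcon
        push Not at hcon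
        have hg0 : g = 0 := funext hcon
        rw [hg0, zero_dotProduct] at hp habs
        linarith
      obtain ⟨j₁, h₁⟩ := hne
      obtain ⟨j₂, hj, h₂⟩ := hsing j₁
      exact cov_one_sided hp hm hy0' habs.2 hj.symm h₁ h₂
  · by_cases hm : ∃ τ : ι → Bool, g ⬝ᵥ sv τ + β < -1
    · obtain ⟨τm, hm⟩ := hm
      push Not at hp hsing
      left
      have hne : ∃ j, g j ≠ 0 := by
        by_contra hcon
        push Not at hcon
        have hg0 : g = 0 := funext hcon
        rw [hg0, zero_dotProduct] at hm habs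
        linarith
      obtain ⟨j₁, h₁⟩ := hne
      obtain ⟨j₂, hj, h₂⟩ := hsing j₁
      have := cov_one_sided (g := -g) (β := -β) (y0 := y0) (τp := τm)
        (by rw [neg_dotProduct]; linarith) (fun τ => by rw [neg_dotProduct]; linarith [hp τ]) hy0'
        (by rw [neg_dotProduct]; linarith) (j₁ := j₁) (j₂ := j₂) hj.symm (by simpa using h₁)
        (by simpa using h₂)
      rwa [Ks_neg] at this
    · -- the slab contains the cube
      push Not at hp hm
      right
      refine ⟨fun i => Pi.single i 1, 0, ?_⟩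
      ext x
      simp only [Ks, Set.mem_ofPred_eq, single_dotProduct, one_mul, Pi.zero_apply, sub_zero]
      refine ⟨fun h => h.1, fun h => ⟨h, ?_⟩⟩
      have k1 := rnd_dot (s := g) h
      have k2 := rnd_dot (s := -g) h
      rw [neg_dotProduct, neg_dotProduct] at k2
      have k3 := hp (rnd x g)
      have k4 := hm (rnd x (-g))
      rw [abs_le]
      constructor <;> linarith

end Pool.Agent.TH349.Had
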