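import Mathlib
import Pool.Agent.TH349.Had.Main
import Pool.Agent.TH349.Had.One
import Pool.Agent.TH349.Had.BeckFiala

set_option autoImplicit false

/-!
Intersections of at most `d + 1` slabs.
-/

open Matrix Module Set
open Pool.Agent.W396.Il (Ill Cov cov_of_ill)

namespace Pool.Agent.TH349.Had

variable {E : Type*} [NormedAddCommGroup E] [NormedSpace ℝ E] [FiniteDimensional ℝ E]

/-- the functional with given coefficients -/
def dl {d : ℕ} (g : Fin d → ℝ) : (Fin d → ℝ) →ₗ[ℝ] ℝ where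
  toFun x := g ⬝ᵥ x
  map_add' := dotProduct_add g
  map_smul' c x := by rw [dotProduct_smul]; rfl

/-- At most one element outside of the range. -/
theorem exists_single {d n : ℕ} (hn : n ≤ d + 1) (e : Fin d → Fin n) (he : Function.Injective e)
    (G : Fin n → Fin d → ℝ) (γ : Fin n → ℝ) (hG : ∀ i j, |G i j| ≤ 1) :
    ∃ (g : Fin d → ℝ) (β : ℝ), (∀ j, |g j| ≤ 1) ∧
      (∀ i, (∃ j, e j = i) ∨ (G i = g ∧ γ i = β)) ∧
      ((g = 0 ∧ β = 0) ∨ ∃ i, G i = g ∧ γ i = β) := by
  classical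
  set C : Finset (Fin n) := (Finset.univ.image e)ᶜ with hC
  have hCm : ∀ i, i ∈ C ↔ ¬ ∃ j, e j = i := fun i => by simp [hC]
  have hcard : C.card ≤ 1 := by
    rw [hC, Finset.card_compl, Finset.card_image_of_injective _ he, Finset.card_univ,
      Fintype.card_fin, Fintype.card_fin]
    omega
  have h3 : C.card = 0 ∨ C.card = 1 := by omega
  rcases h3 with h | h
  · refine ⟨fun _ => 0, 0, fun _ => by simp, fun i => Or.inl ?_, Or.inl ⟨rfl, rfl⟩⟩
    by_contra hi
    have := (hCm i).2 hi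
    rw [Finset.card_eq_zero.1 h] at this
    simp at this
  · obtain ⟨a, ha⟩ := Finset.card_eq_one.1 h
    refine ⟨G a, γ a, fun j => hG a j, fun i => ?_, Or.inr ⟨a, rfl, rfl⟩⟩
    by_cases hi : ∃ j, e j = i
    · exact Or.inl hi
    · have := (hCm i).2 hi
      rw [ha, Finset.mem_singleton] at this
      exact Or.inr ⟨by rw [this], by rw [this]⟩

/-- **Intersections of at most `d + 1` slabs.** -/
theorem cov_slabs_one {d n : ℕ} (hd : finrank ℝ E = d) (hn : n ≤ d + 1)
    (φ : Fin n → (E →ₗ[ℝ] ℝ))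
    (c : Fin n → ℝ) (hK : IsCompact (Sl φ c)) (hKi : (interior (Sl φ c)).Nonempty) :
    Cov (2 ^ d - 1) (Sl φ c) ∨
      ∃ (ψ : Fin d → (E →ₗ[ℝ] ℝ)) (a : Fin d → ℝ), Sl φ c = Sl ψ a := by
  classical
  -- remove the zero functionals
  set c' : Fin n → ℝ := fun i => if φ i = 0 then 0 else c i with hc'
  obtain ⟨y, hy⟩ := hKi
  have hSl : Sl φ c = Sl φ c' := by
    have hy' := interior_subset hy
    ext x
    constructor
    · intro h i
      by_cases h0 : φ i = 0
      · simp [hc', h0]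
      · simp only [hc', if_neg h0]; exact h i
    · intro h i
      by_cases h0 : φ i = 0
      · have := hy' i
        rw [h0] at this ⊢
        simpa using this
      · have := h i
        simpa only [hc', if_neg h0] using this
  rw [hSl] at hK hy ⊢
  have hc0 : ∀ i, φ i = 0 → c' i = 0 := fun i h => by simp [hc', h]
  have hstrict := strict_of_interior hc0 hy
  obtain ⟨e, Ψ, G, he, hΨ, hG, hG1⟩ := exists_frame hd φ (no_kernel hK (interior_subset hy))
  -- the point where the basis slabs are centred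
  set q : E := Ψ.symm (fun j => c' (e j)) with hq
  have hval : ∀ i x, φ i x - c' i = G i ⬝ᵥ Ψ (x - q) + (φ i q - c' i) := by
    intro i x
    rw [← hG, map_sub]; ring
  have hvalb : ∀ j x, φ (e j) x - c' (e j) = Ψ (x - q) j := by
    intro j x
    rw [hΨ, map_sub]
    have : φ (e j) q = c' (e j) := by
      rw [← hΨ, hq, LinearEquiv.apply_symm_apply]
    rw [this]
  obtain ⟨g, β, hg1, hg, hg'⟩ := exists_single hn e he G (fun i => φ i q - c' i) hG1
  have hset : Sl φ c' = {x : E | Ψ (x - q) ∈ Ks g β} := by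
    ext x
    simp only [Set.mem_ofPred_eq, Ks]
    constructor
    · intro hx
      refine ⟨fun j => by rw [← hvalb]; exact hx _, ?_⟩
      rcases hg' with ⟨h1, h2⟩ | ⟨i, h1, h2⟩
      · rw [h1, h2]; simp
      · rw [← h1, ← h2, ← hval]; exact hx i
    · rintro ⟨h1, h2⟩ i
      rcases hg i with ⟨j, rfl⟩ | ⟨hl, hl'⟩
      · rw [hvalb]; exact h1 j
      · rw [hval, hl, hl']; exact h2
  rw [hset]
  rcases cov_one (g := g) (β := β) (y0 := Ψ (y - q)) hg1
    (fun j => by rw [← hvalb]; exact hstrict _)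
    (by
      rcases hg' with ⟨h1, h2⟩ | ⟨i, h1, h2⟩
      · rw [h1, h2]; simp
      · rw [← h1, ← h2, ← hval]; exact hstrict i) with h | ⟨P, a, hP⟩
  · left
    have := cov_transfer Ψ q _ h
    rwa [Fintype.card_fin] at this
  · right
    refine ⟨fun j => dl (P j) ∘ₗ (Ψ : E →ₗ[ℝ] (Fin d → ℝ)),
      fun j => a j + P j ⬝ᵥ Ψ q, ?_⟩
    rw [hP]
    ext x
    simp only [Set.mem_ofPred_eq, Sl]
    refine forall_congr' fun j => ?_
    have e : (dl (P j) ∘ₗ (Ψ : E →ₗ[ℝ] (Fin d → ℝ))) x = P j ⬝ᵥ Ψ x := rfl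
    rw [e, map_sub, dotProduct_sub]
    have : P j ⬝ᵥ Ψ x - P j ⬝ᵥ Ψ q - a j = P j ⬝ᵥ Ψ x - (a j + P j ⬝ᵥ Ψ q) := by ring
    rw [this]

end Pool.Agent.TH349.Had
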